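import Pool.Agent.Lib.MP_6f5a85_an.TwoPoint

/-! Cube roots of unity, sectors, the inverse branch, and contraction along backward orbits. -/

namespace Pool.Agent.Lib.MP_6f5a85_an

open Complex

theorem u_norm {u : ℂ} (h : u ^ 3 = 1) : ‖u‖ = 1 := by
  have h1 : ‖u‖ ^ 3 = 1 := by rw [← norm_pow, h, norm_one]
  exact (pow_eq_one_iff_of_nonneg (norm_nonneg u) (by norm_num)).1 h1

theorem u_ne {u : ℂ} (h : u ^ 3 = 1) : u ≠ 0 := fun e => by rw [e] at h; norm_num at h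

theorem u_mul {u v : ℂ} (h : u ^ 3 = 1) (h' : v ^ 3 = 1) : (u * v) ^ 3 = 1 := by
  rw [mul_pow, h, h', one_mul]

theorem u_sq {u : ℂ} (h : u ^ 3 = 1) : (u ^ 2) ^ 3 = 1 := by
  rw [← pow_mul, mul_comm, pow_mul, h, one_pow]

theorem u_quad {u : ℂ} (h : u ^ 3 = 1) (h1 : u ≠ 1) : u ^ 2 + u + 1 = 0 := by
  have : (u - 1) * (u ^ 2 + u + 1) = 0 := by linear_combination h
  exact (mul_eq_zero.1 this).resolve_left (sub_ne_zero.2 h1)

theorem u_re {u : ℂ} (h : u ^ 3 = 1) (h1 : u ≠ 1) : u.re = -1 / 2 ∧ u.im ^ 2 = 3 / 4 := by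
  have h2 := u_quad h h1
  have h3 : u.re ^ 2 + u.im ^ 2 = 1 := by
    have := Complex.sq_norm u
    rw [u_norm h, normSq_apply] at this
    linarith
  have h4 := congrArg re h2
  have h5 := congrArg im h2
  simp [pow_two] at h4 h5
  have h6 : u.re = -1 / 2 := by
    have : (2 * u.re + 1) * u.re = 0 := by nlinarith
    rcases mul_eq_zero.1 this with h | h
    · linarith
    · rw [h] at h5 h3
      have : u.im = 0 := by linarith
      rw [this] at h3; norm_num at h3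
  exact ⟨h6, by rw [h6] at h3; linarith⟩

theorem u_sq_ne {u : ℂ} (h : u ^ 3 = 1) (h1 : u ≠ 1) : u ^ 2 ≠ 1 := fun e =>
  h1 (by linear_combination h - u * e)

/-- A primitive cube root of unity. -/
noncomputable def om : ℂ := ⟨-1 / 2, √3 / 2⟩

theorem om_quad : om ^ 2 + om + 1 = 0 := by
  have h : √3 * √3 = 3 := Real.mul_self_sqrt (by norm_num)
  apply Complex.ext <;> simp [om, pow_two] <;> nlinarith

theorem om_cube : om ^ 3 = 1 := by linear_combination (om - 1) * om_quad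

theorem om_ne : om ≠ 1 := fun h => by
  have := congrArg re h
  simp [om] at this
  linarith

theorem u_cases {ρ u : ℂ} (hρ : ρ ^ 3 = 1) (h1 : ρ ≠ 1) (h : u ^ 3 = 1) :
    u = 1 ∨ u = ρ ∨ u = ρ ^ 2 := by
  have h2 := u_quad hρ h1
  have : (u - 1) * ((u - ρ) * (u - ρ ^ 2)) = 0 := by
    linear_combination h + (u - u ^ 2) * h2 + (u - 1) * hρ
  rcases mul_eq_zero.1 this with e | e
  · exact Or.inl (sub_eq_zero.1 e)
  · exact Or.inr ((mul_eq_zero.1 e).imp sub_eq_zero.1 sub_eq_zero.1)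

theorem f_rot {u : ℂ} (h : u ^ 3 = 1) (X : ℂ) : f (u * X) = u ^ 2 * f X := by
  have hu := u_ne h
  unfold f
  rw [mul_pow, h, one_mul, eq_comm, div_mul_eq_div_div_swap, eq_div_iff hu]
  linear_combination (X ^ 3 - 16 / 27) / X * h

theorem NN_rot {u v : ℂ} (h : u ^ 3 = 1) (h' : v ^ 3 = 1) (X Y : ℂ) :
    NN (u * X) (v * Y) = NN X Y := by
  unfold NN sr
  rw [mul_pow, mul_pow, h, h', one_mul, one_mul]

theorem norm_rot {u : ℂ} (h : u ^ 3 = 1) (X : ℂ) : ‖u * X‖ = ‖X‖ := by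
  rw [norm_mul, u_norm h, one_mul]

theorem dist_rot {u : ℂ} (h : u ^ 3 = 1) (X Y : ℂ) : ‖u * X - u * Y‖ = ‖X - Y‖ := by
  rw [← mul_sub, norm_rot h]

/-- Every point lies in one of the three sectors. -/
theorem exists_sec (z : ℂ) : ∃ u X : ℂ, u ^ 3 = 1 ∧ z = u * X ∧ ‖X‖ ≤ 2 * X.re := by
  by_contra hn
  push Not at hn
  have h0 := hn 1 z (by norm_num) (by ring)
  have h1 := hn (om ^ 2) (om * z) (u_sq om_cube) (by linear_combination -z * om_cube)
  have h2 := hn om (om ^ 2 * z) om_cube (by linear_combination -z * om_cube)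
  rw [norm_rot om_cube] at h1
  rw [norm_rot (u_sq om_cube)] at h2
  have e : om ^ 2 = ⟨-1 / 2, -(√3 / 2)⟩ := by
    have : om ^ 2 = -om - 1 := by linear_combination om_quad
    rw [this]; apply Complex.ext <;> simp [om]; norm_num
  rw [e] at h2
  have h : √3 * √3 = 3 := Real.mul_self_sqrt (by norm_num)
  have hz := Complex.sq_norm z
  rw [normSq_apply] at hz
  simp [om] at h1 h2
  have hb : (√3 * z.im) ^ 2 = 3 * z.im ^ 2 := by rw [mul_pow, pow_two, h]
  set b := √3 * z.im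
  have k1 : -z.re - b < ‖z‖ := by linarith
  have k2 : -z.re + b < ‖z‖ := by linarith
  nlinarith [mul_pos (sub_pos.2 k1) (sub_pos.2 k2), mul_pos (sub_pos.2 h0) (sub_pos.2 k1),
    mul_pos (sub_pos.2 h0) (sub_pos.2 k2)]

/-- The critical point between the sectors `1` and `ρ`. -/
noncomputable def cr (ρ : ℂ) : ℂ := 2 / 3 * (1 + ρ)

theorem cr_cube {ρ : ℂ} (h : ρ ^ 3 = 1) (h1 : ρ ≠ 1) : cr ρ ^ 3 = -(8 / 27) := by
  unfold cr
  linear_combination 8 / 9 * u_quad h h1 + 8 / 27 * h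

theorem cr_norm {ρ : ℂ} (h : ρ ^ 3 = 1) (h1 : ρ ≠ 1) : ‖cr ρ‖ = 2 / 3 := by
  have e : cr ρ = ρ ^ 2 * (-(2 / 3)) := by unfold cr; linear_combination 2 / 3 * u_quad h h1
  rw [e, norm_rot (u_sq h)]; simp

theorem f_cr {ρ : ℂ} (h : ρ ^ 3 = 1) (h1 : ρ ≠ 1) : f (cr ρ) = ρ * (4 / 3) := by
  have e : cr ρ = ρ ^ 2 * (-(2 / 3)) := by unfold cr; linear_combination 2 / 3 * u_quad h h1
  have e2 : f (-(2 / 3)) = 4 / 3 := by unfold f; norm_num
  rw [e, f_rot (u_sq h), e2]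
  linear_combination 4 / 3 * ρ * h

theorem in0_cr {ρ : ℂ} (h : ρ ^ 3 = 1) (h1 : ρ ≠ 1) : In0 (cr ρ) := by
  refine ⟨fun e => ?_, by rw [f_cr h h1, norm_rot h, norm_v], ?_⟩
  · have := cr_norm h h1
    rw [e, norm_zero] at this; norm_num at this
  · rw [cr_norm h h1]
    have : (cr ρ).re = 2 / 3 * (1 + ρ.re) := by
      have : cr ρ = ((2 / 3 : ℝ) : ℂ) * (1 + ρ) := by unfold cr; push_cast; ring
      rw [this, re_ofReal_mul]; simp
    rw [this, (u_re h h1).1]; norm_num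

theorem cross' {X Y ρ : ℂ} (hX : In0 X) (hY : In0 Y) (h : ρ ^ 3 = 1) (h1 : ρ ≠ 1) :
    ‖X - cr ρ‖ ≤ 14 * ‖X - ρ * Y‖ := by
  obtain ⟨h2, h3⟩ := u_re h h1
  have hs : (√3 / 2) ^ 2 = 3 / 4 := by
    rw [div_pow, Real.sq_sqrt (by norm_num)]; norm_num
  obtain ⟨σ, hσ, h4⟩ : ∃ σ : ℝ, (σ = 1 ∨ σ = -1) ∧ ρ.im = σ * (√3 / 2) := by
    rcases sq_eq_sq_iff_eq_or_eq_neg.1 (h3.trans hs.symm) with e | e
    · exact ⟨1, Or.inl rfl, by linarith⟩
    · exact ⟨-1, Or.inr rfl, by linarith⟩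
  have c2 : Real.cos (2 * Real.pi / 3) = -1 / 2 := by
    rw [show 2 * Real.pi / 3 = Real.pi - Real.pi / 3 by ring, Real.cos_pi_sub,
      Real.cos_pi_div_three]; norm_num
  have s2 : Real.sin (2 * Real.pi / 3) = √3 / 2 := by
    rw [show 2 * Real.pi / 3 = Real.pi - Real.pi / 3 by ring, Real.sin_pi_sub,
      Real.sin_pi_div_three]
  have e1 : cexp (((σ * (2 * Real.pi / 3) : ℝ) : ℂ) * I) = ρ := by
    apply Complex.ext
    · rw [exp_ofReal_mul_I_re, h2]; rcases hσ with rfl | rfl <;> simp [c2]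
    · rw [exp_ofReal_mul_I_im, h4]; rcases hσ with rfl | rfl <;> simp [s2]
  have e2 : cexp (((σ * (Real.pi / 3) : ℝ) : ℂ) * I) = 1 + ρ := by
    apply Complex.ext
    · rw [exp_ofReal_mul_I_re, add_re, h2]; rcases hσ with rfl | rfl <;> simp <;> norm_num
    · rw [exp_ofReal_mul_I_im, add_im, h4]; rcases hσ with rfl | rfl <;> simp
  have := cross hX hY hσ
  rw [e1, e2] at this
  unfold cr
  simpa using this

theorem In0.inj {X Y : ℂ} (hX : In0 X) (hY : In0 Y) (h : f X = f Y) : X = Y := by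
  have := step_hol hX hY
  rw [h, sub_self, norm_zero, mul_zero] at this
  exact sub_eq_zero.1 (norm_eq_zero.1 (pow_eq_zero_iff (two_ne_zero)|>.1
    (le_antisymm this (sq_nonneg _))))

theorem in0_rot {u X : ℂ} (h : u ^ 3 = 1) (h0 : u * X ≠ 0) (hd : ‖f (u * X)‖ ≤ 4 / 3)
    (hs : ‖X‖ ≤ 2 * X.re) : In0 X :=
  ⟨right_ne_zero_of_mul h0, by rwa [f_rot h, norm_rot (u_sq h)] at hd, hs⟩

/-- Every point of the disc has a preimage in the sector. -/
theorem exists_pre {z : ℂ} (hz : ‖z‖ ≤ 4 / 3) : ∃ X, In0 X ∧ f X = z := by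
  have root : ∀ r : ℂ, r ^ 3 - z * r - 16 / 27 = 0 → r ≠ 0 ∧ f r = z := fun r hr => by
    have h0 : r ≠ 0 := fun e => by rw [e] at hr; norm_num at hr
    refine ⟨h0, ?_⟩
    unfold f
    rw [div_eq_iff h0]; linear_combination hr
  obtain ⟨a, ha⟩ : ∃ a : ℂ, a ^ 3 - z * a - 16 / 27 = 0 := by
    obtain ⟨a, ha⟩ := IsAlgClosed.exists_root
      (Polynomial.X ^ 3 - Polynomial.C z * Polynomial.X - Polynomial.C (16 / 27) : Polynomial ℂ)
      (by
        have : (Polynomial.X ^ 3 - Polynomial.C z * Polynomial.X - Polynomial.C (16 / 27) :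
          Polynomial ℂ).degree = 3 := by compute_degree!
        rw [this]; norm_num)
    exact ⟨a, by simpa using ha⟩
  obtain ⟨s, hs⟩ := IsAlgClosed.exists_pow_nat_eq (4 * z - 3 * a ^ 2) (by norm_num : 0 < 2)
  by_contra hn
  push Not at hn
  have sec : ∀ r : ℂ, r ^ 3 - z * r - 16 / 27 = 0 →
      ∃ u X : ℂ, (u = om ∨ u = om ^ 2) ∧ u ^ 3 = 1 ∧ r = u * X ∧ In0 X ∧ f (u * X) = z := by
    intro r hr
    obtain ⟨h0, h1⟩ := root r hr
    obtain ⟨u, X, hu, rfl, hX⟩ := exists_sec r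
    have hI := in0_rot hu h0 (h1 ▸ hz) hX
    refine ⟨u, X, (u_cases om_cube om_ne hu).resolve_left fun e => ?_, hu, rfl, hI, h1⟩
    exact hn X hI (by rw [← h1, e, one_mul])
  have same : ∀ u X Y : ℂ, u ^ 3 = 1 → In0 X → In0 Y → f (u * X) = z → f (u * Y) = z →
      u * X = u * Y := fun u X Y hu hX hY h1 h2 => by
    rw [hX.inj hY (mul_left_cancel₀ (u_ne (u_sq hu)) (by rw [← f_rot hu, ← f_rot hu, h1, h2]))]
  have dbl : ∀ r t : ℂ, r + r + t = 0 → r * r * t = 16 / 27 → r ^ 3 - z * r - 16 / 27 = 0 →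
      t ^ 3 - z * t - 16 / 27 = 0 → False := fun r t h1 h2 h3 h4 => by
    have ht : t = -2 * r := by linear_combination h1
    have hu : (3 / 4 * t) ^ 3 = 1 := by
      rw [ht] at h2 ⊢; linear_combination 27 / 16 * h2
    by_cases e : 3 / 4 * t = 1
    · have : t = 4 / 3 := by linear_combination 4 / 3 * e
      exact hn t (this ▸ in0_v) (root t h4).2
    · have : r = cr ((3 / 4 * t) ^ 2) := by
        unfold cr
        linear_combination 1 / 2 * h1 - 2 / 3 * u_quad hu e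
      exact hn r (this ▸ in0_cr (u_sq hu) (u_sq_ne hu e)) (root r h3).2
  have hb : ((-a + s) / 2) ^ 3 - z * ((-a + s) / 2) - 16 / 27 = 0 := by
    linear_combination ha + (s - 3 * a) / 8 * hs
  have hc : ((-a - s) / 2) ^ 3 - z * ((-a - s) / 2) - 16 / 27 = 0 := by
    linear_combination ha + (-s - 3 * a) / 8 * hs
  have hp : a * ((-a + s) / 2) * ((-a - s) / 2) = 16 / 27 := by
    linear_combination ha - a / 4 * hs
  have hsum : a + (-a + s) / 2 + (-a - s) / 2 = 0 := by ring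
  generalize (-a + s) / 2 = b at hb hp hsum
  generalize (-a - s) / 2 = c at hc hp hsum
  have hab : a ≠ b := fun e => dbl a c (by rw [← hsum, ← e]) (by rw [← hp, ← e]) ha hc
  have hac : a ≠ c := fun e =>
    dbl a b (by rw [← hsum, ← e]; ring) (by rw [← hp, ← e]; ring) ha hb
  have hbc : b ≠ c := fun e =>
    dbl b a (by rw [← hsum, ← e]; ring) (by rw [← hp, ← e]; ring) hb ha
  obtain ⟨u1, X1, k1, l1, rfl, m1, n1⟩ := sec a ha
  obtain ⟨u2, X2, k2, l2, rfl, m2, n2⟩ := sec b hb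
  obtain ⟨u3, X3, k3, l3, rfl, m3, n3⟩ := sec c hc
  rcases k1 with rfl | rfl <;> rcases k2 with rfl | rfl <;> rcases k3 with rfl | rfl <;>
    first
    | exact hab (same _ _ _ l1 m1 m2 n1 n2)
    | exact hac (same _ _ _ l1 m1 m3 n1 n3)
    | exact hbc (same _ _ _ l2 m2 m3 n2 n3)

end Pool.Agent.Lib.MP_6f5a85_an
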