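import Pool.Agent.Lib.MP_6f5a85_an.Branch

/-! Backward chains and their contraction; comparison of numbers up to a factor. -/

namespace Pool.Agent.Lib.MP_6f5a85_an

open Complex Finset

/-- A chain of length `k` with letters `w`. -/
def Ch (w X : ℕ → ℂ) (k : ℕ) : Prop := ∀ i < k, In0 (X i) ∧ f (X i) = w (i + 1) * X (i + 1)

/-- A word in the cube roots of unity. -/
def Wd (w : ℕ → ℂ) : Prop := ∀ i, w i ^ 3 = 1

/-- The shift. -/
def sh (j : ℕ) (X : ℕ → ℂ) : ℕ → ℂ := fun i => X (i + j)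

@[simp] theorem sh_apply (j : ℕ) (X : ℕ → ℂ) (i : ℕ) : sh j X i = X (i + j) := rfl

theorem Wd.sh {w : ℕ → ℂ} (h : Wd w) (j : ℕ) : Wd (sh j w) := fun i => h (i + j)

theorem Ch.sh {w X : ℕ → ℂ} {k j : ℕ} (h : Ch w X (k + j)) : Ch (sh j w) (sh j X) k :=
  fun i hi => by
    have := h (i + j) (by omega)
    simpa [Nat.add_right_comm i 1 j] using this

theorem Ch.mono {w X : ℕ → ℂ} {k j : ℕ} (h : Ch w X k) (hj : j ≤ k) : Ch w X j :=
  fun i hi => h i (hi.trans_le hj)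

theorem Ch.norm_le {w X : ℕ → ℂ} {k : ℕ} (h : Ch w X k) (hw : Wd w) (h0 : ‖X 0‖ ≤ 4 / 3) :
    ‖X k‖ ≤ 4 / 3 := by
  cases k with
  | zero => exact h0
  | succ k =>
    have := h k k.lt_succ_self
    rw [← norm_rot (hw (k + 1)), ← this.2]; exact this.1.disc

theorem Ch.norm_zero_le {w X : ℕ → ℂ} {k : ℕ} (h : Ch w X k) (h0 : ‖X k‖ ≤ 4 / 3) :
    ‖X 0‖ ≤ 4 / 3 := by
  cases k with
  | zero => exact h0
  | succ k => exact (h 0 k.succ_pos).1.le

theorem exists_ch (k : ℕ) : ∀ (w : ℕ → ℂ) (Z : ℂ), Wd w → ‖Z‖ ≤ 4 / 3 →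
    ∃ X, Ch w X k ∧ X k = Z := by
  induction k with
  | zero => exact fun w Z _ _ => ⟨fun _ => Z, fun i hi => absurd hi (Nat.not_lt_zero i), rfl⟩
  | succ k ih =>
    intro w Z hw hZ
    obtain ⟨X, h1, h2⟩ := ih (sh 1 w) Z (hw.sh 1) hZ
    obtain ⟨Y, h3, h4⟩ := exists_pre (z := w 1 * X 0)
      (by rw [norm_rot (hw 1)]; exact h1.norm_zero_le (h2 ▸ hZ))
    refine ⟨fun i => Nat.casesOn i Y X, fun i hi => ?_, h2⟩
    cases i with
    | zero => exact ⟨h3, h4⟩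
    | succ i => exact h1 i (by omega)

theorem local_step {X Y : ℂ} (hX : In0 X) (hY : In0 Y) {e : ℝ} (h0 : 0 ≤ e) (he : e ≤ 1 / 10 ^ 18)
    (h : ‖f X - f Y‖ ≤ e * NN (f X) (f Y)) : ‖X - Y‖ ≤ e * (2 / 3) * NN X Y := by
  have h1 := step_hol hX hY
  have h2 := NN_le hX.disc hY.disc
  have h3 := NN_nonneg (f X) (f Y)
  have h4 := NN_nonneg X Y
  have hd := norm_nonneg (X - Y)
  have h5 : ‖X - Y‖ ≤ 1 / 30000000 := by
    apply le_of_sq (by norm_num)
    nlinarith [mul_le_mul he h2 h3 (by norm_num)]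
  rcases h3.eq_or_lt with e0 | hp
  · rw [← e0, mul_zero] at h
    have : ‖X - Y‖ ≤ 0 := by apply le_of_sq le_rfl; nlinarith
    exact this.trans (by positivity)
  have h6 := step_A hX hY
  have h7 : Real.exp (1200000 * ‖X - Y‖) ≤ 10 / 9 := by
    have := Real.exp_bound_div_one_sub_of_interval (x := 1200000 * ‖X - Y‖) (by positivity)
      (by linarith)
    refine this.trans ?_
    rw [div_le_div_iff₀ (by linarith) (by norm_num)]; linarith
  have h8 : Real.exp (1200000 * ‖X - Y‖) * lam X ≤ 2 / 3 := by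
    have := mul_le_mul h7 ((lam_le hX.le).trans th_le) (lam_nonneg X) (by norm_num)
    linarith
  have h9 := mul_le_mul h8 (mul_le_mul_of_nonneg_right h h4) (by positivity) (by norm_num)
  refine le_of_mul_le_mul_right ((h6.trans h9).trans_eq ?_) hp
  ring

theorem local_con (k : ℕ) : ∀ (w X Y : ℕ → ℂ) (e : ℝ), Wd w → Ch w X k → Ch w Y k → 0 ≤ e →
    e ≤ 1 / 10 ^ 18 → ‖X k - Y k‖ ≤ e * NN (X k) (Y k) →
    ‖X 0 - Y 0‖ ≤ e * (2 / 3) ^ k * NN (X 0) (Y 0) := by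
  induction k with
  | zero => intro w X Y e _ _ _ _ _ h; simpa using h
  | succ k ih =>
    intro w X Y e hw hX hY h0 he h
    have h1 := ih (sh 1 w) (sh 1 X) (sh 1 Y) e (hw.sh 1) hX.sh hY.sh h0 he h
    obtain ⟨a1, a2⟩ := hX 0 k.succ_pos
    obtain ⟨b1, b2⟩ := hY 0 k.succ_pos
    have h2 : e * (2 / 3) ^ k ≤ 1 / 10 ^ 18 :=
      (mul_le_of_le_one_right h0 (pow_le_one₀ (by norm_num) (by norm_num))).trans he
    have := local_step a1 b1 (e := e * (2 / 3) ^ k) (by positivity) h2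
      (by rw [a2, b2, dist_rot (hw _), NN_rot (hw _) (hw _)]; exact h1)
    rw [pow_succ, ← mul_assoc]; exact this

theorem radial_con {w : ℕ → ℂ} (hw : Wd w) (k : ℕ) {Z : ℂ} (hZ : ‖Z‖ ≤ 4 / 3) {O : ℕ → ℂ}
    (hO : Ch w O k) (h0 : O k = 0) (i : ℕ) : i ≤ 10 ^ 36 → ∀ X, Ch w X k →
      X k = ((i / 10 ^ 36 : ℝ) : ℂ) * Z → ‖X 0 - O 0‖ ≤ i * (5 / 10 ^ 18 * (2 / 3) ^ k) := by
  induction i with
  | zero =>
    intro _ X hX h
    have := local_con k w X O 0 hw hX hO le_rfl (by norm_num) (by rw [h, h0]; simp)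
    simpa using this
  | succ i ih =>
    intro hi X hX h
    have hi' : (i : ℝ) + 1 ≤ 10 ^ 36 := by exact_mod_cast hi
    have n0 : ∀ t : ℝ, 0 ≤ t → ‖(t : ℂ) * Z‖ ≤ t * (4 / 3) := fun t ht => by
      rw [norm_mul, norm_real, Real.norm_of_nonneg ht]
      exact mul_le_mul_of_nonneg_left hZ ht
    have t0 : (0 : ℝ) ≤ i / 10 ^ 36 := by positivity
    have t1 : (i / 10 ^ 36 : ℝ) ≤ 1 - 1 / 10 ^ 36 := by
      rw [div_le_iff₀ (by norm_num)]; linarith
    have n1 : ‖((i / 10 ^ 36 : ℝ) : ℂ) * Z‖ ≤ 4 / 3 := (n0 _ t0).trans (by linarith)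
    have n2 : ‖X k‖ ≤ 4 / 3 := by
      rw [h]
      refine (n0 _ (by positivity)).trans ?_
      have : ((i + 1 : ℕ) / 10 ^ 36 : ℝ) ≤ 1 := by
        rw [div_le_one (by norm_num)]; exact_mod_cast hi
      linarith
    obtain ⟨Y, hY, hk⟩ := exists_ch k w _ hw n1
    have h1 := ih (by omega) Y hY hk
    have h2 : ‖Y k - X k‖ ≤ 1 / 10 ^ 18 * NN (Y k) (X k) := by
      have a1 : ‖Y k - X k‖ ≤ 1 / 10 ^ 36 * (4 / 3) := by
        rw [norm_sub_rev, h, hk, ← sub_mul, ← ofReal_sub]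
        refine (n0 _ ?_).trans_eq ?_
        · push_cast; linarith [show (0 : ℝ) ≤ 1 / 10 ^ 36 by positivity, add_div (i : ℝ) 1 (10 ^ 36)]
        · push_cast; ring
      have a2 : 4 / 3 / 10 ^ 18 ≤ ‖sr (Y k)‖ := by
        apply le_of_sq (norm_nonneg _)
        rw [norm_sr_sq, hk]
        have b1 := norm_sub_norm_le (64 / 27 : ℂ) ((((i / 10 ^ 36 : ℝ) : ℂ) * Z) ^ 3)
        rw [norm_V, norm_pow] at b1
        have b2 := pow_le_pow_left₀ (norm_nonneg _) (n0 _ t0) 3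
        have b3 : (i / 10 ^ 36 : ℝ) ^ 3 ≤ i / 10 ^ 36 :=
          pow_le_of_le_one t0 (by linarith [show (0 : ℝ) ≤ 1 / 10 ^ 36 by positivity])
            (by norm_num)
        rw [mul_pow] at b2
        linarith
      have a3 := sr_le_NN (hk ▸ n1 : ‖Y k‖ ≤ 4 / 3) n2
      linarith
    have h3 := local_con k w Y X _ hw hY hX (by norm_num) le_rfl h2
    have h4 := NN_le (hY.norm_zero_le (hk ▸ n1)) (hX.norm_zero_le n2)
    have h5 := mul_le_mul_of_nonneg_left h4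
      (show (0 : ℝ) ≤ 1 / 10 ^ 18 * (2 / 3) ^ k by positivity)
    have h6 := norm_sub_le_norm_sub_add_norm_sub (X 0) (Y 0) (O 0)
    rw [norm_sub_rev] at h3
    push_cast; linarith

/-- Global contraction. -/
theorem con {w X Y : ℕ → ℂ} {k : ℕ} (hw : Wd w) (hX : Ch w X k) (hY : Ch w Y k)
    (h1 : ‖X k‖ ≤ 4 / 3) (h2 : ‖Y k‖ ≤ 4 / 3) : ‖X 0 - Y 0‖ ≤ 10 ^ 19 * (2 / 3) ^ k := by
  obtain ⟨O, hO, h0⟩ := exists_ch k w 0 hw (by norm_num)
  have a := radial_con hw k h1 hO h0 _ le_rfl X hX (by push_cast; norm_num)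
  have b := radial_con hw k h2 hO h0 _ le_rfl Y hY (by push_cast; norm_num)
  have c := norm_sub_le_norm_sub_add_norm_sub (X 0) (O 0) (Y 0)
  rw [norm_sub_rev] at b
  push_cast at a b
  linarith

theorem con' {w X Y : ℕ → ℂ} {k i : ℕ} (hw : Wd w) (hX : Ch w X k) (hY : Ch w Y k)
    (h1 : ‖X k‖ ≤ 4 / 3) (h2 : ‖Y k‖ ≤ 4 / 3) (hi : i ≤ k) :
    ‖X i - Y i‖ ≤ 10 ^ 19 * (2 / 3) ^ (k - i) := by
  obtain ⟨j, rfl⟩ : ∃ j, k = j + i := ⟨k - i, by omega⟩
  simpa using con (hw.sh i) hX.sh hY.sh h1 h2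

theorem geo_sum (k : ℕ) : ∑ i ∈ range k, (2 / 3 : ℝ) ^ (k - i) ≤ 2 := by
  induction k with
  | zero => simp
  | succ k ih =>
    have : ∑ i ∈ range (k + 1), (2 / 3 : ℝ) ^ (k + 1 - i)
        = 2 / 3 * (∑ i ∈ range k, (2 / 3 : ℝ) ^ (k - i) + 1) := by
      rw [sum_range_succ, mul_add, mul_sum]
      congr 1
      · exact sum_congr rfl fun i hi => by
          rw [show k + 1 - i = k - i + 1 by have := mem_range.1 hi; omega, pow_succ]; ring
      · simp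
    rw [this]; linarith

/-- Multiplying estimates along a chain. -/
theorem chain_le {a μ ε : ℕ → ℝ} (k : ℕ) (hμ : ∀ i < k, 0 ≤ μ i)
    (h : ∀ i < k, a i ≤ Real.exp (ε i) * μ i * a (i + 1)) :
    a 0 ≤ Real.exp (∑ i ∈ range k, ε i) * (∏ i ∈ range k, μ i) * a k := by
  induction k with
  | zero => simp
  | succ k ih =>
    have h1 := ih (fun i hi => hμ i (by omega)) fun i hi => h i (by omega)
    have h2 := mul_le_mul_of_nonneg_left (h k k.lt_succ_self)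
      (mul_nonneg (Real.exp_pos (∑ i ∈ range k, ε i)).le
        (prod_nonneg (s := range k) fun i hi => hμ i (Nat.lt_succ_of_lt (mem_range.1 hi))))
    rw [sum_range_succ, prod_range_succ, Real.exp_add]
    linarith

theorem chain_ge {a μ ε : ℕ → ℝ} (k : ℕ) (hμ : ∀ i < k, 0 ≤ μ i)
    (h : ∀ i < k, μ i * a (i + 1) ≤ Real.exp (ε i) * a i) :
    (∏ i ∈ range k, μ i) * a k ≤ Real.exp (∑ i ∈ range k, ε i) * a 0 := by
  induction k with
  | zero => simp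
  | succ k ih =>
    have h1 := mul_le_mul_of_nonneg_left
      (ih (fun i hi => hμ i (by omega)) fun i hi => h i (by omega)) (Real.exp_pos (ε k)).le
    have h2 := mul_le_mul_of_nonneg_left (h k k.lt_succ_self)
      (prod_nonneg (s := range k) fun i hi => hμ i (Nat.lt_succ_of_lt (mem_range.1 hi)))
    rw [sum_range_succ, prod_range_succ, Real.exp_add]
    linarith

theorem exp_sum_le {ε : ℕ → ℝ} {k : ℕ} {C : ℝ} (hC : 0 ≤ C)
    (h : ∀ i < k, ε i ≤ C * (2 / 3) ^ (k - i)) :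
    Real.exp (∑ i ∈ range k, ε i) ≤ Real.exp (2 * C) := by
  refine Real.exp_le_exp.2 ((sum_le_sum fun i hi => h i (mem_range.1 hi)).trans ?_)
  rw [← mul_sum]
  nlinarith [geo_sum k]

end Pool.Agent.Lib.MP_6f5a85_an
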