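import Pool.Agent.Lib.MP_6f5a85_an.Chain

/-! Coded orbits; distances to a vertex and to a critical point. -/

namespace Pool.Agent.Lib.MP_6f5a85_an

open Complex Finset

/-- A coded orbit on the side of `f`. -/
def Cd (w X : ℕ → ℂ) : Prop := ∀ i, In0 (X i) ∧ f (X i) = w (i + 1) * X (i + 1)

theorem Cd.ch {w X : ℕ → ℂ} (h : Cd w X) (k : ℕ) : Ch w X k := fun i _ => h i

theorem Cd.sh {w X : ℕ → ℂ} (h : Cd w X) (j : ℕ) : Cd (sh j w) (sh j X) := fun i => by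
  simpa [Nat.add_right_comm i 1 j] using h (i + j)

/-- The letters `1..q` are trivial. -/
def One (w : ℕ → ℂ) (q : ℕ) : Prop := ∀ i, 1 ≤ i → i ≤ q → w i = 1

/-- The letter `ρ` followed by trivial letters. -/
def Pat (w : ℕ → ℂ) (ρ : ℂ) (r : ℕ) : Prop := ∀ i, 1 ≤ i → i ≤ r → w i = if i = 1 then ρ else 1

theorem One.mono {w : ℕ → ℂ} {q q' : ℕ} (h : One w q) (hq : q' ≤ q) : One w q' :=
  fun i h1 h2 => h i h1 (h2.trans hq)

theorem one_zero (w : ℕ → ℂ) : One w 0 := fun i h1 h2 => by omega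

theorem pat_zero (w : ℕ → ℂ) (ρ : ℂ) : Pat w ρ 0 := fun i h1 h2 => by omega

theorem One.succ {w : ℕ → ℂ} {q : ℕ} (h : One w q) (h' : w (q + 1) = 1) : One w (q + 1) :=
  fun i h1 h2 => by
    rcases Nat.lt_or_eq_of_le h2 with h3 | rfl
    · exact h i h1 (by omega)
    · exact h'

theorem pat_succ {w : ℕ → ℂ} {ρ : ℂ} {q : ℕ} :
    Pat w ρ (q + 1) ↔ w 1 = ρ ∧ One (sh 1 w) q := by
  refine ⟨fun h => ⟨by simpa using h 1 le_rfl (by omega), fun i h1 h2 => ?_⟩, fun h i h1 h2 => ?_⟩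
  · simpa [show i ≠ 0 by omega] using h (i + 1) (by omega) (by omega)
  · split_ifs with e
    · rw [e, h.1]
    · obtain ⟨j, rfl⟩ : ∃ j, i = j + 1 := ⟨i - 1, by omega⟩
      exact h.2 j (by omega) (by omega)

/-- `a` and `b` agree up to the factor `C`. -/
def Cmp (C a b : ℝ) : Prop := a ≤ C * b ∧ b ≤ C * a

theorem Cmp.symm {C a b : ℝ} (h : Cmp C a b) : Cmp C b a := ⟨h.2, h.1⟩

theorem Cmp.trans {C D a b c : ℝ} (h : Cmp C a b) (h' : Cmp D b c) (hC : 1 ≤ C) (hD : 1 ≤ D) :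
    Cmp (C * D) a c :=
  ⟨by nlinarith [h.1, mul_le_mul_of_nonneg_left h'.1 (zero_le_one.trans hC)],
    by nlinarith [h'.2, mul_le_mul_of_nonneg_left h.2 (zero_le_one.trans hD)]⟩

theorem Cmp.mul {C D a b c d : ℝ} (h : Cmp C a b) (h' : Cmp D c d) (ha : 0 ≤ a) (hb : 0 ≤ b)
    (hc : 0 ≤ c) (hd : 0 ≤ d) : Cmp (C * D) (a * c) (b * d) :=
  ⟨(mul_le_mul h.1 h'.1 hc (ha.trans h.1)).trans_eq (by ring),
    (mul_le_mul h.2 h'.2 hd (hb.trans h.2)).trans_eq (by ring)⟩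

theorem Cmp.mono {C D a b : ℝ} (h : Cmp C a b) (hC : C ≤ D) (ha : 0 ≤ a) (hb : 0 ≤ b) :
    Cmp D a b :=
  ⟨h.1.trans (mul_le_mul_of_nonneg_right hC hb), h.2.trans (mul_le_mul_of_nonneg_right hC ha)⟩

theorem Cmp.refl (a : ℝ) : Cmp 1 a a := ⟨by simp, by simp⟩

theorem far_v {X ρ : ℂ} (hX : In0 X) (h : ρ ^ 3 = 1) (h1 : ρ ≠ 1) :
    2 / 3 ≤ ‖X - ρ * (4 / 3)‖ := by
  have h2 := re_le_norm (X - ρ * (4 / 3))
  have h3 : (ρ * (4 / 3)).re = ρ.re * (4 / 3) := by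
    rw [show (4 / 3 : ℂ) = ((4 / 3 : ℝ) : ℂ) by push_cast; ring, re_mul_ofReal]
  rw [sub_re, h3, (u_re h h1).1] at h2
  linarith [hX.sec, norm_nonneg X]

theorem far_v' {X u ρ : ℂ} (hX : In0 X) (hu : u ^ 3 = 1) (h : ρ ^ 3 = 1) (h1 : u ≠ ρ) :
    2 / 3 ≤ ‖u * X - ρ * (4 / 3)‖ := by
  have := far_v hX (u_mul (u_sq hu) h) fun e => h1 (by linear_combination ρ * hu - u * e)
  rw [← dist_rot hu] at this
  convert this using 3
  linear_combination -(ρ * (4 / 3)) * hu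

variable {w X : ℕ → ℂ} {q r : ℕ} {ρ : ℂ}

theorem one_dist (hw : Wd w) (hX : Cd w X) (h : One w q) {i : ℕ} (hi : i ≤ q) :
    ‖X i - 4 / 3‖ ≤ 10 ^ 19 * (2 / 3) ^ (q - i) :=
  con' (Y := fun _ => 4 / 3) hw (hX.ch q)
    (fun j hj => ⟨in0_v, by rw [h (j + 1) (by omega) hj, one_mul, f_v]⟩) (hX q).1.le
    norm_v.le hi

theorem one_exp (hw : Wd w) (hX : Cd w X) (h : One w q) {c : ℝ} (hc : 0 ≤ c) :
    Real.exp (∑ i ∈ range q, c * ‖X i - 4 / 3‖) ≤ Real.exp (2 * (c * 10 ^ 19)) :=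
  exp_sum_le (by positivity) fun i hi => by
    rw [mul_assoc]; exact mul_le_mul_of_nonneg_left (one_dist hw hX h hi.le) hc

/-- The constant of the estimates at a vertex. -/
noncomputable def C1 : ℝ := 12 * Real.exp (2 * (150 * 10 ^ 19))

theorem C1_ge : 12 ≤ C1 := by
  unfold C1
  linarith [Real.add_one_le_exp (2 * (150 * 10 ^ 19))]

theorem one_up (hw : Wd w) (hX : Cd w X) (h : One w q) : ‖X 0 - 4 / 3‖ ≤ C1 * (1 / 3) ^ q := by
  have h1 := chain_le (a := fun i => ‖X i - 4 / 3‖) (μ := fun _ => 1 / 3)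
    (ε := fun i => 150 * ‖X i - 4 / 3‖) q (fun _ _ => by norm_num) fun i hi => by
      have := step_D2 (hX i).1
      rw [(hX i).2, h (i + 1) (by omega) hi, one_mul] at this
      linarith
  rw [prod_const, card_range] at h1
  have h2 : ‖X q - 4 / 3‖ ≤ 12 := by
    have := norm_sub_le (X q) (4 / 3)
    rw [norm_v] at this; linarith [(hX q).1.le]
  refine h1.trans ((mul_le_mul (mul_le_mul_of_nonneg_right (one_exp hw hX h (by norm_num))
    (by positivity)) h2 (norm_nonneg _) (by positivity)).trans_eq ?_)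
  unfold C1; ring

theorem one_down (hw : Wd w) (hX : Cd w X) (h : One w q) (h' : w (q + 1) ≠ 1) :
    (1 / 3) ^ q ≤ C1 * ‖X 0 - 4 / 3‖ := by
  have h1 := chain_ge (a := fun i => ‖X i - 4 / 3‖) (μ := fun _ => 1 / 3)
    (ε := fun i => 150 * ‖X i - 4 / 3‖) q (fun _ _ => by norm_num) fun i hi => by
      have := step_D1 (hX i).1
      rw [(hX i).2, h (i + 1) (by omega) hi, one_mul] at this
      linarith
  rw [prod_const, card_range] at h1
  have h2 : 1 / 12 ≤ ‖X q - 4 / 3‖ := by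
    have a := step_lip (hX q).1 in0_v
    have b := far_v' (hX (q + 1)).1 (hw (q + 1)) (one_pow 3) h'
    rw [f_v, (hX q).2] at a
    rw [one_mul] at b
    linarith
  have h3 := mul_le_mul_of_nonneg_right (one_exp hw hX h (c := 150) (by norm_num))
    (norm_nonneg (X 0 - 4 / 3))
  have h4 := mul_le_mul_of_nonneg_left h2 (show (0 : ℝ) ≤ (1 / 3) ^ q by positivity)
  unfold C1; linarith

/-- The product of the local contraction factors. -/
noncomputable def Lam (X : ℕ → ℂ) (n : ℕ) : ℝ := ∏ i ∈ range n, lam (X i)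

theorem Lam_nonneg (X : ℕ → ℂ) (n : ℕ) : 0 ≤ Lam X n := prod_nonneg fun _ _ => lam_nonneg _

theorem Lam_add (X : ℕ → ℂ) (n j : ℕ) : Lam X (n + j) = Lam X n * Lam (sh n X) j := by
  unfold Lam
  rw [prod_range_add]
  simp [add_comm]

theorem Lam_le (hX : Cd w X) (n : ℕ) : Lam X n ≤ th ^ n := by
  have := prod_le_prod (s := range n) (f := fun i => lam (X i)) (g := fun _ => th)
    (fun _ _ => lam_nonneg _) fun i _ => lam_le (hX i).1.le
  rwa [prod_const, card_range] at this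

theorem Cd.lam_ge (hw : Wd w) (hX : Cd w X) (i : ℕ) : 1 / 3 ≤ lam (X i) := by
  refine lam_ge' (norm_ge_two (hX i).1.ne ?_ ?_)
  · rw [(hX i).2]; exact mul_ne_zero (u_ne (hw _)) (hX _).1.ne
  · rw [(hX i).2, f_rot (hw _), norm_rot (u_sq (hw _))]; exact (hX _).1.disc

theorem Lam_ge (hw : Wd w) (hX : Cd w X) (n : ℕ) : (1 / 3) ^ n ≤ Lam X n := by
  have := prod_le_prod (s := range n) (g := fun i => lam (X i)) (f := fun _ => (1 / 3 : ℝ))
    (fun _ _ => by norm_num) fun i _ => hX.lam_ge hw i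
  rwa [prod_const, card_range] at this

theorem one_lam (hw : Wd w) (hX : Cd w X) (h : One w q) : th ^ q ≤ C1 * Lam X q := by
  have h1 := prod_le_prod (s := range q) (f := fun _ => th)
    (g := fun i => Real.exp (150 * ‖X i - 4 / 3‖) * lam (X i)) (fun _ _ => th_pos.le) fun i _ => by
      have := lam_dist (X := 4 / 3) (hX i).1.ge
      rw [lam_eq norm_v, norm_sub_rev] at this
      exact this.trans (mul_le_mul_of_nonneg_right
        (Real.exp_le_exp.2 (by linarith [norm_nonneg (X i - 4 / 3)])) (lam_nonneg _))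
  rw [prod_const, card_range, prod_mul_distrib, ← Real.exp_sum] at h1
  have h2 := mul_le_mul_of_nonneg_right (one_exp hw hX h (c := 150) (by norm_num))
    (Lam_nonneg X q)
  have h3 := mul_nonneg (Real.exp_pos (2 * (150 * 10 ^ 19))).le (Lam_nonneg X q)
  have h4 := h1.trans h2
  unfold C1
  generalize Real.exp (2 * (150 * 10 ^ 19)) = E at h3 h4 ⊢
  linarith

theorem th_pow_sq (q : ℕ) : (th ^ q) ^ 2 = (1 / 3) ^ q := by
  rw [← pow_mul, mul_comm, pow_mul, th_sq]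

theorem th_ge : 1 / 2 ≤ th := by apply le_of_sq th_pos.le; rw [th_sq]; norm_num

theorem pat_up (hw : Wd w) (hX : Cd w X) (hρ : ρ ^ 3 = 1) (h1 : ρ ≠ 1) (h : Pat w ρ r) :
    ‖X 0 - cr ρ‖ ≤ 10 * C1 * th ^ r := by
  have hC := C1_ge
  cases r with
  | zero =>
    have := norm_sub_le (X 0) (cr ρ)
    rw [cr_norm hρ h1] at this
    linarith [(hX 0).1.le]
  | succ q =>
    obtain ⟨a, b⟩ := pat_succ.1 h
    have h2 := one_up (hw.sh 1) (hX.sh 1) b
    have h3 := step_hol (hX 0).1 (in0_cr hρ h1)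
    rw [f_cr hρ h1, (hX 0).2, zero_add, a, dist_rot hρ] at h3
    apply le_of_sq (by have := th_pos; positivity)
    rw [mul_pow, th_pow_sq, pow_succ (1 / 3 : ℝ)]
    have h4 : (0 : ℝ) ≤ (1 / 3) ^ q := by positivity
    simp only [sh_apply, zero_add] at h2
    nlinarith [mul_le_mul_of_nonneg_right hC (mul_nonneg (by linarith : 0 ≤ C1) h4)]

theorem pat_down (hw : Wd w) (hX : Cd w X) (hρ : ρ ^ 3 = 1) (h1 : ρ ≠ 1) (h : Pat w ρ r)
    (h' : ¬ Pat w ρ (r + 1)) : th ^ r ≤ C1 * ‖X 0 - cr ρ‖ := by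
  have hC := C1_ge
  have h3 := step_E (hX 0).1 (in0_cr hρ h1) (cr_cube hρ h1)
  rw [f_cr hρ h1, (hX 0).2, zero_add] at h3
  have hd := sq_nonneg ‖X 0 - cr ρ‖
  apply le_of_sq (mul_nonneg (by linarith) (norm_nonneg _))
  rw [mul_pow, th_pow_sq]
  cases r with
  | zero =>
    have := far_v' (hX 1).1 (hw 1) hρ fun e => h' (pat_succ.2 ⟨e, one_zero _⟩)
    nlinarith [mul_le_mul_of_nonneg_right (pow_le_pow_left₀ (by norm_num) hC 2) hd]
  | succ q =>
    obtain ⟨a, b⟩ := pat_succ.1 h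
    have h2 := one_down (hw.sh 1) (hX.sh 1) b fun e => h' (pat_succ.2 ⟨a, b.succ e⟩)
    rw [a, dist_rot hρ] at h3
    simp only [sh_apply, zero_add] at h2
    have h4 : (0 : ℝ) ≤ (1 / 3) ^ q := by positivity
    rw [pow_succ (1 / 3 : ℝ)]
    nlinarith [mul_le_mul_of_nonneg_left h3 (by linarith : 0 ≤ C1),
      mul_le_mul_of_nonneg_right hC (mul_nonneg (by linarith : 0 ≤ C1) hd)]

theorem pat_lam (hw : Wd w) (hX : Cd w X) (h : Pat w ρ r) : Cmp (3 * C1) (Lam X r) (th ^ r) := by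
  have hC := C1_ge
  have ht : 0 ≤ th ^ r := pow_nonneg th_pos.le r
  refine ⟨(Lam_le hX r).trans (by nlinarith), ?_⟩
  cases r with
  | zero => simp [Lam]; linarith
  | succ q =>
    have h2 := one_lam (hw.sh 1) (hX.sh 1) (pat_succ.1 h).2
    have h3 := Lam_ge hw hX 1
    have h4 := mul_nonneg (by linarith : 0 ≤ C1) (Lam_nonneg (sh 1 X) q)
    rw [add_comm q 1, Lam_add, pow_add, pow_one]
    nlinarith [mul_le_mul_of_nonneg_right h3 h4, th_le, pow_nonneg th_pos.le q]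

theorem rot_cr (hρ : ρ ^ 3 = 1) : ρ * cr (ρ ^ 2) = cr ρ := by
  unfold cr; linear_combination 2 / 3 * hρ

/-- Distance across a critical point. -/
theorem cross_cmp {w' X' : ℕ → ℂ} (hw : Wd w) (hX : Cd w X) (hw' : Wd w') (hX' : Cd w' X')
    (hρ : ρ ^ 3 = 1) (h1 : ρ ≠ 1) (h : Pat w ρ r) (h' : Pat w' (ρ ^ 2) r) :
    ‖X 0 - ρ * X' 0‖ ≤ 20 * C1 * th ^ r ∧
      (¬ (Pat w ρ (r + 1) ∧ Pat w' (ρ ^ 2) (r + 1)) → th ^ r ≤ 20 * C1 * ‖X 0 - ρ * X' 0‖) := by
  have hC := C1_ge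
  have hd := mul_nonneg (by linarith : 0 ≤ C1) (norm_nonneg (X 0 - ρ * X' 0))
  refine ⟨?_, fun hn => ?_⟩
  · have a := pat_up hw hX hρ h1 h
    have b := pat_up hw' hX' (u_sq hρ) (u_sq_ne hρ h1) h'
    rw [← dist_rot hρ, rot_cr hρ, norm_sub_rev] at b
    linarith [norm_sub_le_norm_sub_add_norm_sub (X 0) (cr ρ) (ρ * X' 0)]
  · rcases not_and_or.1 hn with hn | hn
    · have a := pat_down hw hX hρ h1 h hn
      have b := mul_le_mul_of_nonneg_left (cross' (hX 0).1 (hX' 0).1 hρ h1)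
        (by linarith : 0 ≤ C1)
      linarith
    · have a := pat_down hw' hX' (u_sq hρ) (u_sq_ne hρ h1) h' hn
      have b := cross' (hX' 0).1 (hX 0).1 (u_sq hρ) (u_sq_ne hρ h1)
      rw [← dist_rot hρ (X' 0) (ρ ^ 2 * X 0), norm_sub_rev (ρ * X' 0),
        show ρ * (ρ ^ 2 * X 0) = X 0 by linear_combination X 0 * hρ] at b
      have c := mul_le_mul_of_nonneg_left b (by linarith : 0 ≤ C1)
      linarith

end Pool.Agent.Lib.MP_6f5a85_an
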