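import Mathlib

/-!
Definitions for the Julia set of `z ↦ (z^3 - 16/27) / z`.
-/

namespace Pool.Agent.Lib.MP_6f5a85_an

open OnePoint Filter Topology

/-- The formula of the rational map at a finite nonzero point. -/
noncomputable def f (z : ℂ) : ℂ := (z ^ 3 - 16 / 27) / z

/-- The rational map on the Riemann sphere: `∞ ↦ ∞`, `0 ↦ ∞`, `z ↦ (z^3 - 16/27) / z`. -/
noncomputable def F (p : OnePoint ℂ) : OnePoint ℂ :=
  OnePoint.rec ∞ (fun z => if z = 0 then ∞ else ((f z : ℂ) : OnePoint ℂ)) p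

/-- The chordal distance from a finite point to infinity. -/
noncomputable def chordInf (z : ℂ) : ℝ := 2 / √(1 + ‖z‖ ^ 2)

/-- The chordal distance on the Riemann sphere. -/
noncomputable def chord (p q : OnePoint ℂ) : ℝ :=
  OnePoint.rec (OnePoint.rec 0 (fun w => chordInf w) q)
    (fun z => OnePoint.rec (chordInf z)
      (fun w => 2 * ‖z - w‖ / (√(1 + ‖z‖ ^ 2) * √(1 + ‖w‖ ^ 2))) q) p

/-- The Fatou set: the largest open subset of the sphere at each point of which the family of
all iterates of `F` is equicontinuous for the chordal distance. -/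
def fatou : Set (OnePoint ℂ) :=
  {p | ∃ U : Set (OnePoint ℂ), IsOpen U ∧ p ∈ U ∧
    ∀ q ∈ U, ∀ ε > 0, ∀ᶠ r in 𝓝 q, ∀ n : ℕ, chord (F^[n] q) (F^[n] r) < ε}

/-- The Julia set: the finite points outside the Fatou set. -/
def julia : Set ℂ := {z | (z : OnePoint ℂ) ∉ fatou}

end Pool.Agent.Lib.MP_6f5a85_an
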