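import Pool.Agent.Lib.MP_6f5a85_an.Lower

/-! Assembly: homeomorphisms of subtypes, arbitrary equilateral triangles, the gauge. -/

namespace Pool.Agent.Lib.MP_6f5a85_an

open Complex Set NNReal

variable {S : Set ℂ}

theorem exists_hm (g : S ≃ₜ S) : ∃ ψ χ : ℂ → ℂ, Hm S ψ χ ∧ ∀ y : S, ψ y = g y := by
  classical
  have ext : ∀ g : S ≃ₜ S, ∃ ψ : ℂ → ℂ, (∀ y : S, ψ y = g y) ∧ ContinuousOn ψ S := fun g => by
    refine ⟨fun y => if hy : y ∈ S then g ⟨y, hy⟩ else y, fun y => dif_pos y.2, ?_⟩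
    rw [continuousOn_iff_continuous_domRestrict]
    exact (continuous_subtype_val.comp g.continuous).congr fun y => by simp [y.2]
  obtain ⟨ψ, e1, c1⟩ := ext g
  obtain ⟨χ, e2, c2⟩ := ext g.symm
  refine ⟨ψ, χ, ⟨fun y hy => ?_, fun y hy => ?_, c1, c2, fun y hy => ?_, fun y hy => ?_⟩, e1⟩
  · rw [e1 ⟨y, hy⟩]; exact Subtype.property _
  · rw [e2 ⟨y, hy⟩]; exact Subtype.property _
  · rw [e1 ⟨y, hy⟩, e2, Homeomorph.symm_apply_apply]
  · rw [e2 ⟨y, hy⟩, e1, Homeomorph.apply_symm_apply]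

theorem upper (hS : IsG S) : ∃ C : ℝ, 0 < C ∧ ∀ (h : julia ≃ₜ S) (x a b : julia), x ≠ b →
    dist (h x) (h a) / dist (h x) (h b)
      ≤ C * max ((dist x a / dist x b) ^ ex) ((dist x a / dist x b) ^ (2 * ex)) := by
  obtain ⟨h0, hh⟩ := exists_homeo hS
  obtain ⟨C, hC, h1⟩ := rl_gauge
  refine ⟨C, hC, fun h x a b e => ?_⟩
  obtain ⟨ψ, χ, k1, k2⟩ := exists_hm (h0.symm.trans h)
  have k3 : ∀ x a : julia, dist (h x) (h a) = ‖(h0 x : ℂ) - h0 a‖ := fun x a => by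
    rw [← k1.isom hS (h0 x).2 (h0 a).2, k2, k2, Subtype.dist_eq, dist_eq_norm]
    simp
  rw [k3, k3]
  simp only [Subtype.dist_eq, dist_eq_norm]
  exact h1 _ _ _ _ _ _ (hh x) (hh a) (hh b) fun e' => e (Subtype.ext e')

theorem lower (hS : IsG S) (h : julia ≃ₜ S) {η : ℝ → ℝ} (hη : Monotone η)
    (hq : ∀ x a b : julia, x ≠ b →
      dist (h x) (h a) / dist (h x) (h b) ≤ η (dist x a / dist x b)) :
    ∃ c > 0, ∀ t, 0 < t → c * max (t ^ ex) (t ^ (2 * ex)) ≤ η t := by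
  classical
  obtain ⟨h0, hh⟩ := exists_homeo hS
  obtain ⟨ψ, χ, k1, e1⟩ := exists_hm (h0.symm.trans h)
  refine low_all hS k1 (k := fun y => if hy : y ∈ S then h0.symm ⟨y, hy⟩ else y)
    (fun s hs => ?_) hη fun s hs p hp q hq' e => ?_
  · simpa [hs] using hh (h0.symm ⟨s, hs⟩)
  · have := hq (h0.symm ⟨s, hs⟩) (h0.symm ⟨p, hp⟩) (h0.symm ⟨q, hq'⟩) fun e' =>
      e (congrArg Subtype.val (h0.symm.injective e'))
    simp only [Subtype.dist_eq, dist_eq_norm] at this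
    rw [e1 ⟨s, hs⟩, e1 ⟨p, hp⟩, e1 ⟨q, hq'⟩]
    simpa only [dif_pos hs, dif_pos hp, dif_pos hq', Homeomorph.trans_apply] using this

theorem equi {a b c : ℂ} (h0 : a ≠ b) (h1 : dist b c = dist a b) (h2 : dist c a = dist a b) :
    ∃ m r σ : ℂ, r ≠ 0 ∧ σ ^ 3 = 1 ∧ σ ≠ 1 ∧ a = m + r * 1 ∧ b = m + r * σ ∧ c = m + r * σ ^ 2 := by
  have hp : b - a ≠ 0 := sub_ne_zero.2 h0.symm
  obtain ⟨ρ, hρ⟩ : ∃ ρ, c - a = (b - a) * ρ := ⟨(c - a) / (b - a), by field_simp⟩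
  have n0 := norm_pos_iff.2 hp
  have n1 : ‖ρ‖ = 1 := by
    rw [dist_eq_norm, dist_comm, dist_eq_norm, hρ, norm_mul] at h2
    exact mul_left_cancel₀ n0.ne' (by rw [h2, mul_one])
  have n2 : ‖1 - ρ‖ = 1 := by
    rw [dist_eq_norm, dist_comm, dist_eq_norm,
      show b - c = (b - a) * (1 - ρ) by linear_combination -hρ, norm_mul] at h1
    exact mul_left_cancel₀ n0.ne' (by rw [h1, mul_one])
  have s1 := Complex.sq_norm ρ
  have s2 := Complex.sq_norm (1 - ρ)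
  rw [n1, normSq_apply] at s1
  rw [n2, normSq_apply] at s2
  simp only [sub_re, sub_im, one_re, one_im] at s2
  have r1 : ρ.re = 1 / 2 := by linarith
  have q : ρ ^ 2 - ρ + 1 = 0 := by
    rw [r1] at s1
    apply Complex.ext <;> simp [pow_two, r1] <;> linarith
  refine ⟨(a + b + c) / 3, -((b - a) * (1 + ρ) / 3), ρ - 1, ?_, by linear_combination (ρ - 2) * q,
    fun e => ?_, by linear_combination -hρ / 3, ?_, ?_⟩
  · refine neg_ne_zero.2 (div_ne_zero (mul_ne_zero hp fun e => ?_) (by norm_num))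
    have := congrArg re e
    simp [r1] at this
    norm_num at this
  · have := congrArg re e
    simp [r1] at this
    norm_num at this
  · linear_combination -hρ / 3 + (b - a) / 3 * q
  · linear_combination 2 / 3 * hρ + (b - a) * ρ / 3 * q

theorem reduce {v : Fin 3 → ℂ} (h0 : v 0 ≠ v 1) (h1 : dist (v 1) (v 2) = dist (v 0) (v 1))
    (h2 : dist (v 2) (v 0) = dist (v 0) (v 1)) (hne : S.Nonempty) (hc : IsCompact S)
    (hS : S = ⋃ i, (fun x => (x + v i) / 2) '' S) :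
    ∃ (T : Set ℂ) (e : T ≃ₜ S), IsG T ∧
      ∀ x a b : T, dist (e x) (e a) / dist (e x) (e b) = dist x a / dist x b := by
  obtain ⟨m, r, σ, hr, hσ, k0, k1, k2, k3⟩ := equi h0 h1 h2
  have inv : ∀ x : ℂ, m + r * ((x - m) / r) = x := fun x => by field_simp; ring
  have inv' : ∀ x : ℂ, (m + r * x - m) / r = x := fun x => by field_simp; ring
  refine ⟨{y | m + r * y ∈ S}, ⟨⟨fun y => ⟨m + r * y, y.2⟩,
    fun x => ⟨(x - m) / r, by simp [inv]⟩, fun y => Subtype.ext (inv' _),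
    fun x => Subtype.ext (inv _)⟩, by fun_prop, by fun_prop⟩, ⟨?_, ?_, ?_⟩, fun x a b => ?_⟩
  · obtain ⟨x, hx⟩ := hne
    exact ⟨(x - m) / r, by simpa [inv]⟩
  · convert hc.image (f := fun x => (x - m) / r) (by fun_prop) using 1
    ext y
    exact ⟨fun hy => ⟨_, hy, inv' y⟩, by rintro ⟨x, hx, rfl⟩; simpa [inv]⟩
  · ext y
    simp only [mem_iUnion, mem_image, mem_ofPred_eq]
    constructor
    · intro hy
      rw [hS] at hy
      obtain ⟨i, x, hx, e⟩ := mem_iUnion.1 hy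
      obtain ⟨u, hu, k⟩ : ∃ u : ℂ, u ^ 3 = 1 ∧ v i = m + r * u := by
        fin_cases i
        exacts [⟨1, one_pow 3, k1⟩, ⟨σ, hσ, k2⟩, ⟨_, u_sq hσ, k3⟩]
      refine ⟨u, hu, 2 * y - u, ?_, by ring⟩
      convert hx using 1
      linear_combination k - 2 * e
    · rintro ⟨u, hu, x, hx, rfl⟩
      obtain ⟨i, k⟩ : ∃ i, v i = m + r * u := by
        rcases u_cases hσ k0 hu with rfl | rfl | rfl
        exacts [⟨0, k1⟩, ⟨1, k2⟩, ⟨2, k3⟩]
      rw [hS]
      exact mem_iUnion.2 ⟨i, _, hx, by linear_combination k / 2⟩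
  · have : ∀ x a : ℂ, dist (m + r * x) (m + r * a) = ‖r‖ * dist x a := fun x a => by
      rw [dist_eq_norm, dist_eq_norm, ← norm_mul]; congr 1; ring
    show dist (m + r * x) (m + r * a) / dist (m + r * x) (m + r * b) = _
    rw [this, this, mul_div_mul_left _ _ (norm_ne_zero_iff.2 hr)]
    rfl

theorem exists_gauge {C a : ℝ} (hC : 0 < C) (ha : 0 < a) : ∃ η : ℝ≥0 ≃ₜ ℝ≥0,
    ∀ t : ℝ≥0, (η t : ℝ) = C * max ((t : ℝ) ^ a) ((t : ℝ) ^ (2 * a)) := by
  lift C to ℝ≥0 using hC.le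
  have hC' : 0 < C := hC
  have h2 : 0 < 2 * a := by positivity
  have mono : StrictMono fun t : ℝ≥0 => C * max (t ^ a) (t ^ (2 * a)) := fun s t h =>
    mul_lt_mul_of_pos_left (max_lt_max (NNReal.rpow_lt_rpow h ha) (NNReal.rpow_lt_rpow h h2)) hC'
  have surj : Function.Surjective fun t : ℝ≥0 => C * max (t ^ a) (t ^ (2 * a)) := fun s => by
    rcases le_total (s / C) 1 with h | h
    · refine ⟨(s / C) ^ a⁻¹, ?_⟩
      have e := NNReal.rpow_inv_rpow ha.ne' (s / C)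
      have : ((s / C) ^ a⁻¹) ^ (2 * a) ≤ ((s / C) ^ a⁻¹) ^ a := by
        rw [two_mul, NNReal.rpow_add' (by linarith), e]
        exact mul_le_of_le_one_right' h
      simp only
      rw [max_eq_left this, e, mul_div_cancel₀ _ hC'.ne']
    · refine ⟨(s / C) ^ (2 * a)⁻¹, ?_⟩
      have e := NNReal.rpow_inv_rpow h2.ne' (s / C)
      have : ((s / C) ^ (2 * a)⁻¹) ^ a ≤ ((s / C) ^ (2 * a)⁻¹) ^ (2 * a) :=
        NNReal.rpow_le_rpow_of_exponent_le (NNReal.one_le_rpow h (by positivity)) (by linarith)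
      simp only
      rw [max_eq_right this, e, mul_div_cancel₀ _ hC'.ne']
  exact ⟨(mono.orderIsoOfSurjective _ surj).toHomeomorph, fun t => by simp⟩

end Pool.Agent.Lib.MP_6f5a85_an
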