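import Pool.Agent.Lib.MP_6f5a85_an.Model

/-! Connectivity of the gasket after removing points. -/

namespace Pool.Agent.Lib.MP_6f5a85_an

open Complex Set

theorem sub_closure {L K : Set ℂ} (hL : ∀ x ∈ L, ‖x‖ ≤ 1)
    (hd : ∀ x ∈ L, ∃ v, v ^ 3 = 1 ∧ 2 * x - v ∈ L) (hK : ∃ t ∈ K, ‖t‖ ≤ 1)
    (hu : ∀ t ∈ K, ∀ v : ℂ, v ^ 3 = 1 → (t + v) / 2 ∈ K) : L ⊆ closure K := by
  have key : ∀ k : ℕ, ∀ x ∈ L, ∃ t ∈ K, ‖x - t‖ ≤ 2 * (1 / 2) ^ k := by
    intro k
    induction k with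
    | zero =>
      intro x hx
      obtain ⟨t, ht, h⟩ := hK
      exact ⟨t, ht, by linarith [norm_sub_le x t, hL x hx]⟩
    | succ k ih =>
      intro x hx
      obtain ⟨v, hv, h1⟩ := hd x hx
      obtain ⟨t, ht, h2⟩ := ih _ h1
      refine ⟨_, hu t ht v hv, ?_⟩
      rw [show x - (t + v) / 2 = (2 * x - v - t) / 2 by ring, norm_div, Complex.norm_two, pow_succ]
      linarith
  intro x hx
  rw [Metric.mem_closure_iff]
  intro ε hε
  obtain ⟨k, hk⟩ := exists_pow_lt_of_lt_one (half_pos hε) (by norm_num : (1 / 2 : ℝ) < 1)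
  obtain ⟨t, ht, h1⟩ := key k x hx
  exact ⟨t, ht, by rw [dist_eq_norm]; linarith⟩

/-- The segment from `x` to `y` lies in `S`. -/
def Sg (S : Set ℂ) (x y : ℂ) : Prop := ∀ t : ℝ, 0 ≤ t → t ≤ 1 → x + t * (y - x) ∈ S

/-- `x` and `y` are joined in `S` outside `P`. -/
def Con (S P : Set ℂ) (x y : ℂ) : Prop :=
  ∃ C, IsPreconnected C ∧ x ∈ C ∧ y ∈ C ∧ ∀ z ∈ C, z ∈ S ∧ z ∉ P

variable {S P : Set ℂ} {x y z a b c : ℂ}

theorem Con.symm (h : Con S P x y) : Con S P y x :=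
  let ⟨C, h1, h2, h3, h4⟩ := h
  ⟨C, h1, h3, h2, h4⟩

theorem Con.trans (h : Con S P x y) (h' : Con S P y z) : Con S P x z :=
  let ⟨C, h1, h2, h3, h4⟩ := h
  let ⟨D, k1, k2, k3, k4⟩ := h'
  ⟨C ∪ D, h1.union y h3 k2 k1, Or.inl h2, Or.inr k3, fun t ht => ht.elim (h4 t) (k4 t)⟩

theorem Con.not_mem (h : Con S P x y) : y ∉ P :=
  let ⟨_, _, _, h3, h4⟩ := h
  (h4 y h3).2

theorem Sg.con (h : Sg S x y) (h' : ∀ t : ℝ, 0 ≤ t → t ≤ 1 → x + t * (y - x) ∉ P) :
    Con S P x y := by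
  refine ⟨(fun t : ℝ => x + t * (y - x)) '' Icc 0 1,
    isPreconnected_Icc.image _ (by fun_prop), ⟨0, by simp, by simp⟩, ⟨1, by simp, by simp⟩, ?_⟩
  rintro _ ⟨t, ht, rfl⟩
  exact ⟨h t ht.1 ht.2, h' t ht.1 ht.2⟩

theorem Sg.con_or (h : Sg S x y) (P : Set ℂ) :
    Con S P x y ∨ ∃ t : ℝ, 0 ≤ t ∧ t ≤ 1 ∧ x + t * (y - x) ∈ P := by
  by_contra hn
  exact hn (Or.inl (h.con fun t h1 h2 h3 => hn (Or.inr ⟨t, h1, h2, h3⟩)))

theorem Sg.up (hS : IsG S) (h : Sg S x y) (ha : a ^ 3 = 1) {x' y' : ℂ} (e1 : x' = (x + a) / 2)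
    (e2 : y' = (y + a) / 2) : Sg S x' y' := fun t h1 h2 => by
  convert hS.up (h t h1 h2) ha using 1
  rw [e1, e2]; ring

theorem IsG.sg (hS : IsG S) (ha : a ^ 3 = 1) (hb : b ^ 3 = 1) : Sg S a b := by
  have := sub_closure (L := {z | ∃ t : ℝ, 0 ≤ t ∧ t ≤ 1 ∧ z = a + t * (b - a)}) (K := S)
    (by
      rintro _ ⟨t, h1, h2, rfl⟩
      have := norm_add_le (((1 - t : ℝ) : ℂ) * a) (t * b)
      rw [norm_mul, norm_mul, u_norm ha, u_norm hb, norm_real, norm_real, Real.norm_of_nonneg h1,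
        Real.norm_of_nonneg (sub_nonneg.2 h2)] at this
      rw [show a + t * (b - a) = ((1 - t : ℝ) : ℂ) * a + t * b by push_cast; ring]
      linarith)
    (by
      rintro _ ⟨t, h1, h2, rfl⟩
      rcases le_total t (1 / 2) with h | h
      · exact ⟨a, ha, 2 * t, by linarith, by linarith, by push_cast; ring⟩
      · exact ⟨b, hb, 2 * t - 1, by linarith, by linarith, by push_cast; ring⟩)
    ⟨a, hS.vert ha, (u_norm ha).le⟩ fun t ht v hv => hS.up ht hv
  rw [hS.cpt.isClosed.closure_eq] at this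
  exact fun t h1 h2 => this ⟨t, h1, h2, rfl⟩

theorem Con.up (hS : IsG S) (ha : a ^ 3 = 1) (h : Con S {t | (t + a) / 2 ∈ P} x y) :
    Con S P ((x + a) / 2) ((y + a) / 2) := by
  obtain ⟨C, h1, h2, h3, h4⟩ := h
  refine ⟨(fun t => (t + a) / 2) '' C, h1.image _ (by fun_prop), ⟨x, h2, rfl⟩, ⟨y, h3, rfl⟩, ?_⟩
  rintro _ ⟨t, ht, rfl⟩
  exact ⟨hS.up (h4 t ht).1 ha, (h4 t ht).2⟩

theorem IsG.conn (hS : IsG S) (hx : x ∈ S) : Con S ∅ x 1 := by
  have h1 := hS.vert (one_pow 3)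
  have hv : ∀ v : ℂ, v ^ 3 = 1 → Con S ∅ v 1 := fun v hv =>
    (hS.sg hv (one_pow 3)).con fun _ _ _ => notMem_empty _
  have hK : ∀ t, t ∈ connectedComponentIn S 1 ↔ Con S ∅ t 1 := fun t =>
    ⟨fun h => ⟨_, isPreconnected_connectedComponentIn, h, mem_connectedComponentIn h1,
      fun z hz => ⟨connectedComponentIn_subset S 1 hz, notMem_empty _⟩⟩,
      fun ⟨C, k1, k2, k3, k4⟩ => k1.subset_connectedComponentIn k3 (fun z hz => (k4 z hz).1) k2⟩
  have := sub_closure (L := S) (K := connectedComponentIn S 1) (fun _ => hS.norm_le)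
    (fun _ => hS.down) ⟨1, mem_connectedComponentIn h1, norm_one.le⟩ fun t ht v h => by
      have a := Con.up (P := ∅) hS h (((hK t).1 ht).trans (hv v h).symm)
      rw [add_self_div_two] at a
      exact (hK _).2 (a.trans (hv v h))
  exact ⟨_, isPreconnected_connectedComponentIn.closure, this hx,
    subset_closure (mem_connectedComponentIn h1), fun z hz =>
      ⟨closure_minimal (connectedComponentIn_subset S 1) hS.cpt.isClosed hz, notMem_empty _⟩⟩

theorem u_rel (ha : a ^ 3 = 1) (h : a ≠ b) : a ^ 2 * b ≠ 1 := fun e =>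
  h (by linear_combination b * ha - a * e)

theorem lin (ha : a ^ 3 = 1) (hb : b ^ 3 = 1) (hc : c ^ 3 = 1) (h1 : a ≠ b) (h2 : a ≠ c)
    (h3 : b ≠ c) (β γ : ℝ) (h : β * (b - a) + γ * (c - a) = 0) : β = 0 ∧ γ = 0 := by
  have r1 := (u_re (u_mul (u_sq ha) hb) (u_rel ha h1)).1
  have r2 := (u_re (u_mul (u_sq ha) hc) (u_rel ha h2)).1
  have e : (β : ℂ) * (a ^ 2 * b - 1) + γ * (a ^ 2 * c - 1) = 0 := by
    linear_combination a ^ 2 * h + (β + γ) * ha
  have e1 := congrArg re e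
  rw [add_re, re_ofReal_mul, re_ofReal_mul, sub_re, sub_re, r1, r2, one_re, zero_re] at e1
  have e2 : γ = -β := by linarith
  have e3 : (β : ℂ) * (b - c) = 0 := by rw [e2] at h; push_cast at h; linear_combination h
  have e4 : β = 0 := ofReal_eq_zero.1 ((mul_eq_zero.1 e3).resolve_right (sub_ne_zero.2 h3))
  exact ⟨e4, by linarith⟩

theorem u_third (ha : a ^ 3 = 1) (hb : b ^ 3 = 1) (h : a ≠ b) :
    (-a - b) ^ 3 = 1 ∧ a ≠ -a - b ∧ b ≠ -a - b := by
  have q : a ^ 2 + a * b + b ^ 2 = 0 := by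
    have : (a - b) * (a ^ 2 + a * b + b ^ 2) = 0 := by linear_combination ha - hb
    exact (mul_eq_zero.1 this).resolve_left (sub_ne_zero.2 h)
  refine ⟨by linear_combination 1 / 2 * ha + 1 / 2 * hb - 3 / 2 * (a + b) * q, fun e => ?_,
    fun e => ?_⟩
  · have : b = -2 * a := by linear_combination e
    rw [this] at hb
    have : (9 : ℂ) = 0 := by linear_combination -hb - 8 * ha
    norm_num at this
  · have : a = -2 * b := by linear_combination e
    rw [this] at ha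
    have : (9 : ℂ) = 0 := by linear_combination -ha - 8 * hb
    norm_num at this

theorem u_sum (ha : a ^ 3 = 1) (hb : b ^ 3 = 1) (hc : c ^ 3 = 1) (h1 : a ≠ b) (h2 : a ≠ c)
    (h3 : b ≠ c) : a + b + c = 0 := by
  have q : (c - a) * ((a - b) * ((b - c) * (a + b + c))) = 0 := by
    linear_combination (c - b) * ha + (a - c) * hb + (b - a) * hc
  exact (mul_eq_zero.1 ((mul_eq_zero.1 ((mul_eq_zero.1 q).resolve_left
    (sub_ne_zero.2 h2.symm))).resolve_left (sub_ne_zero.2 h1))).resolve_left (sub_ne_zero.2 h3)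

theorem u_three {d : ℂ} (ha : a ^ 3 = 1) (hb : b ^ 3 = 1) (hc : c ^ 3 = 1) (h1 : a ≠ b)
    (h2 : a ≠ c) (h3 : b ≠ c) (hd : d ^ 3 = 1) : d = a ∨ d = b ∨ d = c := by
  by_contra hn
  push Not at hn
  have e1 := u_sum ha hb hd h1 hn.1.symm hn.2.1.symm
  exact hn.2.2 (by linear_combination e1 - u_sum ha hb hc h1 h2 h3)

theorem mid_con (hS : IsG S) (ha : a ^ 3 = 1) (hb : b ^ 3 = 1) (h : a ≠ b) {p q : ℂ}
    (hP : ∀ z ∈ P, z = p ∨ z = q) (hm : (a + b) / 2 ∉ P) :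
    ∃ v, v ^ 3 = 1 ∧ Con S P ((a + b) / 2) v := by
  obtain ⟨c, hc, h2, h3⟩ : ∃ c, c ^ 3 = 1 ∧ a ≠ c ∧ b ≠ c := ⟨_, u_third ha hb h⟩
  have L := lin ha hb hc h h2 h3
  by_contra hn
  push Not at hn
  obtain ⟨t1, a1, -, c1⟩ := (((hS.sg hb ha).up hS ha (x' := (a + b) / 2) (y' := a) (by ring)
    (by ring)).con_or P).resolve_left (hn a ha)
  obtain ⟨t2, a2, -, c2⟩ := (((hS.sg ha hb).up hS hb (x' := (a + b) / 2) (y' := b) (by ring)
    (by ring)).con_or P).resolve_left (hn b hb)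
  obtain ⟨β, γ, a3, c3⟩ : ∃ β γ : ℝ, 0 < γ ∧ a + β * (b - a) + γ * (c - a) ∈ P := by
    rcases ((hS.sg hb hc).up hS ha (x' := (a + b) / 2) (y' := (a + c) / 2) (by ring)
      (by ring)).con_or P with k | ⟨t, k1, -, k3⟩
    · obtain ⟨t, k1, -, k3⟩ := (((hS.sg ha hc).up hS hc (x' := (a + c) / 2) (y' := c) (by ring)
        (by ring)).con_or P).resolve_left fun k' => hn c hc (k.trans k')
      exact ⟨0, (1 + t) / 2, by linarith, by convert k3 using 1; push_cast; ring⟩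
    · refine ⟨(1 - t) / 2, t / 2, half_pos (k1.lt_of_ne fun e => hm ?_),
        by convert k3 using 1; push_cast; ring⟩
      simpa [← e] using k3
  have n1 : (a + b) / 2 + t1 * (a - (a + b) / 2) ≠ (a + b) / 2 + t2 * (b - (a + b) / 2) :=
    fun e => by
      have := (L (t1 + t2) 0 (by push_cast; linear_combination -2 * e)).1
      exact hm (by simpa [show t1 = 0 by linarith] using c1)
  have n2 : (a + b) / 2 + t1 * (a - (a + b) / 2) ≠ a + β * (b - a) + γ * (c - a) := fun e =>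
    a3.ne' (L (β - (1 - t1) / 2) γ (by push_cast; linear_combination -e)).2
  have n3 : (a + b) / 2 + t2 * (b - (a + b) / 2) ≠ a + β * (b - a) + γ * (c - a) := fun e =>
    a3.ne' (L (β - (1 + t2) / 2) γ (by push_cast; linear_combination -e)).2
  rcases hP _ c1 with e1 | e1 <;> rcases hP _ c2 with e2 | e2 <;> rcases hP _ c3 with e3 | e3 <;>
    first
    | exact n1 (e1.trans e2.symm)
    | exact n2 (e1.trans e3.symm)
    | exact n3 (e2.trans e3.symm)

/-- After removing two points, every point is still joined to a vertex. -/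
theorem IsG.two (hS : IsG S) {p q : ℂ} (hx : x ∈ S) (hp : x ≠ p) (hq : x ≠ q) :
    ∃ v, v ^ 3 = 1 ∧ Con S {p, q} x v := by
  have key : ∀ k : ℕ, ∀ x p q : ℂ, x ∈ S → 2 * (1 / 2) ^ k < ‖x - p‖ → 2 * (1 / 2) ^ k < ‖x - q‖ →
      ∃ v, v ^ 3 = 1 ∧ Con S {p, q} x v := by
    intro k
    induction k with
    | zero =>
      intro x p q hx hp hq
      obtain ⟨C, h1, h2, h3, h4⟩ := hS.conn hx
      refine ⟨1, one_pow 3, C, h1, h2, h3, fun z hz => ⟨(h4 z hz).1, ?_⟩⟩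
      have := norm_sub_le x z
      rintro (rfl | rfl) <;> linarith [hS.norm_le hx, hS.norm_le (h4 _ hz).1]
    | succ k ih =>
      intro x p q hx hp hq
      obtain ⟨u, hu, h1⟩ := hS.down hx
      have e : ∀ p : ℂ, ‖2 * x - u - (2 * p - u)‖ = 2 * ‖x - p‖ := fun p => by
        rw [show 2 * x - u - (2 * p - u) = 2 * (x - p) by ring, norm_mul, Complex.norm_two]
      rw [pow_succ] at hp hq
      obtain ⟨v, hv, h2⟩ := ih _ (2 * p - u) (2 * q - u) h1 (by rw [e]; linarith)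
        (by rw [e]; linarith)
      have h3 : Con S {p, q} x ((v + u) / 2) := by
        have := Con.up (P := {p, q}) hS hu (x := 2 * x - u) (y := v) (by
          convert h2 using 1
          ext t
          simp only [mem_ofPred_eq, mem_insert_iff, mem_singleton_iff]
          exact or_congr ⟨fun e => by linear_combination 2 * e, fun e => by linear_combination e / 2⟩
            ⟨fun e => by linear_combination 2 * e, fun e => by linear_combination e / 2⟩)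
        rwa [show (2 * x - u + u) / 2 = x by ring] at this
      by_cases h : v = u
      · rw [h, add_self_div_two] at h3
        exact ⟨u, hu, h3⟩
      · obtain ⟨t, ht, h4⟩ := mid_con hS hv hu h (fun z hz => hz) h3.not_mem
        exact ⟨t, ht, h3.trans h4⟩
  obtain ⟨k, hk⟩ := exists_pow_lt_of_lt_one (half_pos (lt_min (norm_pos_iff.2 (sub_ne_zero.2 hp))
    (norm_pos_iff.2 (sub_ne_zero.2 hq)))) (by norm_num : (1 / 2 : ℝ) < 1)
  exact key k x p q hx (by linarith [min_le_left ‖x - p‖ ‖x - q‖])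
    (by linarith [min_le_right ‖x - p‖ ‖x - q‖])

end Pool.Agent.Lib.MP_6f5a85_an
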