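import Pool.Agent.Lib.MP_6f5a85_an.Main

/-! The Julia set is the set of coded points. -/

namespace Pool.Agent.Lib.MP_6f5a85_an

open Complex OnePoint Filter Topology

theorem F_inf : F ∞ = ∞ := rfl

theorem F_zero : F ((0 : ℂ) : OnePoint ℂ) = ∞ := if_pos rfl

theorem F_coe {z : ℂ} (h : z ≠ 0) : F (z : OnePoint ℂ) = ((f z : ℂ) : OnePoint ℂ) := if_neg h

/-- The neighbourhoods of infinity. -/
def Dsc (R : ℝ) : Set (OnePoint ℂ) := {p | ∀ z : ℂ, p = z → R < ‖z‖}

theorem inf_mem (R : ℝ) : ∞ ∈ Dsc R := fun z h => absurd h (infty_ne_coe z)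

theorem coe_mem {R : ℝ} {z : ℂ} : (z : OnePoint ℂ) ∈ Dsc R ↔ R < ‖z‖ :=
  ⟨fun h => h z rfl, fun h _ e => coe_eq_coe.1 e ▸ h⟩

theorem Dsc_mono {R R' : ℝ} (h : R ≤ R') : Dsc R' ⊆ Dsc R := fun _ hp z e => h.trans_lt (hp z e)

theorem Dsc_open (R : ℝ) : IsOpen (Dsc R) := by
  have e : ((↑) ⁻¹' Dsc R : Set ℂ)ᶜ = Metric.closedBall 0 R := by
    ext z; simp [coe_mem]
  rw [isOpen_iff_of_mem (inf_mem R), e]
  exact ⟨Metric.isClosed_closedBall, isCompact_closedBall 0 R⟩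

theorem tend_inf {α : Type} {l : Filter α} {g : α → OnePoint ℂ}
    (h : ∀ R, ∀ᶠ x in l, g x ∈ Dsc R) : Tendsto g l (𝓝 ∞) := by
  refine hasBasis_nhds_infty.tendsto_right_iff.2 fun s hs => ?_
  obtain ⟨R, hR⟩ := hs.2.isBounded.exists_norm_le
  refine (h R).mono fun x hx => ?_
  generalize g x = p at hx
  induction p using OnePoint.rec with
  | infty => exact Or.inr rfl
  | coe z => exact Or.inl ⟨z, fun hz => absurd (coe_mem.1 hx) (not_lt.2 (hR z hz)), rfl⟩

theorem F_Dsc {δ : ℝ} (hδ : 0 ≤ δ) {p : OnePoint ℂ} (h : p ∈ Dsc (4 / 3 + δ)) :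
    F p ∈ Dsc (4 / 3 + 2 * δ) := by
  induction p using OnePoint.rec with
  | infty => exact inf_mem _
  | coe z =>
    have h1 := coe_mem.1 h
    have h0 : 0 < ‖z‖ := by linarith
    rw [F_coe (norm_pos_iff.1 h0), coe_mem, f, norm_div, lt_div_iff₀ h0]
    have h2 := norm_sub_norm_le (z ^ 3) (16 / 27)
    rw [norm_pow, norm_L] at h2
    nlinarith [mul_nonneg (show 0 ≤ ‖z‖ - 4 / 3 by linarith) (sq_nonneg (‖z‖ - 1 / 3)),
      mul_pos h0 (sub_pos.2 h1)]

theorem F_cont : Continuous F := by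
  refine continuous_iff_continuousAt.2 fun p => ?_
  induction p using OnePoint.rec with
  | infty =>
    refine tend_inf fun R => ?_
    refine mem_of_superset ((Dsc_open (4 / 3 + |R|)).mem_nhds (inf_mem _)) fun p hp => ?_
    exact Dsc_mono (by linarith [le_abs_self R, abs_nonneg R]) (F_Dsc (abs_nonneg R) hp)
  | coe z =>
    rw [continuousAt_coe]
    by_cases h : z = 0
    · subst h
      rw [ContinuousAt, Function.comp_apply, F_zero]
      refine tend_inf fun R => ?_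
      have : ∀ᶠ y : ℂ in 𝓝 0, R * ‖y‖ < ‖y ^ 3 - 16 / 27‖ :=
        ContinuousAt.eventually_lt (by fun_prop) (by fun_prop) (by simp)
      refine this.mono fun y hy => ?_
      by_cases e : y = 0
      · rw [e, Function.comp_apply, F_zero]; exact inf_mem R
      · rw [Function.comp_apply, F_coe e, coe_mem, f, norm_div, lt_div_iff₀ (norm_pos_iff.2 e)]
        exact hy
    · have h1 : ContinuousAt (fun y : ℂ => ((f y : ℂ) : OnePoint ℂ)) z :=
        continuous_coe.continuousAt.comp (by unfold f; fun_prop (disch := exact h))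
      exact h1.congr ((eventually_ne_nhds h).mono fun y hy => (F_coe hy).symm)

theorem chordInf_lt {z : ℂ} {R : ℝ} (hR : 0 < R) (h : R < ‖z‖) : chordInf z < 2 / R := by
  refine div_lt_div_of_pos_left (by norm_num) hR (h.trans_le ?_)
  exact Real.le_sqrt_of_sq_le (by linarith)

theorem chord_Dsc {R : ℝ} (hR : 0 < R) {p q : OnePoint ℂ} (hp : p ∈ Dsc R) (hq : q ∈ Dsc R) :
    chord p q < 4 / R := by
  have h0 : 2 / R < 4 / R := div_lt_div_of_pos_right (by norm_num) hR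
  induction p using OnePoint.rec with
  | infty =>
    induction q using OnePoint.rec with
    | infty => exact div_pos (by norm_num) hR
    | coe w => exact (chordInf_lt hR (coe_mem.1 hq)).trans h0
  | coe z =>
    induction q using OnePoint.rec with
    | infty => exact (chordInf_lt hR (coe_mem.1 hp)).trans h0
    | coe w =>
      have a := coe_mem.1 hp
      have b := coe_mem.1 hq
      have c : ‖z‖ ≤ √(1 + ‖z‖ ^ 2) := Real.le_sqrt_of_sq_le (by linarith)
      have d : ‖w‖ ≤ √(1 + ‖w‖ ^ 2) := Real.le_sqrt_of_sq_le (by linarith)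
      show 2 * ‖z - w‖ / (√(1 + ‖z‖ ^ 2) * √(1 + ‖w‖ ^ 2)) < _
      generalize √(1 + ‖z‖ ^ 2) = A at c
      generalize √(1 + ‖w‖ ^ 2) = B at d
      rw [div_lt_div_iff₀ (mul_pos (by linarith) (by linarith)) hR]
      nlinarith [mul_le_mul_of_nonneg_right (norm_sub_le z w) hR.le,
        mul_pos (show 0 < A by linarith) (show 0 < B - R by linarith),
        mul_pos (show 0 < B by linarith) (show 0 < A - R by linarith),
        mul_le_mul_of_nonneg_right c hR.le, mul_le_mul_of_nonneg_right d hR.le]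

theorem chord_near (p : OnePoint ℂ) {ε : ℝ} (hε : 0 < ε) : ∀ᶠ r in 𝓝 p, chord p r < ε := by
  induction p using OnePoint.rec with
  | infty =>
    refine mem_of_superset ((Dsc_open (4 / ε)).mem_nhds (inf_mem _)) fun r hr => ?_
    have := chord_Dsc (by positivity) (inf_mem _) hr
    rwa [div_div_cancel₀ (by norm_num)] at this
  | coe z =>
    rw [nhds_coe_eq, eventually_map]
    have h : ContinuousAt (fun w : ℂ => 2 * ‖z - w‖ / (√(1 + ‖z‖ ^ 2) * √(1 + ‖w‖ ^ 2))) z := by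
      fun_prop (disch := positivity)
    exact h.eventually_lt continuousAt_const (by simpa using hε)

theorem iter_Dsc {δ : ℝ} (hδ : 0 ≤ δ) {p : OnePoint ℂ} (h : p ∈ Dsc (4 / 3 + δ)) (n : ℕ) :
    F^[n] p ∈ Dsc (4 / 3 + 2 ^ n * δ) := by
  induction n with
  | zero => simpa using h
  | succ n ih =>
    rw [Function.iterate_succ_apply', pow_succ', mul_assoc]
    exact F_Dsc (by positivity) ih

theorem esc_fatou {p : OnePoint ℂ} (h : ∃ n, F^[n] p ∈ Dsc (4 / 3)) : p ∈ fatou := by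
  refine ⟨⋃ n, F^[n] ⁻¹' Dsc (4 / 3),
    isOpen_iUnion fun n => (Dsc_open _).preimage (F_cont.iterate n), Set.mem_iUnion.2 h,
    fun q hq ε hε => ?_⟩
  obtain ⟨n, hn⟩ := Set.mem_iUnion.1 hq
  obtain ⟨δ, hδ, h1⟩ : ∃ δ > 0, F^[n] q ∈ Dsc (4 / 3 + δ) := by
    have hn' : F^[n] q ∈ Dsc (4 / 3) := hn
    generalize F^[n] q = s at hn'
    induction s using OnePoint.rec with
    | infty => exact ⟨1, one_pos, inf_mem _⟩
    | coe z =>
      have := coe_mem.1 hn'
      exact ⟨(‖z‖ - 4 / 3) / 2, by linarith, coe_mem.2 (by linarith)⟩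
  obtain ⟨m, hm⟩ := pow_unbounded_of_one_lt (4 / ε / δ) (one_lt_two (α := ℝ))
  rw [div_lt_iff₀ hδ] at hm
  have e0 : 0 < 4 / ε := by positivity
  have h2 : F^[m + n] q ∈ Dsc (4 / 3 + 4 / ε) := by
    rw [Function.iterate_add_apply]
    exact Dsc_mono (by linarith) (iter_Dsc hδ.le h1 m)
  have h3 : ∀ r, F^[m + n] r ∈ Dsc (4 / 3 + 4 / ε) → ∀ j, F^[j + (m + n)] r ∈ Dsc (4 / ε) :=
    fun r hr j => by
      rw [Function.iterate_add_apply]
      refine Dsc_mono ?_ (iter_Dsc e0.le hr j)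
      nlinarith [one_le_pow₀ (n := j) (one_le_two (α := ℝ))]
  have h4 : ∀ᶠ r in 𝓝 q, F^[m + n] r ∈ Dsc (4 / 3 + 4 / ε) :=
    (F_cont.iterate _).continuousAt.eventually ((Dsc_open _).mem_nhds h2)
  have h5 : ∀ᶠ r in 𝓝 q, ∀ j ∈ Finset.range (m + n), chord (F^[j] q) (F^[j] r) < ε :=
    (eventually_all_finset _).2 fun j _ =>
      (F_cont.iterate j).continuousAt.eventually (chord_near _ hε)
  filter_upwards [h4, h5] with r a b j
  rcases lt_or_ge j (m + n) with hj | hj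
  · exact b j (Finset.mem_range.2 hj)
  · obtain ⟨i, rfl⟩ := Nat.exists_eq_add_of_le' hj
    have := chord_Dsc e0 (h3 q h2 i) (h3 r a i)
    rwa [div_div_cancel₀ (by norm_num)] at this

theorem iter_ch {w X : ℕ → ℂ} {k : ℕ} (hw : Wd w) (hX : Ch w X k) :
    ∃ u : ℂ, u ^ 3 = 1 ∧ F^[k] ((w 0 * X 0 : ℂ) : OnePoint ℂ) = ((u * X k : ℂ) : OnePoint ℂ) := by
  induction k with
  | zero => exact ⟨w 0, hw 0, rfl⟩
  | succ k ih =>
    obtain ⟨u, hu, h⟩ := ih (hX.mono k.le_succ)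
    obtain ⟨a, b⟩ := hX k k.lt_succ_self
    refine ⟨u ^ 2 * w (k + 1), u_mul (u_sq hu) (hw _), ?_⟩
    rw [Function.iterate_succ_apply', h, F_coe (mul_ne_zero (u_ne hu) a.ne), f_rot hu, b, mul_assoc]

theorem code_julia {w X : ℕ → ℂ} (hw : Wd w) (hX : Cd w X) : w 0 * X 0 ∈ julia := by
  rintro ⟨U, -, h1, h2⟩
  have h3 := h2 _ h1 1 one_pos
  rw [nhds_coe_eq, eventually_map, Metric.eventually_nhds_iff] at h3
  obtain ⟨ε, hε, h4⟩ := h3
  obtain ⟨k, hk⟩ := exists_pow_lt_of_lt_one (show 0 < ε / 10 ^ 19 by positivity)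
    (by norm_num : (2 / 3 : ℝ) < 1)
  obtain ⟨O, hO, h0⟩ := exists_ch k w 0 hw (by norm_num)
  have h5 := con hw hO (hX.ch k) (by rw [h0]; norm_num) (hX k).1.le
  have h6 := h4 (y := w 0 * O 0) (by rw [dist_eq_norm, dist_rot (hw 0)]; linarith) (k + 1)
  obtain ⟨u, hu, e1⟩ := iter_ch hw (hX.ch (k + 1))
  obtain ⟨v, -, e2⟩ := iter_ch hw hO
  rw [e1, Function.iterate_succ_apply', e2, h0, mul_zero, F_zero] at h6
  have h7 : 2 / √(1 + ‖u * X (k + 1)‖ ^ 2) < 1 := h6
  rw [div_lt_one (by positivity), Real.lt_sqrt (by norm_num), norm_rot hu] at h7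
  nlinarith [(hX (k + 1)).1.le, norm_nonneg (X (k + 1))]

theorem julia_code {z : ℂ} (h : z ∈ julia) : ∃ w X, Wd w ∧ Cd w X ∧ z = w 0 * X 0 := by
  have h1 : ∀ n, F^[n] (z : OnePoint ℂ) ∉ Dsc (4 / 3) := fun n hn => h (esc_fatou ⟨n, hn⟩)
  have h2 : ∀ n (y : ℂ), F^[n] (z : OnePoint ℂ) = y → y ≠ 0 := fun n y e h0 =>
    h1 (n + 1) (by rw [Function.iterate_succ_apply', e, h0, F_zero]; exact inf_mem _)
  have h3 : ∀ n, F^[n] (z : OnePoint ℂ) = ((f^[n] z : ℂ) : OnePoint ℂ) := fun n => by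
    induction n with
    | zero => rfl
    | succ n ih =>
      rw [Function.iterate_succ_apply', Function.iterate_succ_apply', ih, F_coe (h2 n _ ih)]
  have h4 : ∀ n, ‖f^[n] z‖ ≤ 4 / 3 := fun n => not_lt.1 fun e => h1 n (h3 n ▸ coe_mem.2 e)
  choose u X hu e hs using fun n => exists_sec (f^[n] z)
  have h5 : ∀ n, f (u n * X n) = u (n + 1) * X (n + 1) := fun n => by
    rw [← e, ← e, Function.iterate_succ_apply']
  refine ⟨fun n => Nat.casesOn n (u 0) fun n => u n * u (n + 1), X, fun n => ?_,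
    fun n => ⟨in0_rot (hu n) (e n ▸ h2 n _ (h3 n)) (by rw [h5, ← e]; exact h4 _) (hs n), ?_⟩, e 0⟩
  · cases n with
    | zero => exact hu 0
    | succ n => exact u_mul (hu n) (hu _)
  · show _ = u n * u (n + 1) * X (n + 1)
    have := h5 n
    rw [f_rot (hu n)] at this
    linear_combination u n * this - f (X n) * hu n

end Pool.Agent.Lib.MP_6f5a85_an
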