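import Pool.Agent.Lib.MP_6f5a85_an.Gasket

/-! Every homeomorphism of the gasket permutes the three cells. -/

namespace Pool.Agent.Lib.MP_6f5a85_an

open Complex Set

variable {S P : Set ℂ} {x y z a b c u v : ℂ}

theorem two_of_three {α : Type} {p q r x y z t : α} (hx : x = p ∨ x = q ∨ x = r)
    (hy : y = p ∨ y = q ∨ y = r) (hz : z = p ∨ z = q ∨ z = r) (ht : t = p ∨ t = q ∨ t = r)
    (h1 : x ≠ y) (h2 : x ≠ z) (h3 : y ≠ z) : t = x ∨ t = y ∨ t = z := by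
  grind

/-- A set of at most three points that separates the vertices. -/
structure Cut (S P : Set ℂ) : Prop where
  three : ∃ p q r, ∀ z ∈ P, z = p ∨ z = q ∨ z = r
  vert : ∀ a : ℂ, a ^ 3 = 1 → a ∉ P
  sep : ∀ a b : ℂ, a ^ 3 = 1 → b ^ 3 = 1 → Con S P a b → a = b

theorem Cut.edge (hS : IsG S) (h : Cut S P) (ha : a ^ 3 = 1) (hb : b ^ 3 = 1) (h1 : a ≠ b) :
    ∃ t : ℝ, 0 < t ∧ t < 1 ∧ a + t * (b - a) ∈ P := by
  obtain ⟨t, k1, k2, k3⟩ := ((hS.sg ha hb).con_or P).resolve_left fun k => h1 (h.sep a b ha hb k)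
  exact ⟨t, k1.lt_of_ne fun e => h.vert a ha (by simpa [← e] using k3),
    k2.lt_of_ne fun e => h.vert b hb (by simpa [e] using k3), k3⟩

theorem Cut.coord (hS : IsG S) (h : Cut S P) (ha : a ^ 3 = 1) (hb : b ^ 3 = 1) (hc : c ^ 3 = 1)
    (h1 : a ≠ b) (h2 : a ≠ c) (h3 : b ≠ c) : ∃ r s t : ℝ, 0 < r ∧ 0 < s ∧ 0 < t ∧ t < 1 ∧
      ∀ z, z ∈ P ↔ z = a + r * (b - a) ∨ z = a + s * (c - a) ∨ z = b + t * (c - b) := by
  obtain ⟨r, r0, r1, r2⟩ := h.edge hS ha hb h1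
  obtain ⟨s, s0, s1, s2⟩ := h.edge hS ha hc h2
  obtain ⟨t, t0, t1, t2⟩ := h.edge hS hb hc h3
  obtain ⟨p1, p2, p3, hp⟩ := h.three
  have L := lin ha hb hc h1 h2 h3
  refine ⟨r, s, t, r0, s0, t0, t1, fun z => ⟨fun hz => two_of_three (hp _ r2) (hp _ s2) (hp _ t2)
    (hp z hz) (fun e => ?_) (fun e => ?_) fun e => ?_, ?_⟩⟩
  · exact r0.ne' (L r (-s) (by push_cast; linear_combination e)).1
  · linarith [(L (r - 1 + t) (-t) (by push_cast; linear_combination e)).2]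
  · linarith [(L (t - 1) (s - t) (by push_cast; linear_combination e)).1]
  · rintro (rfl | rfl | rfl) <;> assumption

theorem Cut.half (hS : IsG S) (h : Cut S P) (ha : a ^ 3 = 1) (hb : b ^ 3 = 1) (h1 : a ≠ b)
    {r : ℝ} (hr : a + r * (b - a) ∈ P) : 1 / 2 ≤ r := by
  obtain ⟨c, hc, h2, h3⟩ : ∃ c, c ^ 3 = 1 ∧ a ≠ c ∧ b ≠ c := ⟨_, u_third ha hb h1⟩
  obtain ⟨r', s, t, r0, s0, t0, t1, hp⟩ := h.coord hS ha hb hc h1 h2 h3
  have L := lin ha hb hc h1 h2 h3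
  have K : ∀ (z : ℂ) (β γ : ℝ), z = a + β * (b - a) + γ * (c - a) → z ∈ P →
      (β = r' ∧ γ = 0) ∨ (β = 0 ∧ γ = s) ∨ (β = 1 - t ∧ γ = t) := fun z β γ e hz => by
    rcases (hp z).1 hz with k | k | k
    · obtain ⟨k1, k2⟩ := L (β - r') γ (by push_cast; linear_combination k - e)
      exact Or.inl ⟨by linarith, k2⟩
    · obtain ⟨k1, k2⟩ := L β (γ - s) (by push_cast; linear_combination k - e)
      exact Or.inr (Or.inl ⟨k1, by linarith⟩)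
    · obtain ⟨k1, k2⟩ := L (β - 1 + t) (γ - t) (by push_cast; linear_combination k - e)
      exact Or.inr (Or.inr ⟨by linarith, by linarith⟩)
  have e : r = r' := by
    rcases K _ r 0 (by simp) hr with k | k | k
    · exact k.1
    · linarith [k.2]
    · linarith [k.2]
  subst e
  by_contra hn
  rw [not_le] at hn
  have c1 : Con S P b ((a + b) / 2) := ((hS.sg hb ha).up hS hb (by ring) (by ring)).con
    fun x x0 x1 k => by
      rcases K _ (1 - x / 2) 0 (by push_cast; ring) k with k | k | k <;> linarith [k.1, k.2]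
  rcases lt_or_ge s (1 / 2) with hs | hs
  · have c2 : Con S P ((a + b) / 2) ((a + c) / 2) :=
      ((hS.sg hb hc).up hS ha (by ring) (by ring)).con fun x x0 x1 k => by
        rcases K _ (1 / 2 - x / 2) (x / 2) (by push_cast; ring) k with k | k | k <;>
          linarith [k.1, k.2]
    have c3 : Con S P ((a + c) / 2) c := ((hS.sg ha hc).up hS hc (by ring) (by ring)).con
      fun x x0 x1 k => by
        rcases K _ 0 (1 / 2 + x / 2) (by push_cast; ring) k with k | k | k <;> linarith [k.1, k.2]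
    exact h3 (h.sep b c hb hc ((c1.trans c2).trans c3))
  · have c2 : Con S P ((a + b) / 2) (((b + c) / 2 + a) / 2) :=
      (((hS.sg hb hc).up hS hb rfl rfl).up hS ha (by ring) (by ring)).con fun x x0 x1 k => by
        rcases K _ (1 / 2 - x / 4) (x / 4) (by push_cast; ring) k with k | k | k <;>
          linarith [k.1, k.2]
    have c3 : Con S P (((b + c) / 2 + a) / 2) (((a + c) / 2 + a) / 2) :=
      (((hS.sg hb ha).up hS hc rfl rfl).up hS ha rfl rfl).con fun x x0 x1 k => by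
        rcases K _ (1 / 4 - x / 4) (1 / 4) (by push_cast; ring) k with k | k | k <;>
          linarith [k.1, k.2]
    have c4 : Con S P (((a + c) / 2 + a) / 2) a :=
      (((hS.sg hc ha).up hS ha rfl rfl).up hS ha (by ring) (by ring)).con fun x x0 x1 k => by
        rcases K _ 0 (1 / 4 - x / 4) (by push_cast; ring) k with k | k | k <;> linarith [k.1, k.2]
    exact h1 (h.sep b a hb ha (((c1.trans c2).trans c3).trans c4)).symm

theorem Cut.mid (hS : IsG S) (h : Cut S P) (ha : a ^ 3 = 1) (hy : y ∈ S) (hz : (y + a) / 2 ∈ P) :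
    y ^ 3 = 1 ∧ y ≠ a := by
  have hb := u_mul ha om_cube
  have h1 : a ≠ a * om := fun e => om_ne (mul_left_cancel₀ (u_ne ha) (by linear_combination -e))
  generalize a * om = b at hb h1
  obtain ⟨c, hc, h2, h3⟩ : ∃ c, c ^ 3 = 1 ∧ a ≠ c ∧ b ≠ c := ⟨_, u_third ha hb h1⟩
  obtain ⟨r, s, t, -, -, -, -, hp⟩ := h.coord hS ha hb hc h1 h2 h3
  have K : ∀ a b : ℂ, a ^ 3 = 1 → b ^ 3 = 1 → a ≠ b → ∀ r : ℝ, a + r * (b - a) ∈ P →
      a + r * (b - a) = (a + b) / 2 := fun a b ha hb h1 r hr => by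
    have k1 := h.half hS ha hb h1 hr
    have k2 := h.half hS hb ha h1.symm (r := 1 - r) (by convert hr using 1; push_cast; ring)
    rw [show r = 1 / 2 by linarith]; push_cast; ring
  rcases (hp _).1 hz with k | k | k
  · have : y = b := by linear_combination 2 * k + 2 * K a b ha hb h1 r (k ▸ hz)
    exact this ▸ ⟨hb, h1.symm⟩
  · have : y = c := by linear_combination 2 * k + 2 * K a c ha hc h2 s (k ▸ hz)
    exact this ▸ ⟨hc, h2.symm⟩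
  · have e : y = -2 * a := by
      linear_combination 2 * k + 2 * K b c hb hc h3 t (k ▸ hz) + u_sum ha hb hc h1 h2 h3
    have := hS.norm_le hy
    rw [e, norm_mul, u_norm ha, norm_neg, Complex.norm_two] at this
    linarith

theorem IsG.cross (hS : IsG S) (hu : u ^ 3 = 1) (hv : v ^ 3 = 1) (h : u ≠ v)
    (hx : 2 * x - u ∈ S) (hy : 2 * y - v ∈ S) : ‖x - (u + v) / 2‖ ≤ 4 * ‖x - y‖ := by
  have := tri_cross ((hS.tri hx).rot (u_sq hu)) ((hS.tri hy).rot (u_sq hu))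
    (u_mul (u_sq hu) hv) (u_rel hu h)
  rw [show u ^ 2 * (2 * x - u) - u ^ 2 * v = u ^ 2 * (2 * (x - (u + v) / 2)) by ring,
    show u ^ 2 * (2 * (x - (u + v) / 2)) - (u ^ 2 * (2 * y - v) - 1) = u ^ 2 * (2 * (x - y)) by
      linear_combination -hu, norm_rot (u_sq hu), norm_rot (u_sq hu), norm_mul, norm_mul,
    Complex.norm_two] at this
  linarith

theorem IsG.meet (hS : IsG S) (hu : u ^ 3 = 1) (hv : v ^ 3 = 1) (h : u ≠ v)
    (hx : 2 * x - u ∈ S) (hy : 2 * x - v ∈ S) : x = (u + v) / 2 := by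
  have := hS.cross hu hv h hx hy
  rw [sub_self, norm_zero, mul_zero] at this
  exact sub_eq_zero.1 (norm_le_zero_iff.1 this)

theorem IsG.closed (hS : IsG S) (u : ℂ) : IsClosed {y | 2 * y - u ∈ S} :=
  hS.cpt.isClosed.preimage (f := fun y => 2 * y - u) (by fun_prop)

theorem IsG.cut (hS : IsG S) {D : Set ℂ} (hD : IsPreconnected D) (h1 : D ⊆ S) (hu : u ^ 3 = 1)
    (hx : x ∈ D) (hy : y ∈ D) (h2 : 2 * x - u ∈ S) (h3 : 2 * y - u ∉ S) :
    ∃ v, v ^ 3 = 1 ∧ u ≠ v ∧ (u + v) / 2 ∈ D := by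
  have hb := u_mul hu om_cube
  have k1 : u ≠ u * om := fun e => om_ne (mul_left_cancel₀ (u_ne hu) (by linear_combination -e))
  generalize u * om = b at hb k1
  obtain ⟨c, hc, k2, k3⟩ : ∃ c, c ^ 3 = 1 ∧ u ≠ c ∧ b ≠ c := ⟨_, u_third hu hb k1⟩
  have cov : D ⊆ {y | 2 * y - u ∈ S} ∪ ({y | 2 * y - b ∈ S} ∪ {y | 2 * y - c ∈ S}) := by
    intro z hz
    obtain ⟨t, ht, k⟩ := hS.down (h1 hz)
    rcases u_three hu hb hc k1 k2 k3 ht with rfl | rfl | rfl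
    exacts [Or.inl k, Or.inr (Or.inl k), Or.inr (Or.inr k)]
  obtain ⟨z, k4, k5, k6 | k6⟩ := isPreconnected_closed_iff.1 hD _ _ (hS.closed u)
    ((hS.closed b).union (hS.closed c)) cov ⟨x, hx, h2⟩ ⟨y, hy, (cov hy).resolve_left h3⟩
  · exact ⟨b, hb, k1, hS.meet hu hb k1 k5 k6 ▸ k4⟩
  · exact ⟨c, hc, k2, hS.meet hu hc k2 k5 k6 ▸ k4⟩

/-- A homeomorphism of `S` and its inverse. -/
structure Hm (S : Set ℂ) (ψ χ : ℂ → ℂ) : Prop where
  m1 : MapsTo ψ S S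
  m2 : MapsTo χ S S
  c1 : ContinuousOn ψ S
  c2 : ContinuousOn χ S
  l : ∀ x ∈ S, χ (ψ x) = x
  r : ∀ x ∈ S, ψ (χ x) = x

variable {ψ χ : ℂ → ℂ}

theorem Hm.symm (h : Hm S ψ χ) : Hm S χ ψ := ⟨h.m2, h.m1, h.c2, h.c1, h.r, h.l⟩

theorem Hm.cut (hS : IsG S) (h : Hm S ψ χ) {C : Set ℂ} (hC : IsPreconnected C) (h1 : C ⊆ S)
    (hu : u ^ 3 = 1) (hx : x ∈ C) (hy : y ∈ C) (h2 : 2 * ψ x - u ∈ S) (h3 : 2 * ψ y - u ∉ S) :
    ∃ z ∈ C, ∃ v, v ^ 3 = 1 ∧ u ≠ v ∧ ψ z = (u + v) / 2 := by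
  obtain ⟨v, k1, k2, z, k3, k4⟩ := hS.cut (hC.image ψ (h.c1.mono h1))
    (image_subset_iff.2 fun z hz => h.m1 (h1 hz)) hu ⟨x, hx, rfl⟩ ⟨y, hy, rfl⟩ h2 h3
  exact ⟨z, k3, v, k1, k2, k4⟩

/-- `y` lies in the cell of `u` and in no other. -/
def Only (S : Set ℂ) (u y : ℂ) : Prop :=
  u ^ 3 = 1 ∧ 2 * y - u ∈ S ∧ ∀ v : ℂ, v ^ 3 = 1 → u ≠ v → y ≠ (u + v) / 2

theorem Only.eq (hS : IsG S) (h : Only S u y) (hv : v ^ 3 = 1) (h' : 2 * y - v ∈ S) : u = v :=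
  by_contra fun e => h.2.2 v hv e (hS.meet h.1 hv e h.2.1 h')

theorem Hm.only' (hS : IsG S) (h : Hm S ψ χ) (hu : u ^ 3 = 1) :
    ∃ a, a ^ 3 = 1 ∧ Only S u (ψ a) := by
  have hb := u_mul hu om_cube
  have k1 : u ≠ u * om := fun e => om_ne (mul_left_cancel₀ (u_ne hu) (by linear_combination -e))
  generalize u * om = b at hb k1
  obtain ⟨c, hc, k2, k3⟩ : ∃ c, c ^ 3 = 1 ∧ u ≠ c ∧ b ≠ c := ⟨_, u_third hu hb k1⟩
  have ne : ∀ v : ℂ, v ^ 3 = 1 → u ≠ v → χ u ≠ χ ((u + v) / 2) := fun v hv k e => by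
    have := congrArg ψ e
    rw [h.r _ (hS.vert hu), h.r _ (hS.up (hS.vert hu) hv)] at this
    exact k (by linear_combination 2 * this)
  obtain ⟨a, ha, C, c1, c2, c3, c4⟩ := hS.two (h.m2 (hS.vert hu)) (ne b hb k1) (ne c hc k2)
  have key : ∀ z ∈ C, ∀ v : ℂ, v ^ 3 = 1 → u ≠ v → ψ z ≠ (u + v) / 2 := fun z hz v hv k e => by
    have e' := congrArg χ e
    rw [h.l _ (c4 z hz).1] at e'
    rcases u_three hu hb hc k1 k2 k3 hv with rfl | rfl | rfl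
    exacts [k rfl, (c4 z hz).2 (Or.inl e'), (c4 z hz).2 (Or.inr e')]
  refine ⟨a, ha, hu, by_contra fun hn => ?_, key a c3⟩
  obtain ⟨z, hz, v, hv, k, e⟩ := h.cut hS c1 (fun z hz => (c4 z hz).1) hu c2 c3
    (by rw [h.r _ (hS.vert hu), two_mul, add_sub_cancel_right]; exact hS.vert hu) hn
  exact key z hz v hv k e

theorem Hm.only (hS : IsG S) (h : Hm S ψ χ) : ∃ τ : ℂ → ℂ, (∀ a, a ^ 3 = 1 → Only S (τ a) (ψ a)) ∧
    ∀ a b, a ^ 3 = 1 → b ^ 3 = 1 → τ a = τ b → a = b := by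
  classical
  obtain ⟨c, hc, k2, k3⟩ : ∃ c, c ^ 3 = 1 ∧ 1 ≠ c ∧ om ≠ c :=
    ⟨_, u_third (one_pow 3) om_cube om_ne.symm⟩
  obtain ⟨a1, p1, q1⟩ := h.only' hS (one_pow 3)
  obtain ⟨a2, p2, q2⟩ := h.only' hS om_cube
  obtain ⟨a3, p3, q3⟩ := h.only' hS hc
  have n1 : a1 ≠ a2 := fun e => om_ne (q1.eq hS om_cube (e ▸ q2.2.1)).symm
  have n2 : a1 ≠ a3 := fun e => k2 (q1.eq hS hc (e ▸ q3.2.1))
  have n3 : a2 ≠ a3 := fun e => k3 (q2.eq hS hc (e ▸ q3.2.1))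
  have k1 := om_ne
  refine ⟨fun a => if a = a1 then 1 else if a = a2 then om else c, fun a ha => ?_,
    fun a b ha hb => ?_⟩
  · rcases u_three p1 p2 p3 n1 n2 n3 ha with rfl | rfl | rfl <;>
      simpa [n1.symm, n2.symm, n3.symm]
  · have := u_three p1 p2 p3 n1 n2 n3 ha
    have := u_three p1 p2 p3 n1 n2 n3 hb
    grind

theorem Hm.cutset (hS : IsG S) (h : Hm S ψ χ) :
    Cut S {z | z ∈ S ∧ ∃ u v : ℂ, u ^ 3 = 1 ∧ v ^ 3 = 1 ∧ u ≠ v ∧ ψ z = (u + v) / 2} := by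
  obtain ⟨τ, h1, h2⟩ := h.only hS
  refine ⟨⟨χ (-1 / 2), χ (-om / 2), χ (-om ^ 2 / 2), ?_⟩, ?_, ?_⟩
  · rintro z ⟨hz, u, v, hu, hv, k, e⟩
    have e' := congrArg χ e
    rw [h.l _ hz] at e'
    rcases u_cases om_cube om_ne (u_third hu hv k).1 with t | t | t
    · exact Or.inl (by rw [e', ← t]; ring_nf)
    · exact Or.inr (Or.inl (by rw [e', ← t]; ring_nf))
    · exact Or.inr (Or.inr (by rw [e', ← t]; ring_nf))
  · rintro a ha ⟨-, u, v, hu, hv, k, e⟩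
    have e1 := (h1 a ha).eq hS hu (by
      rw [e, show 2 * ((u + v) / 2) - u = v by ring]; exact hS.vert hv)
    have e2 := (h1 a ha).eq hS hv (by
      rw [e, show 2 * ((u + v) / 2) - v = u by ring]; exact hS.vert hu)
    exact k (e1.symm.trans e2)
  · rintro a b ha hb ⟨C, c1, c2, c3, c4⟩
    refine h2 a b ha hb ((h1 b hb).eq hS (h1 a ha).1 (by_contra fun hn => ?_)).symm
    obtain ⟨z, hz, v, hv, k, e⟩ := h.cut hS c1 (fun z hz => (c4 z hz).1) (h1 a ha).1 c2 c3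
      (h1 a ha).2.1 hn
    exact (c4 z hz).2 ⟨(c4 z hz).1, _, v, (h1 a ha).1, hv, k, e⟩

theorem IsG.join (hS : IsG S) (ha : a ^ 3 = 1) (hx : x ∈ S) : ∃ C, IsPreconnected C ∧ a ∈ C ∧
    x ∈ C ∧ ∀ y ∈ C, y ∈ S ∧ (y ^ 3 = 1 → y ≠ a → y = x) := by
  by_cases h : x ^ 3 = 1 ∧ a ≠ x
  · obtain ⟨c, hc, k2, k3⟩ : ∃ c, c ^ 3 = 1 ∧ a ≠ c ∧ x ≠ c := ⟨_, u_third ha h.1 h.2⟩
    obtain ⟨C, c1, c2, c3, c4⟩ := (hS.sg ha h.1).con (P := {c}) fun t _ _ e => by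
      have := (lin ha h.1 hc h.2 k2 k3 t (-1) (by
        push_cast; linear_combination mem_singleton_iff.1 e)).2
      norm_num at this
    exact ⟨C, c1, c2, c3, fun y hy => ⟨(c4 y hy).1, fun k k' =>
      ((u_three ha h.1 hc h.2 k2 k3 k).resolve_left k').resolve_right (c4 y hy).2⟩⟩
  · have hb := u_mul ha om_cube
    have k1 : a ≠ a * om := fun e => om_ne (mul_left_cancel₀ (u_ne ha) (by linear_combination -e))
    generalize a * om = b at hb k1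
    obtain ⟨c, hc, k2, k3⟩ : ∃ c, c ^ 3 = 1 ∧ a ≠ c ∧ b ≠ c := ⟨_, u_third ha hb k1⟩
    obtain ⟨v, hv, C, c1, c2, c3, c4⟩ := hS.two (p := b) (q := c) hx
      (fun e => h (e ▸ ⟨hb, k1⟩)) fun e => h (e ▸ ⟨hc, k2⟩)
    have key : ∀ y ∈ C, y ^ 3 = 1 → y = a := fun y hy k =>
      (u_three ha hb hc k1 k2 k3 k).resolve_right (c4 y hy).2
    exact ⟨C, c1, key v c3 hv ▸ c3, c2, fun y hy => ⟨(c4 y hy).1, fun k k' =>
      absurd (key y hy k) k'⟩⟩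

theorem Hm.cell' (hS : IsG S) (h : Hm S ψ χ) (ha : a ^ 3 = 1) (ho : Only S u (ψ a)) :
    ∀ x ∈ S, 2 * ψ ((x + a) / 2) - u ∈ S := by
  obtain ⟨hu, h2, -⟩ := ho
  refine fun x hx => by_contra fun hn => ?_
  obtain ⟨C, c1, c2, c3, c4⟩ := hS.join ha hx
  obtain ⟨_, ⟨y, hy, rfl⟩, v, hv, k, e⟩ := h.cut hS (c1.image (fun t => (t + a) / 2) (by fun_prop))
    (image_subset_iff.2 fun z hz => hS.up (c4 z hz).1 ha) hu ⟨a, c2, add_self_div_two a⟩
    ⟨x, c3, rfl⟩ h2 hn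
  obtain ⟨k1, k2⟩ := (h.cutset hS).mid hS ha (c4 y hy).1
    ⟨hS.up (c4 y hy).1 ha, _, v, hu, hv, k, e⟩
  rw [← (c4 y hy).2 k1 k2, e, show 2 * ((u + v) / 2) - u = v by ring] at hn
  exact hn (hS.vert hv)

theorem Hm.cell (hS : IsG S) (h : Hm S ψ χ) (ha : a ^ 3 = 1) :
    ∃ u, u ^ 3 = 1 ∧ ∀ x ∈ S, 2 * ψ ((x + a) / 2) - u ∈ S :=
  let ⟨τ, h1, _⟩ := h.only hS
  ⟨τ a, (h1 a ha).1, h.cell' hS ha (h1 a ha)⟩

theorem IsG.vert_eq (hS : IsG S) (ha : a ^ 3 = 1) (hb : b ^ 3 = 1) (h : 2 * a - b ∈ S) : a = b :=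
  by_contra fun e => e (by
    linear_combination 2 * hS.meet ha hb e (by rw [two_mul, add_sub_cancel_right]; exact hS.vert ha) h)

theorem Hm.zoom' (hS : IsG S) (h : Hm S ψ χ) (ha : a ^ 3 = 1) (ho : Only S u (ψ a)) :
    ∃ ψ' χ', Hm S ψ' χ' ∧ ∀ x, ψ ((x + a) / 2) = (ψ' x + u) / 2 := by
  have hu := ho.1
  have h1 := h.cell' hS ha ho
  obtain ⟨a', ha', h2⟩ := h.symm.cell hS hu
  have e : a = a' := hS.vert_eq ha ha' (by
    have := h2 _ (h1 a (hS.vert ha))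
    rwa [add_self_div_two, show (2 * ψ a - u + u) / 2 = ψ a by ring, h.l _ (hS.vert ha)] at this)
  subst e
  refine ⟨fun x => 2 * ψ ((x + a) / 2) - u, fun y => 2 * χ ((y + u) / 2) - a,
    ⟨h1, h2, ?_, ?_, fun x hx => ?_, fun x hx => ?_⟩, fun x => by ring⟩
  · exact (continuousOn_const.mul (h.c1.comp (by fun_prop) fun x hx => hS.up hx ha)).sub
      continuousOn_const
  · exact (continuousOn_const.mul (h.c2.comp (by fun_prop) fun x hx => hS.up hx hu)).sub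
      continuousOn_const
  · rw [show (2 * ψ ((x + a) / 2) - u + u) / 2 = ψ ((x + a) / 2) by ring, h.l _ (hS.up hx ha)]
    ring
  · rw [show (2 * χ ((x + u) / 2) - a + a) / 2 = χ ((x + u) / 2) by ring, h.r _ (hS.up hx hu)]
    ring

theorem Hm.zoom (hS : IsG S) (h : Hm S ψ χ) (ha : a ^ 3 = 1) :
    ∃ u ψ' χ', Hm S ψ' χ' ∧ ∀ x, ψ ((x + a) / 2) = (ψ' x + u) / 2 :=
  let ⟨τ, h1, _⟩ := h.only hS
  ⟨τ a, h.zoom' hS ha (h1 a ha)⟩

theorem Hm.zoomk (hS : IsG S) (ha : a ^ 3 = 1) (k : ℕ) : ∀ ψ χ, Hm S ψ χ →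
    ∃ ψ' χ', Hm S ψ' χ' ∧ ∀ x y, ‖ψ (a + (x - a) / 2 ^ k) - ψ (a + (y - a) / 2 ^ k)‖
      = (1 / 2) ^ k * ‖ψ' x - ψ' y‖ := by
  induction k with
  | zero => exact fun ψ χ h => ⟨ψ, χ, h, fun x y => by simp⟩
  | succ k ih =>
    intro ψ χ h
    obtain ⟨u, ψ1, χ1, h1, e1⟩ := h.zoom hS ha
    obtain ⟨ψ2, χ2, h2, e2⟩ := ih ψ1 χ1 h1
    refine ⟨ψ2, χ2, h2, fun x y => ?_⟩
    have e : ∀ x : ℂ, a + (x - a) / 2 ^ (k + 1) = (a + (x - a) / 2 ^ k + a) / 2 := fun x => by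
      rw [pow_succ]; ring
    rw [e, e, e1, e1, ← sub_div, add_sub_add_right_eq_sub, norm_div, e2, Complex.norm_two, pow_succ]
    ring

theorem Hm.spread (hS : IsG S) (h : Hm S ψ χ) (ha : a ^ 3 = 1) (hb : b ^ 3 = 1) (hc : c ^ 3 = 1)
    (h1 : a ≠ b) (h2 : a ≠ c) (h3 : b ≠ c) : 1 / 8 ≤ ‖ψ a - ψ b‖ + ‖ψ a - ψ c‖ := by
  obtain ⟨τ, k1, k2⟩ := h.only hS
  have e1 := hS.cross (k1 a ha).1 (k1 b hb).1 (fun e => h1 (k2 a b ha hb e)) (k1 a ha).2.1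
    (k1 b hb).2.1
  have e2 := hS.cross (k1 a ha).1 (k1 c hc).1 (fun e => h2 (k2 a c ha hc e)) (k1 a ha).2.1
    (k1 c hc).2.1
  have e3 := re_le_norm (1 - τ b ^ 2 * τ c)
  rw [sub_re, one_re, (u_re (u_mul (u_sq (k1 b hb).1) (k1 c hc).1)
    (u_rel (k1 b hb).1 fun e => h3 (k2 b c hb hc e))).1,
    show 1 - τ b ^ 2 * τ c = τ b ^ 2 * (2 * (ψ a - (τ a + τ c) / 2 - (ψ a - (τ a + τ b) / 2))) by
      linear_combination -(k1 b hb).1, norm_rot (u_sq (k1 b hb).1), norm_mul,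
    Complex.norm_two] at e3
  linarith [norm_sub_le (ψ a - (τ a + τ c) / 2) (ψ a - (τ a + τ b) / 2)]

theorem Hm.only_zoom (hS : IsG S) (h : Hm S ψ χ) {τ ψ' χ' : ℂ → ℂ}
    (h1 : ∀ a, a ^ 3 = 1 → Only S (τ a) (ψ a))
    (h2 : ∀ a b, a ^ 3 = 1 → b ^ 3 = 1 → τ a = τ b → a = b) (ha : a ^ 3 = 1) (h' : Hm S ψ' χ')
    (e : ∀ x, ψ ((x + a) / 2) = (ψ' x + τ a) / 2) (hb : b ^ 3 = 1) : Only S (τ b) (ψ' b) := by
  have key : ∀ b : ℂ, b ^ 3 = 1 → a ≠ b → ψ' b = τ b := fun b hb k => by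
    have k1 := h.cell' hS ha (h1 a ha) b (hS.vert hb)
    have k2 := h.cell' hS hb (h1 b hb) a (hS.vert ha)
    rw [add_comm a b] at k2
    linear_combination 2 * hS.meet (h1 a ha).1 (h1 b hb).1 (fun t => k (h2 a b ha hb t)) k1 k2
      - 2 * e b
  obtain ⟨σ, k1, k2⟩ := h'.only hS
  have k3 : ∀ b : ℂ, b ^ 3 = 1 → a ≠ b → σ b = τ b := fun b hb k =>
    (k1 b hb).eq hS (h1 b hb).1 (by
      rw [key b hb k, two_mul, add_sub_cancel_right]; exact hS.vert (h1 b hb).1)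
  by_cases k : a = b
  · subst k
    have hb := u_mul ha om_cube
    have n1 : a ≠ a * om := fun e => om_ne (mul_left_cancel₀ (u_ne ha) (by linear_combination -e))
    generalize a * om = b at hb n1
    obtain ⟨c, hc, n2, n3⟩ : ∃ c, c ^ 3 = 1 ∧ a ≠ c ∧ b ≠ c := ⟨_, u_third ha hb n1⟩
    rcases u_three (h1 a ha).1 (h1 b hb).1 (h1 c hc).1 (fun t => n1 (h2 _ _ ha hb t))
      (fun t => n2 (h2 _ _ ha hc t)) (fun t => n3 (h2 _ _ hb hc t)) (k1 a ha).1 with t | t | t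
    · exact t ▸ k1 a ha
    · exact absurd (k2 a b ha hb (t.trans (k3 b hb n1).symm)) n1
    · exact absurd (k2 a c ha hc (t.trans (k3 c hc n2).symm)) n2
  · exact k3 b hb k ▸ k1 b hb

/-- Every homeomorphism of the gasket is an isometry. -/
theorem Hm.isom (hS : IsG S) (h : Hm S ψ χ) (hx : x ∈ S) (hy : y ∈ S) :
    ‖ψ x - ψ y‖ = ‖x - y‖ := by
  obtain ⟨τ, h1, h2⟩ := h.only hS
  have o2 := u_sq om_cube
  have n1 := om_ne.symm
  have n2 := (u_sq_ne om_cube om_ne).symm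
  have n3 : om ≠ om ^ 2 := fun e =>
    om_ne (mul_left_cancel₀ (u_ne om_cube) (by linear_combination -e))
  have t1 := (h1 1 (one_pow 3)).1
  have m1 : τ 1 ≠ τ om := fun t => n1 (h2 _ _ (one_pow 3) om_cube t)
  have s := u_sum t1 (h1 _ om_cube).1 (h1 _ o2).1 m1 (fun t => n2 (h2 _ _ (one_pow 3) o2 t))
    fun t => n3 (h2 _ _ om_cube o2 t)
  obtain ⟨B, b1, b2⟩ : ∃ B : ℂ →+* ℂ, (∀ z, ‖B z‖ = ‖z‖) ∧ τ om = τ 1 * B om := by
    rcases (u_cases om_cube om_ne (u_mul (u_sq t1) (h1 _ om_cube).1)).resolve_left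
      (u_rel t1 m1) with e | e
    · exact ⟨RingHom.id ℂ, fun _ => rfl, by
        rw [RingHom.id_apply]; linear_combination τ 1 * e - τ om * t1⟩
    · have c : starRingEnd ℂ om = om ^ 2 := by
        rw [show om ^ 2 = -om - 1 by linear_combination om_quad]
        apply Complex.ext <;> simp [om]
        norm_num
      exact ⟨starRingEnd ℂ, Complex.norm_conj, by
        rw [c]; linear_combination τ 1 * e - τ om * t1⟩
  have b3 : ∀ a : ℂ, a ^ 3 = 1 → τ a = τ 1 * B a := fun a ha => by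
    rcases u_cases om_cube om_ne ha with rfl | rfl | rfl
    · simp
    · exact b2
    · have := congrArg B om_quad
      rw [map_add, map_add, map_one, map_zero] at this
      linear_combination s - b2 - τ 1 * this
  have key : ∀ k : ℕ, ∀ ψ χ, Hm S ψ χ → (∀ a, a ^ 3 = 1 → Only S (τ a) (ψ a)) → ∀ x ∈ S,
      ‖ψ x - τ 1 * B x‖ ≤ 2 * (1 / 2) ^ k := by
    intro k
    induction k with
    | zero =>
      intro ψ χ h _ x hx
      have := norm_sub_le (ψ x) (τ 1 * B x)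
      rw [norm_rot t1, b1] at this
      linarith [hS.norm_le hx, hS.norm_le (h.m1 hx)]
    | succ k ih =>
      intro ψ χ h h1 x hx
      obtain ⟨a, ha, k1⟩ := hS.down hx
      obtain ⟨ψ', χ', h', e⟩ := h.zoom' hS ha (h1 a ha)
      have k2 := ih ψ' χ' h' (fun b hb => h.only_zoom hS h1 h2 ha h' e hb) _ k1
      have k3 := e (2 * x - a)
      rw [show (2 * x - a + a) / 2 = x by ring] at k3
      rw [map_sub, map_mul, map_ofNat] at k2
      rw [show ψ x - τ 1 * B x = (ψ' (2 * x - a) - τ 1 * (2 * B x - B a)) / 2 by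
        linear_combination k3 + b3 a ha / 2, norm_div, Complex.norm_two, pow_succ]
      linarith
  have fin : ∀ x ∈ S, ψ x = τ 1 * B x := fun x hx => by
    refine sub_eq_zero.1 (norm_le_zero_iff.1 (le_of_forall_gt fun ε hε => ?_))
    obtain ⟨k, hk⟩ := exists_pow_lt_of_lt_one (half_pos hε) (by norm_num : (1 / 2 : ℝ) < 1)
    linarith [key k ψ χ h h1 x hx]
  rw [fin x hx, fin y hy, dist_rot t1, ← map_sub, b1]

end Pool.Agent.Lib.MP_6f5a85_an
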