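import Pool.Agent.Lib.MP_6f5a85_an.Upper
import Pool.Agent.Lib.MP_6f5a85_an.Rigid

/-! The lower bound for the gauge of any homeomorphism. -/

namespace Pool.Agent.Lib.MP_6f5a85_an

open Complex Set

theorem pow_trans (K : ℝ) {β : ℝ} (h0 : 0 < β) (h1 : β ≤ 1) :
    ∃ K' > 0, ∀ n k : ℕ, (1 / 2 : ℝ) ^ n ≤ K * (1 / 2) ^ k → β ^ n ≤ K' * β ^ k := by
  obtain ⟨N, hN⟩ := pow_unbounded_of_one_lt K (one_lt_two (α := ℝ))
  refine ⟨1 / β ^ N, by positivity, fun n k h => ?_⟩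
  have h2 : k ≤ n + N := by
    by_contra hn
    have a := pow_le_pow_of_le_one (by norm_num : (0 : ℝ) ≤ 1 / 2) (by norm_num) (not_le.1 hn).le
    have b := mul_lt_mul_of_pos_right hN (by positivity : (0 : ℝ) < (1 / 2) ^ k)
    have c := mul_le_mul_of_nonneg_left a (by positivity : (0 : ℝ) ≤ 2 ^ N)
    have d : (2 : ℝ) ^ N * (1 / 2) ^ (n + N) = (1 / 2) ^ n := by
      rw [pow_add, mul_left_comm, ← mul_pow]; simp
    linarith
  have h3 := pow_le_pow_of_le_one h0.le h1 h2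
  rw [one_div, ← div_eq_inv_mul, le_div_iff₀ (by positivity), ← pow_add]
  exact h3

theorem cd_v : Cd (fun _ => 1) fun _ => 4 / 3 := fun _ => ⟨in0_v, by rw [f_v, one_mul]⟩

theorem md_v : Md (fun _ => 1) fun _ => 1 := fun _ => ⟨norm_one.le, by norm_num⟩

theorem rl_v : Rl (4 / 3) 1 :=
  ⟨_, _, _, fun _ => one_pow 3, cd_v, md_v, (one_mul _).symm, (one_mul _).symm⟩

theorem vert_up : ∃ K > 0, ∀ (k : ℕ) (z s : ℂ), Rl z s → ‖1 - s‖ ≤ 2 * (1 / 2) ^ k →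
    ‖4 / 3 - z‖ ≤ K * (1 / 3) ^ k := by
  have hA := CA_ge
  obtain ⟨K, hK, h⟩ := pow_trans (CA * 2) (β := 1 / 3) (by norm_num) (by norm_num)
  refine ⟨CA * K, by positivity, ?_⟩
  rintro k _ _ ⟨w, X, Y, hw, hX, hY, rfl, rfl⟩ h1
  rcases cmp_main (fun _ => one_pow 3) cd_v md_v hw hX hY with e | ⟨n, a, b⟩
  · rw [← e.1, one_mul, sub_self, norm_zero]; positivity
  simp only [one_mul] at a b
  have c := h n k (by linarith [b.2, mul_le_mul_of_nonneg_left h1 (by linarith : 0 ≤ CA)])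
  have d : Sz (fun _ => 1) (fun _ => 4 / 3) n ≤ (1 / 3) ^ n := by
    rw [Sz, le_antisymm (qn_le _ n) (le_qn (fun _ _ _ => rfl) le_rfl), ← th_pow_sq, pow_two]
    exact mul_le_mul_of_nonneg_left (Lam_le cd_v n) (pow_nonneg th_pos.le n)
  linarith [a.1, mul_le_mul_of_nonneg_left (d.trans c) (by linarith : 0 ≤ CA)]

theorem wd_c : Wd fun i => if i = 1 then om else 1 := fun i => by
  by_cases h : i = 1 <;> simp [h, om_cube]

theorem cd_c : Cd (fun i => if i = 1 then om else 1)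
    fun i => Nat.casesOn i (cr om) fun _ => 4 / 3 := fun i => by
  cases i with
  | zero => exact ⟨in0_cr om_cube om_ne, f_cr om_cube om_ne⟩
  | succ i => exact ⟨in0_v, by simp [f_v]⟩

theorem md_c : Md (fun i => if i = 1 then om else 1)
    fun i => Nat.casesOn i ((om + 1) / 2) fun _ => 1 := fun i => by
  cases i with
  | zero =>
    have := norm_add_le om 1
    rw [u_norm om_cube, norm_one] at this
    exact ⟨by show ‖(om + 1) / 2‖ ≤ 1; rw [norm_div, Complex.norm_two]; linarith, by simp; ring⟩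
  | succ i => exact ⟨norm_one.le, by norm_num⟩

theorem rl_c : Rl (cr om) ((om + 1) / 2) := ⟨_, _, _, wd_c, cd_c, md_c, by simp, by simp⟩

theorem crit_down : ∃ K > 0, ∀ (k : ℕ) (z s : ℂ), Rl z s → (1 / 2) ^ k ≤ 2 * ‖(om + 1) / 2 - s‖ →
    th ^ k ≤ K * ‖cr om - z‖ := by
  have hA := CA_ge
  have hC := C1_ge
  obtain ⟨K, hK, h⟩ := pow_trans (2 * CA) th_pos th_le_one
  refine ⟨K * (3 * C1 * CA), by positivity, ?_⟩
  rintro k _ _ ⟨w, X, Y, hw, hX, hY, rfl, rfl⟩ h1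
  rcases cmp_main wd_c cd_c md_c hw hX hY with e | ⟨n, a, b⟩
  · rw [← e.2] at h1
    simp at h1
    exact absurd h1 (not_le.2 (by positivity))
  simp only [zero_ne_one, if_false, one_mul, Nat.rec_zero] at a b
  have c := h k n (by linarith [b.1])
  have d := (pat_lam wd_c cd_c (ρ := om) (r := n) fun _ _ _ => rfl).2
  have e : qn (fun i => if i = 1 then om else 1) n = 0 := by
    by_contra hn
    exact om_ne (one_qn (fun i => if i = 1 then om else 1) n 1 le_rfl (by omega))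
  have g := mul_le_mul_of_nonneg_left a.2 (by linarith : 0 ≤ 3 * C1)
  rw [Sz, e, pow_zero, one_mul] at g
  linarith [mul_le_mul_of_nonneg_left (d.trans g) hK.le]

variable {S : Set ℂ} {ψ χ k : ℂ → ℂ} {η : ℝ → ℝ}

theorem IsG.zk (hS : IsG S) {a b : ℂ} (ha : a ^ 3 = 1) (hb : b ^ 3 = 1) (j : ℕ) :
    a + (b - a) / 2 ^ j ∈ S := by
  convert hS.sg ha hb ((1 / 2) ^ j) (by positivity) (pow_le_one₀ (by norm_num) (by norm_num))
    using 1
  push_cast; rw [one_div, inv_pow]; ring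

theorem IsG.diam (hS : IsG S) {a b : ℂ} (ha : a ∈ S) (hb : b ∈ S) : ‖a - b‖ ≤ 2 := by
  linarith [norm_sub_le a b, hS.norm_le ha, hS.norm_le hb]

theorem low_small (hS : IsG S) (h : Hm S ψ χ) (hk : ∀ s ∈ S, Rl (k s) s) (hη : Monotone η)
    (hq : ∀ s ∈ S, ∀ p ∈ S, ∀ q ∈ S, s ≠ q →
      ‖ψ s - ψ p‖ / ‖ψ s - ψ q‖ ≤ η (‖k s - k p‖ / ‖k s - k q‖)) :
    ∃ c > 0, ∀ t, 0 < t → t ≤ 1 → c * t ^ ex ≤ η t := by
  obtain ⟨K, hK, h1⟩ := vert_up
  obtain ⟨c, hc, k2, k3⟩ : ∃ c, c ^ 3 = 1 ∧ 1 ≠ c ∧ om ≠ c :=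
    ⟨_, u_third (one_pow 3) om_cube om_ne.symm⟩
  have v1 := hS.vert (one_pow 3)
  have v2 := hS.vert om_cube
  have e1 : k 1 = 4 / 3 := rl_eq2 (hk 1 v1) rl_v
  have D0 : 0 < ‖k 1 - k om‖ := norm_pos_iff.2 (sub_ne_zero.2 fun e =>
    om_ne (rl_eq1 (hk om v2) (e ▸ hk 1 v1)))
  have E0 : 0 < ‖ψ 1 - ψ om‖ := norm_pos_iff.2 (sub_ne_zero.2 fun e =>
    om_ne (by rw [← h.l om v2, ← e, h.l 1 v1]))
  have E1 := hS.diam (h.m1 v1) (h.m1 v2)
  have key : ∀ j : ℕ, 1 / 32 * (1 / 2) ^ j ≤ η (K / ‖k 1 - k om‖ * (1 / 3) ^ j) := fun j => by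
    obtain ⟨ψ', χ', h', e⟩ := Hm.zoomk hS (one_pow 3) j ψ χ h
    have sp := h'.spread hS (one_pow 3) om_cube hc om_ne.symm k2 k3
    obtain ⟨v, hv, h2⟩ : ∃ v : ℂ, v ^ 3 = 1 ∧ 1 / 16 ≤ ‖ψ' 1 - ψ' v‖ := by
      rcases le_total (1 / 16) ‖ψ' 1 - ψ' om‖ with a | a
      exacts [⟨om, om_cube, a⟩, ⟨c, hc, by linarith⟩]
    have h3 := e 1 v
    rw [sub_self, zero_div, add_zero] at h3
    have h4 := hS.zk (one_pow 3) hv j
    have h5 := h1 j _ _ (hk _ h4) (by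
      rw [sub_add_cancel_left, norm_neg, norm_div, norm_pow, Complex.norm_two, one_div, inv_pow]
      exact mul_le_mul_of_nonneg_right (hS.diam (hS.vert hv) v1) (by positivity))
    refine le_trans ?_ ((hq 1 v1 _ h4 om v2 om_ne.symm).trans (hη ?_))
    · rw [h3, le_div_iff₀ E0]
      have p : (0 : ℝ) ≤ (1 / 2) ^ j := by positivity
      linarith [mul_le_mul_of_nonneg_left h2 p, mul_le_mul_of_nonneg_left E1 p]
    · rw [div_mul_eq_mul_div]
      exact div_le_div_of_nonneg_right (e1 ▸ h5) D0.le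
  have K0 : 0 < K / ‖k 1 - k om‖ := by positivity
  generalize K / ‖k 1 - k om‖ = L at key K0
  refine ⟨1 / 64 / (L + 1) ^ ex, by positivity, fun t t0 t1 => ?_⟩
  obtain ⟨n, a, b⟩ := exists_nat_pow_near_of_lt_one (x := t / (L + 1)) (y := 1 / 3)
    (by positivity) (by rw [div_le_one (by positivity)]; linarith) (by norm_num) (by norm_num)
  rw [lt_div_iff₀ (by positivity)] at a
  rw [div_le_iff₀ (by positivity)] at b
  have g := ex_le (a := 1) (c := (1 / 3) ^ n) (d := L + 1) zero_le_one t0.le (by positivity)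
    (by positivity) (by rwa [one_mul])
  rw [third_ex, Real.one_rpow, one_mul] at g
  refine le_trans ?_ ((key (n + 1)).trans (hη ?_))
  · rw [div_mul_eq_mul_div, div_le_iff₀ (by positivity), pow_succ]; linarith
  · linarith [show (0 : ℝ) ≤ (1 / 3) ^ (n + 1) by positivity]

theorem low_large (hS : IsG S) (h : Hm S ψ χ) (hk : ∀ s ∈ S, Rl (k s) s) (hη : Monotone η)
    (hq : ∀ s ∈ S, ∀ p ∈ S, ∀ q ∈ S, s ≠ q →
      ‖ψ s - ψ p‖ / ‖ψ s - ψ q‖ ≤ η (‖k s - k p‖ / ‖k s - k q‖)) :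
    ∃ c > 0, ∃ L > 0, ∀ t, L ≤ t → c * (t ^ 2) ^ ex ≤ η t := by
  obtain ⟨K, hK, h1⟩ := crit_down
  have v1 := hS.vert (one_pow 3)
  have v2 := hS.vert om_cube
  have v3 := hS.up v2 (one_pow 3)
  have e1 : k ((om + 1) / 2) = cr om := rl_eq2 (hk _ v3) rl_c
  have n1 : (om + 1) / 2 ≠ 1 := fun e => om_ne (by linear_combination 2 * e)
  have D0 : 0 < ‖k ((om + 1) / 2) - k 1‖ := norm_pos_iff.2 (sub_ne_zero.2 fun e =>
    n1 (rl_eq1 (hk _ v3) (e ▸ hk 1 v1)))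
  have E0 : 0 < ‖ψ ((om + 1) / 2) - ψ 1‖ := norm_pos_iff.2 (sub_ne_zero.2 fun e =>
    n1 (by rw [← h.l _ v3, e, h.l 1 v1]))
  have o1 : 1 ≤ ‖1 - om‖ := by
    have := re_le_norm (1 - om)
    rw [sub_re, one_re, (u_re om_cube om_ne).1] at this
    linarith
  obtain ⟨u, ψ1, χ1, g1, g2⟩ := h.zoom hS (one_pow 3)
  have key : ∀ (j : ℕ) (t : ℝ), K * ‖k ((om + 1) / 2) - k 1‖ ≤ t * th ^ j →
      ‖ψ ((om + 1) / 2) - ψ 1‖ ≤ η t * (1 / 2) ^ j := fun j t ht => by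
    obtain ⟨ψ', χ', h', e⟩ := Hm.zoomk hS om_cube j ψ1 χ1 g1
    have h3 := e om 1
    rw [sub_self, zero_div, add_zero] at h3
    have h4 := hS.up (hS.zk om_cube (one_pow 3) j) (one_pow 3)
    have p : (0 : ℝ) < (1 / 2) ^ j := by positivity
    have h5 : (1 / 2) ^ j ≤ 2 * ‖(om + 1) / 2 - (om + (1 - om) / 2 ^ j + 1) / 2‖ := by
      rw [show (om + 1) / 2 - (om + (1 - om) / 2 ^ j + 1) / 2 = -((1 - om) / 2 ^ j / 2) by ring,
        norm_neg, norm_div, norm_div, norm_pow, Complex.norm_two, div_eq_mul_inv ‖_‖, ← inv_pow,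
        ← one_div]
      linarith [mul_le_mul_of_nonneg_right o1 p.le]
    have h6 : ‖ψ ((om + 1) / 2) - ψ ((om + (1 - om) / 2 ^ j + 1) / 2)‖ ≤ (1 / 2) ^ j := by
      rw [g2, g2, ← sub_div, add_sub_add_right_eq_sub, norm_div, h3, Complex.norm_two]
      linarith [mul_le_mul_of_nonneg_left (hS.diam (h'.m1 v2) (h'.m1 v1)) p.le]
    have h7 := h1 j _ _ (hk _ h4) h5
    rw [← e1] at h7
    have n2 : (om + 1) / 2 ≠ (om + (1 - om) / 2 ^ j + 1) / 2 := fun e => by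
      rw [← e, sub_self, norm_zero] at h5; linarith
    have h8 := hq _ v3 1 v1 _ h4 n2
    have E1 : 0 < ‖ψ ((om + 1) / 2) - ψ ((om + (1 - om) / 2 ^ j + 1) / 2)‖ :=
      norm_pos_iff.2 (sub_ne_zero.2 fun e => n2 (by rw [← h.l _ v3, e, h.l _ h4]))
    have tp := pow_pos th_pos j
    have D1 := (pos_iff_pos_of_mul_pos (tp.trans_le h7)).1 hK
    have t0 : 0 < t := (pos_iff_pos_of_mul_pos ((mul_pos hK D0).trans_le ht)).2 tp
    have h9 := h8.trans (hη (show _ ≤ t by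
      rw [div_le_iff₀ D1]
      refine le_of_mul_le_mul_left ?_ hK
      linarith [mul_le_mul_of_nonneg_left h7 t0.le]))
    have h10 := (div_pos E0 E1).le.trans h9
    rw [div_le_iff₀ E1] at h9
    exact h9.trans (mul_le_mul_of_nonneg_left h6 h10)
  have L0 := mul_pos hK D0
  generalize K * ‖k ((om + 1) / 2) - k 1‖ = L at key L0
  generalize ‖ψ ((om + 1) / 2) - ψ 1‖ = E at key E0
  refine ⟨E / 2 / (L ^ 2) ^ ex, by positivity, L, L0, fun t ht => ?_⟩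
  have t0 := L0.trans_le ht
  obtain ⟨n, a, b⟩ := exists_nat_pow_near_of_lt_one (x := L / t) (y := th)
    (by positivity) (by rwa [div_le_one t0]) th_pos th_lt_one
  rw [lt_div_iff₀ t0] at a
  rw [div_le_iff₀ t0] at b
  have c := key n t (by linarith)
  have d := pow_le_pow_left₀ (mul_nonneg (pow_nonneg th_pos.le _) t0.le) a.le 2
  rw [mul_pow, th_pow_sq] at d
  have g := ex_le (a := (1 / 3) ^ (n + 1)) (b := t ^ 2) (c := 1) (d := L ^ 2) (by positivity)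
    (by positivity) zero_le_one (by positivity) (by rwa [one_mul])
  rw [third_ex, Real.one_rpow, one_mul, pow_succ] at g
  have p : (0 : ℝ) < (1 / 2) ^ n := by positivity
  have η0 := (pos_iff_pos_of_mul_pos (E0.trans_le c)).2 p
  rw [div_mul_eq_mul_div, div_le_iff₀ (by positivity)]
  linarith [mul_le_mul_of_nonneg_left g η0.le,
    mul_le_mul_of_nonneg_right c (by positivity : 0 ≤ (t ^ 2) ^ ex)]

theorem low_all (hS : IsG S) (h : Hm S ψ χ) (hk : ∀ s ∈ S, Rl (k s) s) (hη : Monotone η)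
    (hq : ∀ s ∈ S, ∀ p ∈ S, ∀ q ∈ S, s ≠ q →
      ‖ψ s - ψ p‖ / ‖ψ s - ψ q‖ ≤ η (‖k s - k p‖ / ‖k s - k q‖)) :
    ∃ c > 0, ∀ t, 0 < t → c * max (t ^ ex) (t ^ (2 * ex)) ≤ η t := by
  obtain ⟨c1, p1, h1⟩ := low_small hS h hk hη hq
  obtain ⟨c2, p2, L, p3, h2⟩ := low_large hS h hk hη hq
  have p4 : 0 < c1 / (L ^ 2) ^ ex := by positivity
  refine ⟨min c1 (min c2 (c1 / (L ^ 2) ^ ex)), by positivity, fun t t0 => ?_⟩
  rw [two_ex t0.le]
  rcases le_total t 1 with a | a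
  · rw [max_eq_left (Real.rpow_le_rpow (by positivity) (by nlinarith) ex_pos.le)]
    exact (mul_le_mul_of_nonneg_right (min_le_left _ _) (by positivity)).trans (h1 t t0 a)
  rw [max_eq_right (Real.rpow_le_rpow t0.le (by nlinarith) ex_pos.le)]
  rcases le_total L t with b | b
  · exact (mul_le_mul_of_nonneg_right ((min_le_right _ _).trans (min_le_left _ _))
      (by positivity)).trans (h2 t b)
  · have c := h1 1 one_pos le_rfl
    rw [Real.one_rpow, mul_one] at c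
    refine (mul_le_mul ((min_le_right _ _).trans (min_le_right _ _))
      (Real.rpow_le_rpow (by positivity) (pow_le_pow_left₀ t0.le b 2) ex_pos.le) (by positivity)
      p4.le).trans ?_
    rw [div_mul_cancel₀ _ (by positivity)]
    exact c.trans (hη a)

end Pool.Agent.Lib.MP_6f5a85_an
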