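import Pool.Agent.Lib.MP_6f5a85_an.Pull

/-! The comparison of distances on the two sides. -/

namespace Pool.Agent.Lib.MP_6f5a85_an

open Complex Finset

theorem eq_of_pow {d C t : ℝ} (hd : 0 ≤ d) (h1 : t < 1) (h : ∀ k : ℕ, d ≤ C * t ^ k) (hC : 0 < C) :
    d = 0 := by
  by_contra hn
  obtain ⟨k, hk⟩ := exists_pow_lt_of_lt_one (div_pos (hd.lt_of_ne' hn) hC) h1
  rw [lt_div_iff₀ hC] at hk
  linarith [h k]

theorem th_lt_one : th < 1 := th_le.trans_lt (by norm_num)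

/-- The constant of the comparison. -/
noncomputable def CA : ℝ := C2 * 10 ^ 5 * (20 * C1 * (3 * C1)) * (3 * C1)

theorem CA_ge' : 20 * C1 * (3 * C1) ≤ CA := by
  have h1 := C1_ge
  have h2 := C2_ge
  have h3 : 0 ≤ 20 * C1 * (3 * C1) := by positivity
  have h4 : 1 ≤ C2 * 10 ^ 5 * (3 * C1) := by nlinarith
  have := mul_le_mul_of_nonneg_left h4 h3
  unfold CA; linarith

theorem CA_ge : 12 ≤ CA := by nlinarith [CA_ge', C1_ge]

variable {w X Y w' X' Y' : ℕ → ℂ}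

theorem cmp_main (hw : Wd w) (hX : Cd w X) (hY : Md w Y) (hw' : Wd w') (hX' : Cd w' X')
    (hY' : Md w' Y') : (w 0 * X 0 = w' 0 * X' 0 ∧ w 0 * Y 0 = w' 0 * Y' 0) ∨
      ∃ n, Cmp CA ‖w 0 * X 0 - w' 0 * X' 0‖ (Sz w X n) ∧
        Cmp CA ‖w 0 * Y 0 - w' 0 * Y' 0‖ ((1 / 2) ^ n) := by
  classical
  have hC := C1_ge
  by_cases hall : w = w'
  · subst hall
    have a : ‖X 0 - X' 0‖ = 0 := eq_of_pow (norm_nonneg _) (by norm_num : (2 / 3 : ℝ) < 1)
      (fun k => con hw (hX.ch k) (hX'.ch k) (hX k).1.le (hX' k).1.le) (by norm_num)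
    have b : ‖Y 0 - Y' 0‖ = 0 := eq_of_pow (C := 2) (norm_nonneg _)
      (by norm_num : (1 / 2 : ℝ) < 1) (fun k => by
        rw [m_pull k hw (fun i _ => (hY i).2) (fun i _ => (hY' i).2), mul_comm]
        exact mul_le_mul_of_nonneg_right
          (by linarith [norm_sub_le (Y k) (Y' k), (hY k).1, (hY' k).1]) (by positivity))
      (by norm_num)
    exact Or.inl ⟨by rw [sub_eq_zero.1 (norm_eq_zero.1 a)], by rw [sub_eq_zero.1 (norm_eq_zero.1 b)]⟩
  have hex : ∃ k, w k ≠ w' k := Function.ne_iff.1 hall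
  obtain ⟨k, hk, hlt⟩ : ∃ k, w k ≠ w' k ∧ ∀ i < k, w i = w' i :=
    ⟨Nat.find hex, Nat.find_spec hex, fun i hi => not_not.1 (Nat.find_min hex hi)⟩
  obtain ⟨ρ, hρ'⟩ : ∃ ρ, ρ = w k ^ 2 * w' k := ⟨_, rfl⟩
  have hρ : ρ ^ 3 = 1 := hρ' ▸ u_mul (u_sq (hw k)) (hw' k)
  have h1 : ρ ≠ 1 := fun e => hk (by linear_combination w' k * hw k - w k * e + w k * hρ')
  have back : ∀ (Z : ℕ → ℂ) (i : ℕ), w i * (w i ^ 2 * w' i * Z i) = w' i * Z i := fun Z i => by
    linear_combination w' i * Z i * hw i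
  have same : ∀ (Z : ℕ → ℂ), ∀ i < k, w i ^ 2 * w' i * Z i = Z i := fun Z i hi => by
    rw [← hlt i hi]; linear_combination Z i * hw i
  have cX : Ch w (fun i => w i ^ 2 * w' i * X' i) k := fun i hi => by
    simp only [same X' i hi, back]; exact hX' i
  have eY : ‖w 0 * Y 0 - w' 0 * Y' 0‖ = (1 / 2) ^ k * ‖Y k - ρ * Y' k‖ := by
    rw [← back Y' 0, dist_rot (hw 0), hρ']
    exact m_pull (Y' := fun i => w i ^ 2 * w' i * Y' i) k hw (fun i _ => (hY i).2) fun i hi => by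
      simp only [same Y' i hi, back]; exact (hY' i).2
  have c1 := fun r a b => cross_cmp (r := r) (hw.sh k) (hX.sh k) (hw'.sh k) (hX'.sh k) hρ h1 a b
  have c2 := fun r a b => m_cross_cmp (r := r) (hw.sh k) (hY.sh k) (hw'.sh k) (hY'.sh k) hρ h1 a b
  simp only [sh_apply, zero_add] at c1 c2
  by_cases hP : ∀ r, Pat (sh k w) ρ r ∧ Pat (sh k w') (ρ ^ 2) r
  · have a : ‖X k - ρ * X' k‖ = 0 := eq_of_pow (norm_nonneg _) th_lt_one
      (fun r => (c1 r (hP r).1 (hP r).2).1) (by positivity)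
    have b : ‖Y k - ρ * Y' k‖ = 0 := eq_of_pow (norm_nonneg _) (by norm_num : (1 / 2 : ℝ) < 1)
      (fun r => (c2 r (hP r).1 (hP r).2).1) (by norm_num)
    rw [b, mul_zero] at eY
    refine Or.inl ⟨?_, sub_eq_zero.1 (norm_eq_zero.1 eY)⟩
    rw [← back X' 0, (hX.ch k).eq cX (hρ' ▸ sub_eq_zero.1 (norm_eq_zero.1 a))]
  obtain ⟨r, hr, hn⟩ : ∃ r, (Pat (sh k w) ρ r ∧ Pat (sh k w') (ρ ^ 2) r) ∧
      ¬ (Pat (sh k w) ρ (r + 1) ∧ Pat (sh k w') (ρ ^ 2) (r + 1)) := by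
    by_contra hc
    refine hP fun r => ?_
    induction r with
    | zero => exact ⟨pat_zero _ _, pat_zero _ _⟩
    | succ r ih => exact not_not.1 fun h => hc ⟨r, ih, h⟩
  have d1 : Cmp (20 * C1) ‖X k - ρ * X' k‖ (th ^ r) :=
    ⟨(c1 r hr.1 hr.2).1, (c1 r hr.1 hr.2).2 hn⟩
  have d2 : Cmp 12 ‖Y k - ρ * Y' k‖ ((1 / 2) ^ r) := ⟨(c2 r hr.1 hr.2).1, (c2 r hr.1 hr.2).2 hn⟩
  have d3 := d1.trans (pat_lam (hw.sh k) (hX.sh k) hr.1).symm (by linarith) (by linarith)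
  have hq : qn w (k + r) ≤ k := by
    by_contra hc
    have a := qn_le w (k + r)
    have b := hr.1 1 le_rfl (by omega)
    rw [if_pos rfl, sh_apply] at b
    exact h1 (b.symm.trans (one_qn w (k + r) (1 + k) (by omega) (by omega)))
  refine Or.inr ⟨k + r, ?_, ?_⟩
  · rw [← back X' 0, dist_rot (hw 0)]
    cases k with
    | zero =>
      rw [← hρ', Sz, Nat.le_zero.1 hq, pow_zero, one_mul, zero_add]
      exact d3.mono CA_ge' (norm_nonneg _) (Lam_nonneg _ _)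
    | succ j =>
      have hne : X (j + 1) ≠ ρ * X' (j + 1) := fun e => by
        have := d1.2
        rw [e, sub_self, norm_zero, mul_zero] at this
        exact absurd (pow_pos th_pos r) (not_lt.2 this)
      have p := pull2 hw (hX.ch (j + 2)) cX (hX' (j + 1)).1 hρ h1 (by rw [hρ']) (hρ' ▸ hne)
      have q := NN_cmp (n := j + 1 + r) hw hX hw' hX' (fun i hi => hlt i (by omega)) hk
        (by omega) hq
      simp only [same X' 0 j.succ_pos, ← hρ'] at p ⊢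
      have N0 : 0 < NN (X 0) (X' 0) := by
        refine (NN_nonneg _ _).lt_of_ne fun e => ?_
        have := q.2
        rw [← e, mul_zero] at this
        exact absurd (pow_pos th_pos _) (not_lt.2 this)
      have s := (Cmp.refl (Lam X (j + 1))).mul d3 (Lam_nonneg _ _) (Lam_nonneg _ _)
        (norm_nonneg _) (Lam_nonneg _ _)
      rw [one_mul, ← Lam_add] at s
      have t := (p.trans s (by nlinarith [C2_ge]) (by nlinarith)).mul q
        (div_nonneg (norm_nonneg _) N0.le) (Lam_nonneg _ _) N0.le (pow_nonneg th_pos.le _)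
      rw [div_mul_cancel₀ _ N0.ne', mul_comm (Lam _ _)] at t
      exact t
  · have := (Cmp.refl ((1 / 2 : ℝ) ^ k)).mul d2 (by positivity) (by positivity) (norm_nonneg _)
      (by positivity)
    rw [one_mul, ← pow_add, ← eY] at this
    exact this.mono CA_ge (norm_nonneg _) (by positivity)

end Pool.Agent.Lib.MP_6f5a85_an
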