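import Pool.Agent.Lib.MP_6f5a85_an.Code

/-! The model side: coded points of the gasket; existence of coded orbits. -/

namespace Pool.Agent.Lib.MP_6f5a85_an

open Complex Finset

/-- The closed triangle spanned by the cube roots of unity. -/
def Tri (y : ℂ) : Prop := ∀ u : ℂ, u ^ 3 = 1 → -1 / 2 ≤ (u * y).re

/-- A coded orbit on the side of the gasket. -/
def Md (w Y : ℕ → ℂ) : Prop := ∀ i, ‖Y i‖ ≤ 1 ∧ 2 * Y i - 1 = w (i + 1) * Y (i + 1)

theorem Md.sh {w Y : ℕ → ℂ} (h : Md w Y) (j : ℕ) : Md (sh j w) (sh j Y) := fun i => by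
  simpa [Nat.add_right_comm i 1 j] using h (i + j)

theorem Tri.rot {y u : ℂ} (h : Tri y) (hu : u ^ 3 = 1) : Tri (u * y) := fun v hv => by
  rw [← mul_assoc]; exact h _ (u_mul hv hu)

theorem u_re_ge {u : ℂ} (h : u ^ 3 = 1) : -1 / 2 ≤ u.re := by
  by_cases e : u = 1
  · rw [e]; norm_num
  · exact (u_re h e).1.ge

theorem half_re (z : ℂ) : (z / 2).re = z.re / 2 := by simp

theorem md_tri {w Y : ℕ → ℂ} (hw : Wd w) (h : Md w Y) : Tri (Y 0) := by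
  have key : ∀ k : ℕ, ∀ w Y : ℕ → ℂ, Wd w → Md w Y → ∀ u : ℂ, u ^ 3 = 1 →
      -1 / 2 - (1 / 2) ^ k ≤ (u * Y 0).re := by
    intro k
    induction k with
    | zero =>
      intro w Y _ h u hu
      have := (abs_le.1 (abs_re_le_norm (u * Y 0))).1
      rw [norm_rot hu] at this
      linarith [(h 0).1]
    | succ k ih =>
      intro w Y hw h u hu
      have h1 := ih _ _ (hw.sh 1) (h.sh 1) _ (u_mul hu (hw 1))
      have e : u * Y 0 = (u * w 1 * Y 1 + u) / 2 := by linear_combination u / 2 * (h 0).2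
      simp only [sh_apply, zero_add] at h1
      rw [e, half_re, add_re, pow_succ]
      linarith [u_re_ge hu]
  intro u hu
  by_contra hn
  obtain ⟨k, hk⟩ := exists_pow_lt_of_lt_one (sub_pos.2 (not_le.1 hn)) (by norm_num : (1 / 2 : ℝ) < 1)
  linarith [key k w Y hw h u hu]

variable {w Y : ℕ → ℂ} {q r : ℕ} {ρ : ℂ}

theorem md_tri' (hw : Wd w) (h : Md w Y) : Tri (2 * Y 0 - 1) := by
  rw [(h 0).2]; exact (md_tri (hw.sh 1) (h.sh 1)).rot (hw _)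

theorem m_far {u : ℂ} (hw : Wd w) (h : Md w Y) (hu : u ^ 3 = 1) (hρ : ρ ^ 3 = 1) (h1 : u ≠ ρ) :
    3 / 4 ≤ ‖u * Y 0 - ρ‖ := by
  have h2 := md_tri' hw h 1 (one_pow 3)
  have h3 := (u_re (u_mul (u_sq hu) hρ) fun e => h1 (by linear_combination ρ * hu - u * e)).1
  have h4 := re_le_norm (Y 0 - u ^ 2 * ρ)
  rw [← dist_rot hu, show u * (u ^ 2 * ρ) = ρ by linear_combination ρ * hu, sub_re, h3] at h4
  simp at h2
  linarith

theorem m_pull (k : ℕ) {Y' : ℕ → ℂ} (hw : Wd w)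
    (h : ∀ i < k, 2 * Y i - 1 = w (i + 1) * Y (i + 1))
    (h' : ∀ i < k, 2 * Y' i - 1 = w (i + 1) * Y' (i + 1)) :
    ‖Y 0 - Y' 0‖ = (1 / 2) ^ k * ‖Y k - Y' k‖ := by
  induction k with
  | zero => simp
  | succ k ih =>
    have e : Y k - Y' k = w (k + 1) * (Y (k + 1) - Y' (k + 1)) / 2 := by
      linear_combination (h k k.lt_succ_self - h' k k.lt_succ_self) / 2
    rw [ih (fun i hi => h i (by omega)) fun i hi => h' i (by omega), e, norm_div,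
      norm_rot (hw _), pow_succ]
    simp; ring

theorem m_one (hw : Wd w) (h : Md w Y) (h1 : One w q) : ‖Y 0 - 1‖ = (1 / 2) ^ q * ‖Y q - 1‖ :=
  m_pull (Y' := fun _ => 1) q hw (fun i _ => (h i).2) fun i hi => by
    rw [h1 (i + 1) (by omega) hi]; norm_num

theorem m_one_up (hw : Wd w) (h : Md w Y) (h1 : One w q) : ‖Y 0 - 1‖ ≤ 2 * (1 / 2) ^ q := by
  have := norm_sub_le (Y q) 1
  rw [norm_one] at this
  rw [m_one hw h h1, mul_comm]
  exact mul_le_mul_of_nonneg_right (by linarith [(h q).1]) (by positivity)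

theorem m_one_down (hw : Wd w) (h : Md w Y) (h1 : One w q) (h2 : w (q + 1) ≠ 1) :
    (1 / 2) ^ q ≤ 3 * ‖Y 0 - 1‖ := by
  have a := m_far (hw.sh (q + 1)) (h.sh (q + 1)) (hw (q + 1)) (one_pow 3) h2
  have e : Y q - 1 = (w (q + 1) * Y (q + 1) - 1) / 2 := by linear_combination (h q).2 / 2
  simp only [sh_apply, zero_add] at a
  rw [m_one hw h h1, e, norm_div, Complex.norm_two]
  nlinarith [mul_le_mul_of_nonneg_left a (show (0 : ℝ) ≤ (1 / 2) ^ q by positivity),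
    show (0 : ℝ) ≤ (1 / 2) ^ q by positivity]

theorem m_mid (h : Md w Y) : ‖Y 0 - (1 + ρ) / 2‖ = ‖w 1 * Y 1 - ρ‖ / 2 := by
  have e : Y 0 - (1 + ρ) / 2 = (w 1 * Y 1 - ρ) / 2 := by linear_combination (h 0).2 / 2
  rw [e, norm_div, Complex.norm_two]

theorem m_mid' (h : Md w Y) (hρ : ρ ^ 3 = 1) (e : w 1 = ρ) :
    ‖Y 0 - (1 + ρ) / 2‖ = ‖Y 1 - 1‖ / 2 := by
  rw [m_mid h, e, ← dist_rot hρ (Y 1) 1, mul_one]

theorem m_pat_up (hw : Wd w) (h : Md w Y) (hρ : ρ ^ 3 = 1) (hp : Pat w ρ r) :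
    ‖Y 0 - (1 + ρ) / 2‖ ≤ 2 * (1 / 2) ^ r := by
  cases r with
  | zero =>
    have := norm_sub_le (w 1 * Y 1) ρ
    rw [norm_rot (hw 1), u_norm hρ] at this
    rw [m_mid h]; linarith [(h 1).1]
  | succ q =>
    obtain ⟨a, b⟩ := pat_succ.1 hp
    have := m_one_up (hw.sh 1) (h.sh 1) b
    simp only [sh_apply, zero_add] at this
    rw [m_mid' h hρ a, pow_succ]; linarith

theorem m_pat_down (hw : Wd w) (h : Md w Y) (hρ : ρ ^ 3 = 1) (hp : Pat w ρ r)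
    (h' : ¬ Pat w ρ (r + 1)) : (1 / 2) ^ r ≤ 3 * ‖Y 0 - (1 + ρ) / 2‖ := by
  cases r with
  | zero =>
    have := m_far (hw.sh 1) (h.sh 1) (hw 1) hρ fun e => h' (pat_succ.2 ⟨e, one_zero _⟩)
    simp only [sh_apply, zero_add] at this
    rw [m_mid h]; linarith
  | succ q =>
    obtain ⟨a, b⟩ := pat_succ.1 hp
    have := m_one_down (hw.sh 1) (h.sh 1) b fun e => h' (pat_succ.2 ⟨a, b.succ e⟩)
    simp only [sh_apply, zero_add] at this
    rw [m_mid' h hρ a, pow_succ]; linarith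

theorem re_sum (hρ : ρ ^ 3 = 1) (h1 : ρ ≠ 1) (z : ℂ) :
    z.re + (ρ * z).re + (ρ ^ 2 * z).re = 0 := by
  rw [← add_re, ← add_re, show z + ρ * z + ρ ^ 2 * z = 0 by
    linear_combination z * u_quad hρ h1, zero_re]

theorem tri_cross {y z : ℂ} (hy : Tri y) (hz : Tri z) (hρ : ρ ^ 3 = 1) (h1 : ρ ≠ 1) :
    ‖y - ρ‖ ≤ 4 * ‖y - ρ - (z - 1)‖ := by
  obtain ⟨r1, r2⟩ := u_re hρ h1
  have r3 := (u_re (u_sq hρ) (u_sq_ne hρ h1)).1
  have a0 := hy 1 (one_pow 3)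
  have b0 := hy ρ hρ
  have c0 := hz ρ hρ
  have d0 := hz _ (u_sq hρ)
  have s1 := re_sum hρ h1 z
  have s2 := re_sum hρ h1 (y - ρ)
  have e1 : (ρ * (y - ρ)).re = (ρ * y).re + 1 / 2 := by
    rw [mul_sub, sub_re, ← pow_two, r3]; ring
  have e2 : (y - ρ).re = y.re + 1 / 2 := by rw [sub_re, r1]; ring
  have e3 : (ρ ^ 2 * (z - 1)).re = (ρ ^ 2 * z).re + 1 / 2 := by
    rw [mul_sub, sub_re, mul_one, r3]; ring
  have n1 := re_le_norm (y - ρ - (z - 1))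
  have n2 := (abs_le.1 (abs_re_le_norm (ρ ^ 2 * (y - ρ - (z - 1))))).1
  rw [norm_rot (u_sq hρ), mul_sub, sub_re, e3] at n2
  rw [sub_re, sub_re z, one_re] at n1
  rw [one_mul] at a0
  have key : ‖y - ρ‖ ≤ 2 * ((y - ρ).re + (ρ * (y - ρ)).re) := by
    have ha : 0 ≤ (y - ρ).re := by linarith
    have hb : 0 ≤ (ρ * (y - ρ)).re := by linarith
    generalize y - ρ = A at ha hb
    apply le_of_sq (by linarith)
    have h5 : (ρ.im * A.im) ^ 2 = 3 / 4 * A.im ^ 2 := by rw [mul_pow, r2]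
    have h6 : ρ.im * A.im = -(1 / 2 * A.re + (ρ * A).re) := by rw [mul_re, r1]; ring
    rw [h6] at h5
    rw [Complex.sq_norm, normSq_apply]
    nlinarith [mul_nonneg ha hb]
  linarith

theorem m_cross {w' Y' : ℕ → ℂ} (hw : Wd w) (h : Md w Y) (hw' : Wd w') (h' : Md w' Y')
    (hρ : ρ ^ 3 = 1) (h1 : ρ ≠ 1) : ‖Y 0 - (1 + ρ) / 2‖ ≤ 4 * ‖Y 0 - ρ * Y' 0‖ := by
  have := tri_cross (md_tri' hw h) ((md_tri' hw' h').rot hρ) hρ h1
  rw [show 2 * Y 0 - 1 - ρ = 2 * (Y 0 - (1 + ρ) / 2) by ring,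
    show 2 * (Y 0 - (1 + ρ) / 2) - (ρ * (2 * Y' 0 - 1) - 1) = 2 * (Y 0 - ρ * Y' 0) by ring,
    norm_mul, norm_mul, Complex.norm_two] at this
  linarith

theorem m_cross_cmp {w' Y' : ℕ → ℂ} (hw : Wd w) (hY : Md w Y) (hw' : Wd w') (hY' : Md w' Y')
    (hρ : ρ ^ 3 = 1) (h1 : ρ ≠ 1) (h : Pat w ρ r) (h' : Pat w' (ρ ^ 2) r) :
    ‖Y 0 - ρ * Y' 0‖ ≤ 12 * (1 / 2) ^ r ∧
      (¬ (Pat w ρ (r + 1) ∧ Pat w' (ρ ^ 2) (r + 1)) → (1 / 2) ^ r ≤ 12 * ‖Y 0 - ρ * Y' 0‖) := by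
  refine ⟨?_, fun hn => ?_⟩
  · have a := m_pat_up hw hY hρ h
    have b := m_pat_up hw' hY' (u_sq hρ) h'
    rw [← dist_rot hρ, show ρ * ((1 + ρ ^ 2) / 2) = (1 + ρ) / 2 by linear_combination hρ / 2,
      norm_sub_rev] at b
    linarith [norm_sub_le_norm_sub_add_norm_sub (Y 0) ((1 + ρ) / 2) (ρ * Y' 0),
      show (0 : ℝ) ≤ (1 / 2) ^ r by positivity]
  · rcases not_and_or.1 hn with hn | hn
    · linarith [m_pat_down hw hY hρ h hn, m_cross hw hY hw' hY' hρ h1]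
    · have a := m_pat_down hw' hY' (u_sq hρ) h' hn
      have b := m_cross hw' hY' hw hY (u_sq hρ) (u_sq_ne hρ h1)
      rw [← dist_rot hρ (Y' 0) (ρ ^ 2 * Y 0), norm_sub_rev (ρ * Y' 0),
        show ρ * (ρ ^ 2 * Y 0) = Y 0 by linear_combination Y 0 * hρ] at b
      linarith

theorem exists_orbit (R : ℕ → ℂ → ℂ → Prop) {B : ℝ} (hB : 0 ≤ B)
    (hcl : ∀ i, IsClosed {p : ℂ × ℂ | R i p.1 p.2})
    (hex : ∀ i y, ‖y‖ ≤ B → ∃ x, ‖x‖ ≤ B ∧ R i x y) :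
    ∃ X : ℕ → ℂ, ∀ i, ‖X i‖ ≤ B ∧ R i (X i) (X (i + 1)) := by
  have ne : ∀ N : ℕ, ∀ R : ℕ → ℂ → ℂ → Prop, (∀ i y, ‖y‖ ≤ B → ∃ x, ‖x‖ ≤ B ∧ R i x y) →
      ∃ X : ℕ → ℂ, (∀ i, ‖X i‖ ≤ B) ∧ ∀ i < N, R i (X i) (X (i + 1)) := by
    intro N
    induction N with
    | zero => exact fun _ _ => ⟨fun _ => 0, fun _ => by simpa, fun i hi => by omega⟩
    | succ N ih =>
      intro R h
      obtain ⟨X, h1, h2⟩ := ih (fun i => R (i + 1)) fun i => h (i + 1)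
      obtain ⟨x, h3, h4⟩ := h 0 (X 0) (h1 0)
      refine ⟨fun i => Nat.casesOn i x X, fun i => ?_, fun i hi => ?_⟩
      · cases i with
        | zero => exact h3
        | succ i => exact h1 i
      · cases i with
        | zero => exact h4
        | succ i => exact h2 i (by omega)
  let A : ℕ → Set (ℕ → ℂ) := fun N =>
    {X | ∀ i, X i ∈ Metric.closedBall (0 : ℂ) B} ∩ ⋂ i < N, {X | R i (X i) (X (i + 1))}
  have hK : IsCompact {X : ℕ → ℂ | ∀ i, X i ∈ Metric.closedBall (0 : ℂ) B} :=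
    isCompact_pi_infinite fun _ => isCompact_closedBall 0 B
  have hc : ∀ N, IsClosed (⋂ i < N, {X : ℕ → ℂ | R i (X i) (X (i + 1))}) := fun N =>
    isClosed_biInter fun i _ => (hcl i).preimage
      (f := fun X : ℕ → ℂ => (X i, X (i + 1))) (by fun_prop)
  obtain ⟨X, hX⟩ := IsCompact.nonempty_iInter_of_sequence_nonempty_isCompact_isClosed A
    (fun N X hX => ⟨hX.1, Set.mem_iInter₂.2 fun i hi =>
      Set.mem_iInter₂.1 hX.2 i (Nat.lt_succ_of_lt hi)⟩)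
    (fun N => by
      obtain ⟨X, h1, h2⟩ := ne N R hex
      exact ⟨X, fun i => by simpa using h1 i, Set.mem_iInter₂.2 h2⟩)
    (hK.inter_right (hc 0)) fun N => hK.isClosed.inter (hc N)
  have := fun N => Set.mem_iInter.1 hX N
  exact ⟨X, fun i => ⟨by simpa using (this 0).1 i,
    Set.mem_iInter₂.1 (this (i + 1)).2 i i.lt_succ_self⟩⟩

theorem exists_md (hw : Wd w) : ∃ Y, Md w Y :=
  exists_orbit (fun i x y => 2 * x - 1 = w (i + 1) * y) zero_le_one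
    (fun i => isClosed_eq (by fun_prop) (by fun_prop)) fun i y hy =>
      ⟨(w (i + 1) * y + 1) / 2, by
        have := norm_add_le (w (i + 1) * y) 1
        rw [norm_rot (hw _), norm_one] at this
        rw [norm_div, Complex.norm_two]; linarith, by ring⟩

theorem exists_cd (hw : Wd w) : ∃ X, Cd w X := by
  obtain ⟨X, hX⟩ := exists_orbit (fun i x y => 1 / 3 ≤ ‖x‖ ∧ ‖x‖ ≤ 2 * x.re ∧
    x ^ 3 - 16 / 27 = w (i + 1) * y * x) (B := 4 / 3) (by norm_num)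
    (fun i => by
      refine IsClosed.and (isClosed_le ?_ ?_) (IsClosed.and (isClosed_le ?_ ?_) (isClosed_eq ?_ ?_))
        <;> fun_prop)
    fun i y hy => by
      obtain ⟨x, h1, h2⟩ := exists_pre (z := w (i + 1) * y) (by rwa [norm_rot (hw _)])
      exact ⟨x, h1.le, h1.ge, h1.sec, by rw [← h2, f, div_mul_cancel₀ _ h1.ne]⟩
  refine ⟨X, fun i => ?_⟩
  obtain ⟨-, h1, h2, h3⟩ := hX i
  have h0 : X i ≠ 0 := fun e => by rw [e, norm_zero] at h1; norm_num at h1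
  have h4 : f (X i) = w (i + 1) * X (i + 1) := by rw [f, div_eq_iff h0, h3]
  exact ⟨⟨h0, by rw [h4, norm_rot (hw _)]; exact (hX _).1, h2⟩, h4⟩

/-- The defining properties of the gasket. -/
structure IsG (S : Set ℂ) : Prop where
  ne : S.Nonempty
  cpt : IsCompact S
  eq : S = ⋃ v ∈ {v : ℂ | v ^ 3 = 1}, (fun x => (x + v) / 2) '' S

variable {S : Set ℂ}

theorem IsG.up (h : IsG S) {x v : ℂ} (hx : x ∈ S) (hv : v ^ 3 = 1) : (x + v) / 2 ∈ S := by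
  rw [h.eq]; exact Set.mem_iUnion₂.2 ⟨v, hv, x, hx, rfl⟩

theorem IsG.down (h : IsG S) {x : ℂ} (hx : x ∈ S) : ∃ v, v ^ 3 = 1 ∧ 2 * x - v ∈ S := by
  rw [h.eq] at hx
  obtain ⟨v, hv, y, hy, rfl⟩ := Set.mem_iUnion₂.1 hx
  exact ⟨v, hv, by convert hy using 1; ring⟩

theorem IsG.norm_le (h : IsG S) {x : ℂ} (hx : x ∈ S) : ‖x‖ ≤ 1 := by
  obtain ⟨m, hm, h1⟩ := h.cpt.exists_isMaxOn h.ne continuous_norm.continuousOn
  obtain ⟨v, hv, h2⟩ := h.down hm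
  have a : ‖2 * m - v‖ ≤ ‖m‖ := h1 h2
  have b := norm_sub_norm_le (2 * m) v
  rw [norm_mul, Complex.norm_two, u_norm hv] at b
  have c : ‖x‖ ≤ ‖m‖ := h1 hx
  linarith

theorem IsG.code (h : IsG S) {s : ℂ} (hs : s ∈ S) : ∃ w Y, Wd w ∧ Md w Y ∧ s = w 0 * Y 0 := by
  choose! a ha ha' using fun x (hx : x ∈ S) => h.down hx
  let t : ℕ → ℂ := fun n => (fun x => 2 * x - a x)^[n] s
  have ht : ∀ n, t (n + 1) = 2 * t n - a (t n) := fun n => Function.iterate_succ_apply' _ _ _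
  have hS : ∀ n, t n ∈ S := fun n => by
    induction n with
    | zero => exact hs
    | succ n ih => rw [ht]; exact ha' _ ih
  have hu := fun n => ha _ (hS n)
  refine ⟨fun n => Nat.casesOn n (a s) fun n => a (t n) ^ 2 * a (t (n + 1)),
    fun n => a (t n) ^ 2 * t n, fun n => ?_, fun n => ⟨?_, ?_⟩, ?_⟩
  · cases n with
    | zero => exact hu 0
    | succ n => exact u_mul (u_sq (hu n)) (hu _)
  · rw [norm_rot (u_sq (hu n))]; exact h.norm_le (hS n)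
  · show _ = a (t n) ^ 2 * a (t (n + 1)) * (a (t (n + 1)) ^ 2 * t (n + 1))
    linear_combination hu n - a (t n) ^ 2 * t (n + 1) * hu (n + 1) - a (t n) ^ 2 * ht n
  · show s = a s * (a s ^ 2 * s)
    linear_combination -s * ha s hs

theorem IsG.mem (h : IsG S) (hw : Wd w) (hY : Md w Y) {u : ℂ} (hu : u ^ 3 = 1) : u * Y 0 ∈ S := by
  have key : ∀ k : ℕ, ∀ w Y : ℕ → ℂ, Wd w → Md w Y → ∀ u : ℂ, u ^ 3 = 1 →
      ∃ t ∈ S, ‖u * Y 0 - t‖ ≤ 2 * (1 / 2) ^ k := by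
    intro k
    induction k with
    | zero =>
      intro w Y _ hY u hu
      obtain ⟨t, ht⟩ := h.ne
      have := norm_sub_le (u * Y 0) t
      rw [norm_rot hu] at this
      exact ⟨t, ht, by linarith [(hY 0).1, h.norm_le ht]⟩
    | succ k ih =>
      intro w Y hw hY u hu
      obtain ⟨t, ht, h1⟩ := ih _ _ (hw.sh 1) (hY.sh 1) _ (u_mul hu (hw 1))
      refine ⟨_, h.up ht hu, ?_⟩
      have e : u * Y 0 - (t + u) / 2 = (u * w 1 * Y 1 - t) / 2 := by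
        linear_combination u / 2 * (hY 0).2
      simp only [sh_apply, zero_add] at h1
      rw [e, norm_div, Complex.norm_two, pow_succ]; linarith
  rw [← h.cpt.isClosed.closure_eq, Metric.mem_closure_iff]
  intro ε hε
  obtain ⟨k, hk⟩ := exists_pow_lt_of_lt_one (half_pos hε) (by norm_num : (1 / 2 : ℝ) < 1)
  obtain ⟨t, ht, h1⟩ := key k w Y hw hY u hu
  exact ⟨t, ht, by rw [dist_eq_norm]; linarith⟩

theorem IsG.tri (h : IsG S) {s : ℂ} (hs : s ∈ S) : Tri s := by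
  obtain ⟨w, Y, hw, hY, rfl⟩ := h.code hs
  exact (md_tri hw hY).rot (hw 0)

theorem IsG.vert (h : IsG S) {u : ℂ} (hu : u ^ 3 = 1) : u ∈ S := by
  simpa using h.mem (w := fun _ => 1) (Y := fun _ => 1) (fun _ => one_pow 3)
    (fun _ => ⟨norm_one.le, by norm_num⟩) hu

end Pool.Agent.Lib.MP_6f5a85_an
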