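import Pool.Agent.Lib.MP_6f5a85_an.Model

/-! Pulling a pair of points back along a common word; the size of cells. -/

namespace Pool.Agent.Lib.MP_6f5a85_an

open Complex Finset

theorem NN_in0 {X Y : ℂ} (hX : In0 X) (hY : In0 Y) : 4 / 9 * ‖X - Y‖ ≤ NN X Y ^ 2 := by
  have a := pow_le_pow_left₀ (norm_nonneg _) (sr_le_NN hX.le hY.le) 2
  have b := pow_le_pow_left₀ (norm_nonneg _) (sr_le_NN hY.le hX.le) 2
  have c := norm_sub_le_norm_sub_add_norm_sub X (4 / 3) Y
  rw [NN_comm] at b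
  rw [norm_sub_rev (4 / 3)] at c
  linarith [sr_ge_dist hX, sr_ge_dist hY]

theorem step_B' {X Y : ℂ} (hX : In0 X) (hY : In0 Y)
    (h : 4 / 9 * ‖f X - f Y‖ ≤ NN (f X) (f Y) ^ 2) :
    lam X * (‖f X - f Y‖ * NN X Y)
      ≤ Real.exp (10 ^ 22 * ‖X - Y‖) * (‖X - Y‖ * NN (f X) (f Y)) := by
  have hd := norm_nonneg (X - Y)
  have hN := NN_nonneg (f X) (f Y)
  rcases le_total ‖X - Y‖ (1 / 2400000) with hs | hs
  · exact (step_B hX hY hs).trans (mul_le_mul_of_nonneg_right
      (Real.exp_le_exp.2 (by linarith)) (mul_nonneg hd hN))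
  · have h1 : ‖X - Y‖ / 22 ≤ NN (f X) (f Y) := by
      apply le_of_sq hN
      nlinarith [step_hol hX hY]
    have h2 : ‖f X - f Y‖ ≤ 8 / 3 := by linarith [norm_sub_le (f X) (f Y), hX.disc, hY.disc]
    have h3 := mul_le_mul ((lam_le hX.le).trans th_le)
      (mul_le_mul h2 (NN_le hX.le hY.le) (NN_nonneg _ _) (by norm_num))
      (mul_nonneg (norm_nonneg _) (NN_nonneg _ _)) (by norm_num)
    have h0 := Real.add_one_le_exp (10 ^ 22 * ‖X - Y‖)
    generalize Real.exp (10 ^ 22 * ‖X - Y‖) = E at h0 ⊢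
    have h4 : 10 ^ 22 * (1 / 2400000) ≤ E := by linarith
    have h5 := mul_le_mul h4 (mul_le_mul hs
      (show 1 / 2400000 / 22 ≤ NN (f X) (f Y) by linarith) (by norm_num) hd) (by norm_num)
      (by linarith)
    linarith

variable {w X Y : ℕ → ℂ} {k : ℕ}

theorem Ch.ne (hw : Wd w) (hX : Ch w X k) (hY : Ch w Y k) (h : X k ≠ Y k) {i : ℕ} (hi : i ≤ k) :
    X i ≠ Y i := by
  intro e
  refine h (Nat.le_induction (P := fun j _ => j ≤ k → X j = Y j) (fun _ => e)
    (fun j _ ih hj => ?_) k hi le_rfl)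
  exact mul_left_cancel₀ (u_ne (hw (j + 1))) (by rw [← (hX j hj).2, ← (hY j hj).2, ih (by omega)])

theorem Ch.eq (hX : Ch w X k) (hY : Ch w Y k) (h : X k = Y k) : X 0 = Y 0 := by
  induction k with
  | zero => exact h
  | succ k ih =>
    exact ih (hX.mono k.le_succ) (hY.mono k.le_succ) ((hX k k.lt_succ_self).1.inj
      (hY k k.lt_succ_self).1 (by rw [(hX k k.lt_succ_self).2, (hY k k.lt_succ_self).2, h]))

theorem NN_pos {a b : ℂ} (h : a ≠ b) (h' : 4 / 9 * ‖a - b‖ ≤ NN a b ^ 2) : 0 < NN a b := by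
  refine (NN_nonneg a b).lt_of_ne fun e => ?_
  rw [← e] at h'
  linarith [norm_pos_iff.2 (sub_ne_zero.2 h)]

/-- The constant of the pull-back. -/
noncomputable def C2 : ℝ := Real.exp (2 * (10 ^ 22 * 10 ^ 19))

theorem C2_ge : 1 ≤ C2 := Real.one_le_exp (by positivity)

theorem pull (hw : Wd w) (hX : Ch w X k) (hY : Ch w Y k) (h1 : ‖X k‖ ≤ 4 / 3) (h2 : ‖Y k‖ ≤ 4 / 3)
    (hne : X k ≠ Y k) (hk : 4 / 9 * ‖X k - Y k‖ ≤ NN (X k) (Y k) ^ 2) :
    Cmp C2 (‖X 0 - Y 0‖ / NN (X 0) (Y 0)) (Lam X k * (‖X k - Y k‖ / NN (X k) (Y k))) := by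
  have hN : ∀ i ≤ k, 4 / 9 * ‖X i - Y i‖ ≤ NN (X i) (Y i) ^ 2 := fun i hi => by
    rcases hi.eq_or_lt with rfl | hi
    · exact hk
    · exact NN_in0 (hX i hi).1 (hY i hi).1
  have hp : ∀ i ≤ k, 0 < NN (X i) (Y i) := fun i hi => NN_pos (hX.ne hw hY hne hi) (hN i hi)
  have hE : Real.exp (∑ i ∈ range k, 10 ^ 22 * ‖X i - Y i‖) ≤ C2 :=
    exp_sum_le (by positivity) fun i hi => by
      rw [mul_assoc]
      exact mul_le_mul_of_nonneg_left (con' hw hX hY h1 h2 hi.le) (by positivity)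
  have e1 : ∀ i < k, ‖f (X i) - f (Y i)‖ = ‖X (i + 1) - Y (i + 1)‖ := fun i hi => by
    rw [(hX i hi).2, (hY i hi).2, dist_rot (hw _)]
  have e2 : ∀ i < k, NN (f (X i)) (f (Y i)) = NN (X (i + 1)) (Y (i + 1)) := fun i hi => by
    rw [(hX i hi).2, (hY i hi).2, NN_rot (hw _) (hw _)]
  constructor
  · have := chain_le (a := fun i => ‖X i - Y i‖ / NN (X i) (Y i)) (μ := fun i => lam (X i))
      (ε := fun i => 10 ^ 22 * ‖X i - Y i‖) k (fun _ _ => lam_nonneg _) fun i hi => by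
        have a := step_A (hX i hi).1 (hY i hi).1
        rw [e1 i hi, e2 i hi] at a
        rw [← mul_div_assoc, div_le_div_iff₀ (hp i hi.le) (hp _ hi), mul_assoc _ ‖_‖]
        refine a.trans (mul_le_mul_of_nonneg_right (mul_le_mul_of_nonneg_right
          (Real.exp_le_exp.2 (by linarith [norm_nonneg (X i - Y i)])) (lam_nonneg _))
          (mul_nonneg (norm_nonneg _) (NN_nonneg _ _)))
    rw [mul_assoc] at this
    exact this.trans (mul_le_mul_of_nonneg_right hE (mul_nonneg (Lam_nonneg X k)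
      (div_nonneg (norm_nonneg _) (NN_nonneg _ _))))
  · have := chain_ge (a := fun i => ‖X i - Y i‖ / NN (X i) (Y i)) (μ := fun i => lam (X i))
      (ε := fun i => 10 ^ 22 * ‖X i - Y i‖) k (fun _ _ => lam_nonneg _) fun i hi => by
        have a := step_B' (hX i hi).1 (hY i hi).1 (by rw [e1 i hi, e2 i hi]; exact hN _ hi)
        rw [e1 i hi, e2 i hi] at a
        rw [← mul_div_assoc, ← mul_div_assoc, div_le_div_iff₀ (hp _ hi) (hp i hi.le), mul_assoc,
          mul_assoc]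
        exact a
    exact this.trans (mul_le_mul_of_nonneg_right hE
      (div_nonneg (norm_nonneg _) (NN_nonneg _ _)))

/-- The pull-back of a pair that lies in two different sectors. -/
theorem pull2 {Z ρ : ℂ} (hw : Wd w) (hX : Ch w X (k + 2)) (hY : Ch w Y (k + 1)) (hZ : In0 Z)
    (hρ : ρ ^ 3 = 1) (h1 : ρ ≠ 1) (e : Y (k + 1) = ρ * Z) (hne : X (k + 1) ≠ Y (k + 1)) :
    Cmp (C2 * 10 ^ 5) (‖X 0 - Y 0‖ / NN (X 0) (Y 0))
      (Lam X (k + 1) * ‖X (k + 1) - Y (k + 1)‖) := by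
  have hI := (hX (k + 1) (by omega)).1
  have hX' := hX.mono (Nat.le_succ _)
  have n2 : ‖Y (k + 1)‖ ≤ 4 / 3 := by rw [e, norm_rot hρ]; exact hZ.le
  have hD := norm_nonneg (X (k + 1) - Y (k + 1))
  rcases le_total ‖X (k + 1) - Y (k + 1)‖ (1 / 42) with hs | hs
  · have a := cross' hI hZ hρ h1
    have b := norm_sub_norm_le (X (k + 1)) (cr ρ)
    rw [← e] at a
    rw [cr_norm hρ h1] at b
    have c := (one_le_sr (X := X (k + 1)) (by linarith)).trans (sr_le_NN hI.le n2)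
    have d := NN_le hI.le n2
    refine (pull hw hX' hY hI.le n2 hne (by nlinarith)).trans ?_ C2_ge (by norm_num)
    have g : Cmp (10 ^ 5) (‖X (k + 1) - Y (k + 1)‖ / NN (X (k + 1)) (Y (k + 1)))
        ‖X (k + 1) - Y (k + 1)‖ := by
      constructor
      · rw [div_le_iff₀ (by linarith)]; nlinarith
      · rw [← mul_div_assoc, le_div_iff₀ (by linarith)]; nlinarith
    simpa using (Cmp.refl (Lam X (k + 1))).mul g (Lam_nonneg _ _) (Lam_nonneg _ _)
      (div_nonneg hD (NN_nonneg _ _)) hD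
  · obtain ⟨a1, a2⟩ := hX k (by omega)
    obtain ⟨b1, b2⟩ := hY k k.lt_succ_self
    have a := step_lip a1 b1
    rw [a2, b2, dist_rot (hw _)] at a
    have b := NN_in0 a1 b1
    have c : 1 / 28 ≤ NN (X k) (Y k) := by apply le_of_sq (NN_nonneg _ _); linarith
    have d := NN_le a1.le b1.le
    have d1 : ‖X k - Y k‖ ≤ 8 / 3 := by linarith [norm_sub_le (X k) (Y k), a1.le, b1.le]
    have d2 : ‖X (k + 1) - Y (k + 1)‖ ≤ 8 / 3 := by
      linarith [norm_sub_le (X (k + 1)) (Y (k + 1)), hI.le]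
    refine (pull hw (hX'.mono k.le_succ) (hY.mono k.le_succ) a1.le b1.le
      (hX'.ne hw hY hne k.le_succ) b).trans ?_ C2_ge (by norm_num)
    have l1 := mul_le_mul (lam_ge a1.ge) hs (by norm_num) (lam_nonneg _)
    have l2 := mul_le_mul ((lam_le a1.le).trans th_le) d2 hD (by norm_num)
    have g : Cmp (10 ^ 5) (‖X k - Y k‖ / NN (X k) (Y k))
        (lam (X k) * ‖X (k + 1) - Y (k + 1)‖) := by
      constructor
      · rw [div_le_iff₀ (by linarith)]; nlinarith
      · rw [← mul_div_assoc, le_div_iff₀ (by linarith)]; nlinarith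
    have := (Cmp.refl (Lam X k)).mul g (Lam_nonneg _ _) (Lam_nonneg _ _)
      (div_nonneg (norm_nonneg _) (NN_nonneg _ _)) (mul_nonneg (lam_nonneg _) hD)
    rw [one_mul, ← mul_assoc] at this
    unfold Lam at this ⊢
    rwa [prod_range_succ]

open Classical in
/-- The number of trivial letters at the start, cut at `n`. -/
noncomputable def qn (w : ℕ → ℂ) (n : ℕ) : ℕ := Nat.findGreatest (One w) n

theorem qn_le (w : ℕ → ℂ) (n : ℕ) : qn w n ≤ n := by
  classical exact Nat.findGreatest_le n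

theorem le_qn {n q : ℕ} (h : One w q) (hq : q ≤ n) : q ≤ qn w n := by
  classical exact Nat.le_findGreatest hq h

theorem one_qn (w : ℕ → ℂ) (n : ℕ) : One w (qn w n) := by
  classical exact Nat.findGreatest_spec (Nat.zero_le n) (one_zero w)

/-- The size of the cell of level `n` around a coded point. -/
noncomputable def Sz (w X : ℕ → ℂ) (n : ℕ) : ℝ := th ^ qn w n * Lam X n

theorem Sz_nonneg (w X : ℕ → ℂ) (n : ℕ) : 0 ≤ Sz w X n :=
  mul_nonneg (pow_nonneg th_pos.le _) (Lam_nonneg _ _)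

theorem Sz_zero (w X : ℕ → ℂ) : Sz w X 0 = 1 := by
  simp [Sz, Lam, Nat.le_zero.1 (qn_le w 0)]

theorem th_le_one : th ≤ 1 := th_le.trans (by norm_num)

theorem Sz_up (hX : Cd w X) (n j : ℕ) : Sz w X (n + j) ≤ th ^ j * Sz w X n := by
  have h1 : th ^ qn w (n + j) ≤ th ^ qn w n :=
    pow_le_pow_of_le_one th_pos.le th_le_one (le_qn (one_qn w n) ((qn_le w n).trans (by omega)))
  have h2 := mul_le_mul_of_nonneg_left (Lam_le (hX.sh n) j) (Lam_nonneg X n)
  unfold Sz
  rw [Lam_add]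
  exact (mul_le_mul h1 h2 (mul_nonneg (Lam_nonneg _ _) (Lam_nonneg _ _))
    (pow_nonneg th_pos.le _)).trans_eq (by ring)

theorem Sz_down (hw : Wd w) (hX : Cd w X) (n j : ℕ) :
    (1 / 3) ^ j * Sz w X n ≤ C1 * Sz w X (n + j) := by
  have hC := C1_ge
  have h0 := Sz_nonneg w X n
  rcases le_total (qn w (n + j)) n with h | h
  · have e : qn w (n + j) = qn w n := le_antisymm (le_qn (one_qn w _) h)
      (le_qn (one_qn w n) ((qn_le w n).trans (by omega)))
    have h1 : Sz w X (n + j) = Sz w X n * Lam (sh n X) j := by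
      unfold Sz; rw [e, Lam_add]; ring
    have h2 := mul_le_mul_of_nonneg_left (Lam_ge (hw.sh n) (hX.sh n) j) h0
    nlinarith [Sz_nonneg w X (n + j)]
  · obtain ⟨e, he⟩ := Nat.exists_eq_add_of_le h
    obtain ⟨g, rfl⟩ : ∃ g, j = e + g := ⟨j - e, by have := qn_le w (n + j); omega⟩
    have h1 : qn w n = n := le_antisymm (qn_le w n) (le_qn ((one_qn w _).mono h) le_rfl)
    have h2 : One (sh n w) e := fun i a b => one_qn w (n + (e + g)) (i + n) (by omega) (by omega)
    have h3 := one_lam (hw.sh n) (hX.sh n) h2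
    have h4 := Lam_ge ((hw.sh n).sh e) ((hX.sh n).sh e) g
    have h5 := mul_le_mul h3 h4 (by positivity)
      (mul_nonneg (by linarith) (Lam_nonneg _ _))
    have h6 := mul_le_mul_of_nonneg_left h5 (mul_nonneg h0 (pow_nonneg th_pos.le e))
    have h7 : Sz w X (n + (e + g))
        = Sz w X n * th ^ e * (Lam (sh n X) e * Lam (sh e (sh n X)) g) := by
      unfold Sz; rw [he, h1, Lam_add, Lam_add, pow_add]; ring
    rw [h7, pow_add, ← th_pow_sq e]
    linarith

theorem sr_up (hw : Wd w) (hX : Cd w X) {q : ℕ} (h : One w q) : ‖sr (X 0)‖ ≤ C1 * th ^ q := by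
  have hC := C1_ge
  have a := cube_lip (R := 4 / 3) norm_v.le (hX 0).1.le
  have b := one_up hw hX h
  have c : (0 : ℝ) ≤ (1 / 3) ^ q := by positivity
  apply le_of_sq (mul_nonneg (by linarith) (pow_nonneg th_pos.le _))
  rw [norm_sr_sq, mul_pow, th_pow_sq, show (64 / 27 : ℂ) = (4 / 3) ^ 3 by norm_num]
  rw [norm_sub_rev (4 / 3)] at a
  nlinarith [mul_le_mul_of_nonneg_right hC (mul_nonneg (by linarith : 0 ≤ C1) c)]

theorem sr_down (hw : Wd w) (hX : Cd w X) {q : ℕ} (h : One w q) (h' : w (q + 1) ≠ 1) :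
    th ^ q ≤ C1 * ‖sr (X 0)‖ := by
  have hC := C1_ge
  have a := mul_le_mul_of_nonneg_left (sr_ge_dist (hX 0).1) (by linarith : 0 ≤ C1)
  have b := one_down hw hX h h'
  apply le_of_sq (mul_nonneg (by linarith) (norm_nonneg _))
  rw [mul_pow, th_pow_sq]
  nlinarith [mul_le_mul_of_nonneg_right hC
    (mul_nonneg (by linarith : 0 ≤ C1) (sq_nonneg ‖sr (X 0)‖))]

/-- The weight of a pair whose words first differ at the place `k + 1`. -/
theorem NN_cmp {w' X' : ℕ → ℂ} {n : ℕ} (hw : Wd w) (hX : Cd w X) (hw' : Wd w') (hX' : Cd w' X')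
    (h1 : ∀ i ≤ k, w i = w' i) (h2 : w (k + 1) ≠ w' (k + 1)) (h3 : k + 1 ≤ n)
    (h4 : qn w n ≤ k + 1) :
    Cmp (3 * C1) (NN (X 0) (X' 0)) (th ^ qn w n) := by
  have hC := C1_ge
  have t0 := pow_nonneg th_pos.le (qn w n)
  have l1 := sr_le_NN (hX 0).1.le (hX' 0).1.le
  have l2 := sr_le_NN (hX' 0).1.le (hX 0).1.le
  rw [NN_comm] at l2
  have N0 := NN_nonneg (X 0) (X' 0)
  constructor
  · have a := sr_up hw hX (one_qn w n)
    have b := sr_up hw' hX' (q := qn w n - 1) fun i a b =>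
      h1 i (by omega) ▸ one_qn w n i a (by omega)
    have c : th ^ (qn w n - 1) ≤ 2 * th ^ qn w n := by
      rcases Nat.eq_zero_or_pos (qn w n) with e | e
      · rw [e]; norm_num
      · obtain ⟨q, hq⟩ : ∃ q, qn w n = q + 1 := ⟨qn w n - 1, by omega⟩
        rw [hq, Nat.add_sub_cancel, pow_succ]
        nlinarith [mul_le_mul_of_nonneg_left th_ge (pow_nonneg th_pos.le q)]
    linarith [NN_le_add (X 0) (X' 0), mul_le_mul_of_nonneg_left c (by linarith : 0 ≤ C1)]
  · by_cases e : w (qn w n + 1) = 1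
    · have e1 : qn w n = n := by
        by_contra hn
        have := le_qn ((one_qn w n).succ e) (show qn w n + 1 ≤ n by have := qn_le w n; omega)
        omega
      have e2 : qn w n = k + 1 := by omega
      have a := sr_down hw' hX' (q := k) (fun i a b => h1 i b ▸ one_qn w n i a (by omega))
        fun e => h2 ((one_qn w n (k + 1) (by omega) e2.ge).trans e.symm)
      have b : th ^ qn w n ≤ th ^ k := pow_le_pow_of_le_one th_pos.le th_le_one (by omega)
      nlinarith [mul_le_mul_of_nonneg_left l2 (by linarith : 0 ≤ C1)]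
    · have a := sr_down hw hX (one_qn w n) e
      nlinarith [mul_le_mul_of_nonneg_left l1 (by linarith : 0 ≤ C1)]

end Pool.Agent.Lib.MP_6f5a85_an
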