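import Pool.Agent.Lib.MP_6f5a85_an.Sector

namespace Pool.Agent.Lib.MP_6f5a85_an

open Complex

theorem exists_rt (z : ℂ) : ∃ w : ℂ, w ^ 2 = z ∧ 0 ≤ w.re := by
  obtain ⟨w, hw⟩ := IsAlgClosed.exists_pow_nat_eq z (by norm_num : 0 < 2)
  rcases le_total 0 w.re with h | h
  · exact ⟨w, hw, h⟩
  · exact ⟨-w, by rw [neg_sq, hw], by simpa using h⟩

/-- a square root with nonnegative real part -/
noncomputable def rt (z : ℂ) : ℂ := Classical.choose (exists_rt z)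

theorem rt_sq (z : ℂ) : rt z ^ 2 = z := (Classical.choose_spec (exists_rt z)).1
theorem rt_re (z : ℂ) : 0 ≤ (rt z).re := (Classical.choose_spec (exists_rt z)).2

theorem norm_rt_sq (z : ℂ) : ‖rt z‖ ^ 2 = ‖z‖ := by rw [← norm_pow, rt_sq]

theorem re_eq_rt (z : ℂ) : z.re = (rt z).re ^ 2 - (rt z).im ^ 2 := by
  conv_lhs => rw [← rt_sq z]
  simp [pow_two]

theorem rt_cone {z : ℂ} (h : 0 ≤ z.re) : |(rt z).im| ≤ (rt z).re := by
  apply abs_le_of_sq_le_sq' _ (rt_re z) |> abs_le.mpr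
  have := re_eq_rt z
  linarith

theorem cone_inner {p q : ℂ} (hp : |p.im| ≤ p.re) (hq : |q.im| ≤ q.re) :
    0 ≤ p.re * q.re + p.im * q.im := by
  have h1 : |p.im * q.im| ≤ p.re * q.re := by
    rw [abs_mul]; exact mul_le_mul hp hq (abs_nonneg _) ((abs_nonneg _).trans hp)
  linarith [neg_abs_le (p.im * q.im)]

theorem cone_left {p q : ℂ} (hp : |p.im| ≤ p.re) (hq : |q.im| ≤ q.re) : ‖p‖ ≤ ‖p + q‖ := by
  apply le_of_sq (norm_nonneg _)
  have := cone_inner hp hq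
  rw [Complex.sq_norm, Complex.sq_norm, normSq_apply, normSq_apply, add_re, add_im]
  nlinarith [sq_nonneg q.re, sq_nonneg q.im]

theorem cone_sub {p q : ℂ} (hp : |p.im| ≤ p.re) (hq : |q.im| ≤ q.re) : ‖p - q‖ ≤ ‖p + q‖ := by
  apply le_of_sq (norm_nonneg _)
  have := cone_inner hp hq
  rw [Complex.sq_norm, Complex.sq_norm, normSq_apply, normSq_apply, add_re, add_im, sub_re, sub_im]
  nlinarith

/-- the square root of `64/27 - X^3` -/
noncomputable def sr (X : ℂ) : ℂ := rt (64 / 27 - X ^ 3)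

/-- the two-point weight -/
noncomputable def NN (X Y : ℂ) : ℝ := ‖sr X + sr Y‖

theorem NN_comm (X Y : ℂ) : NN X Y = NN Y X := by unfold NN; rw [add_comm]
theorem NN_nonneg (X Y : ℂ) : 0 ≤ NN X Y := norm_nonneg _

theorem sr_sq (X : ℂ) : sr X ^ 2 = 64 / 27 - X ^ 3 := rt_sq _
theorem norm_sr_sq (X : ℂ) : ‖sr X‖ ^ 2 = ‖64 / 27 - X ^ 3‖ := norm_rt_sq _

theorem norm_cube_le {X : ℂ} (h : ‖X‖ ≤ 4 / 3) : ‖X ^ 3‖ ≤ 64 / 27 := by
  rw [norm_pow]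
  have := pow_le_pow_left₀ (norm_nonneg X) h 3
  linarith

theorem sr_cone {X : ℂ} (h : ‖X‖ ≤ 4 / 3) : |(sr X).im| ≤ (sr X).re := by
  apply rt_cone
  have h1 := re_le_norm (X ^ 3)
  have h2 := norm_cube_le h
  have : (64 / 27 - X ^ 3 : ℂ).re = 64 / 27 - (X ^ 3).re := by
    rw [sub_re]; norm_num
  linarith

theorem sr_le_NN {X Y : ℂ} (hX : ‖X‖ ≤ 4 / 3) (hY : ‖Y‖ ≤ 4 / 3) : ‖sr X‖ ≤ NN X Y :=
  cone_left (sr_cone hX) (sr_cone hY)

theorem sr_sub_le_NN {X Y : ℂ} (hX : ‖X‖ ≤ 4 / 3) (hY : ‖Y‖ ≤ 4 / 3) :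
    ‖sr X - sr Y‖ ≤ NN X Y := cone_sub (sr_cone hX) (sr_cone hY)

theorem sr_sub_mul (X Y : ℂ) : ‖sr X - sr Y‖ * NN X Y = ‖X ^ 3 - Y ^ 3‖ := by
  unfold NN
  rw [← norm_mul, norm_sub_rev (X ^ 3)]
  congr 1
  linear_combination sr_sq X - sr_sq Y

theorem cube_lip {X Y : ℂ} {R : ℝ} (hX : ‖X‖ ≤ R) (hY : ‖Y‖ ≤ R) :
    ‖X ^ 3 - Y ^ 3‖ ≤ 3 * R ^ 2 * ‖X - Y‖ := by
  have e : X ^ 3 - Y ^ 3 = (X ^ 2 + X * Y + Y ^ 2) * (X - Y) := by ring
  rw [e, norm_mul]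
  apply mul_le_mul_of_nonneg_right _ (norm_nonneg _)
  have hR : 0 ≤ R := (norm_nonneg X).trans hX
  have h1 : ‖X ^ 2 + X * Y + Y ^ 2‖ ≤ ‖X‖ ^ 2 + ‖X‖ * ‖Y‖ + ‖Y‖ ^ 2 := by
    refine (norm_add₃_le).trans ?_
    rw [norm_pow, norm_pow, norm_mul]
  have h2 := pow_le_pow_left₀ (norm_nonneg X) hX 2
  have h3 := pow_le_pow_left₀ (norm_nonneg Y) hY 2
  have h4 := mul_le_mul hX hY (norm_nonneg _) hR
  nlinarith

theorem sr_sub_mul_le {X Y : ℂ} (hX : ‖X‖ ≤ 4 / 3) (hY : ‖Y‖ ≤ 4 / 3) :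
    ‖sr X - sr Y‖ * NN X Y ≤ 6 * ‖X - Y‖ := by
  rw [sr_sub_mul]
  have := cube_lip hX hY
  nlinarith [norm_nonneg (X - Y)]

theorem norm_V : ‖(64 / 27 : ℂ)‖ = 64 / 27 := by simp

theorem norm_sr_le {X : ℂ} (h : ‖X‖ ≤ 4 / 3) : ‖sr X‖ ≤ 5 / 2 := by
  apply le_of_sq (by norm_num)
  rw [norm_sr_sq]
  have h1 := norm_sub_le (64 / 27 : ℂ) (X ^ 3)
  have h2 := norm_cube_le h
  rw [norm_V] at h1
  linarith

theorem NN_le_add (X Y : ℂ) : NN X Y ≤ ‖sr X‖ + ‖sr Y‖ := norm_add_le _ _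

theorem NN_le {X Y : ℂ} (hX : ‖X‖ ≤ 4 / 3) (hY : ‖Y‖ ≤ 4 / 3) : NN X Y ≤ 5 := by
  have := NN_le_add X Y
  linarith [norm_sr_le hX, norm_sr_le hY]

theorem one_le_sr {X : ℂ} (h : ‖X‖ ≤ 1) : 1 ≤ ‖sr X‖ := by
  apply le_of_sq (norm_nonneg _)
  rw [norm_sr_sq]
  have h1 := norm_sub_norm_le (64 / 27 : ℂ) (X ^ 3)
  rw [norm_V, norm_pow] at h1
  have := pow_le_pow_left₀ (norm_nonneg X) h 3
  linarith

theorem close_le_NN {X Y : ℂ} (hX : ‖X‖ ≤ 4 / 3) (hY : ‖Y‖ ≤ 4 / 3) (h : ‖X - Y‖ ≤ 1 / 10) :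
    ‖X - Y‖ ≤ NN X Y ^ 2 := by
  rcases le_total ‖X‖ 1 with h1 | h1
  · have := (one_le_sr h1).trans (sr_le_NN hX hY)
    nlinarith
  · have h2 := sr_sub_mul X Y
    have h3 := mul_le_mul_of_nonneg_right (sr_sub_le_NN hX hY) (NN_nonneg X Y)
    have e : X ^ 3 - Y ^ 3 = (3 * X ^ 2 - (3 * X * (X - Y) - (X - Y) ^ 2)) * (X - Y) := by ring
    have h4 := norm_sub_norm_le (3 * X ^ 2) (3 * X * (X - Y) - (X - Y) ^ 2)
    have h5 := norm_sub_le (3 * X * (X - Y)) ((X - Y) ^ 2)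
    rw [norm_mul, norm_mul, norm_pow] at h5
    rw [norm_mul, norm_pow] at h4
    have n3 : ‖(3 : ℂ)‖ = 3 := by simp
    rw [n3] at h4 h5
    have hd := norm_nonneg (X - Y)
    have h6 : 1 ≤ ‖3 * X ^ 2 - (3 * X * (X - Y) - (X - Y) ^ 2)‖ := by
      have := mul_le_mul hX h hd (by norm_num)
      nlinarith
    rw [e, norm_mul] at h2
    nlinarith [mul_le_mul_of_nonneg_right h6 hd]

theorem In0.le {X : ℂ} (h : In0 X) : ‖X‖ ≤ 4 / 3 := norm_le_of_disc h.ne h.disc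
theorem In0.ge {X : ℂ} (h : In0 X) : 1 / 3 ≤ ‖X‖ := le_norm_of_disc h.ne h.disc

theorem In0.rt_ge {X : ℂ} (h : In0 X) : 1 / 2 ≤ ‖rt X‖ := by
  apply le_of_sq (norm_nonneg _); rw [norm_rt_sq]; linarith [h.ge]

theorem In0.rt_le {X : ℂ} (h : In0 X) : ‖rt X‖ ≤ 2 := by
  apply le_of_sq (by norm_num); rw [norm_rt_sq]; linarith [h.le]

theorem In0.rt_ne {X : ℂ} (h : In0 X) : rt X ≠ 0 := by
  intro e; have := h.rt_ge; rw [e, norm_zero] at this; linarith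

/-- the factor by which `sr` is multiplied under `f` -/
noncomputable def al (X : ℂ) : ℂ := rt X ^ 3 + 8 / 27 / rt X ^ 3

theorem al_mul {X : ℂ} (h : In0 X) : al X * rt X ^ 3 = X ^ 3 + 8 / 27 := by
  have := h.rt_ne
  unfold al
  field_simp
  conv_rhs => rw [← rt_sq X]
  ring

theorem al_sq {X : ℂ} (h : In0 X) : (al X * sr X) ^ 2 = 64 / 27 - f X ^ 3 := by
  have h0 := h.ne
  have h1 : (al X) ^ 2 * X ^ 3 = (X ^ 3 + 8 / 27) ^ 2 := by
    rw [← al_mul h]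
    conv_lhs => rw [← rt_sq X]
    have : al (rt X ^ 2) = al X := by rw [rt_sq]
    rw [this]; ring
  have h3 : X ^ 3 ≠ 0 := pow_ne_zero 3 h0
  apply mul_right_cancel₀ h3
  rw [mul_pow, sr_sq]
  have e : f X * X = X ^ 3 - 16 / 27 := by unfold f; field_simp
  have e3 : f X ^ 3 * X ^ 3 = (X ^ 3 - 16 / 27) ^ 3 := by rw [← mul_pow, e]
  linear_combination (64 / 27 - X ^ 3) * h1 + e3

theorem rt_cube_re {X : ℂ} (h : In0 X) : 0 ≤ (rt X ^ 3).re := by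
  have h1 := re_eq_rt X
  have h2 := norm_rt_sq X
  rw [Complex.sq_norm, normSq_apply] at h2
  have h3 := h.sec
  have h4 := rt_re X
  have e : (rt X ^ 3).re = (rt X).re * ((rt X).re ^ 2 - 3 * (rt X).im ^ 2) := by
    simp [pow_succ]; ring
  rw [e]
  apply mul_nonneg h4
  nlinarith

theorem al_re (X : ℂ) :
    (al X).re = (rt X ^ 3).re * (1 + 8 / 27 / normSq (rt X ^ 3)) := by
  unfold al
  rw [add_re, div_eq_mul_inv (8 / 27 : ℂ), show (8 / 27 : ℂ) = ((8 / 27 : ℝ) : ℂ) by push_cast; ring,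
    re_ofReal_mul, inv_re]
  ring

theorem al_eq_zero {X : ℂ} (h : In0 X) (h0 : (rt X ^ 3).re = 0) : al X = 0 := by
  have hw : X ^ 3 = -((((rt X ^ 3).im ^ 2 : ℝ)) : ℂ) := by
    have : X ^ 3 = (rt X ^ 3) ^ 2 := by
      conv_lhs => rw [← rt_sq X]
      ring
    rw [this]
    generalize rt X ^ 3 = u at h0
    apply Complex.ext <;> simp [pow_two, h0]
  set m := (rt X ^ 3).im ^ 2 with hm
  have hm0 : 0 ≤ m := sq_nonneg _
  have h1 : ‖X‖ ^ 3 = m := by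
    rw [← norm_pow, hw, norm_neg, norm_real, Real.norm_eq_abs, abs_of_nonneg hm0]
  have h2 := norm_cube_sub h.ne h.disc
  have h3 : ‖X ^ 3 - 16 / 27‖ = m + 16 / 27 := by
    rw [hw, show -((m : ℝ) : ℂ) - 16 / 27 = -((m + 16 / 27 : ℝ) : ℂ) by push_cast; ring,
      norm_neg, norm_real, Real.norm_eq_abs, abs_of_nonneg (by linarith)]
  have hr := norm_nonneg X
  have h4 : (‖X‖ - 2 / 3) ^ 2 * (‖X‖ + 4 / 3) ≤ 0 := by nlinarith
  have h5 : (‖X‖ - 2 / 3) ^ 2 ≤ 0 := by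
    by_contra hc
    push Not at hc
    have := mul_pos hc (by linarith : 0 < ‖X‖ + 4 / 3)
    linarith
  have h6 : ‖X‖ = 2 / 3 := by nlinarith
  have h7 : m = 8 / 27 := by rw [← h1, h6]; norm_num
  have h8 := al_mul h
  rw [hw, h7] at h8
  have h9 : al X * rt X ^ 3 = 0 := by rw [h8]; push_cast; ring
  exact (mul_eq_zero.mp h9).resolve_right (pow_ne_zero 3 h.rt_ne)

/-- the exact transformation rule of `sr` -/
theorem sr_f {X : ℂ} (h : In0 X) : sr (f X) = al X * sr X := by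
  have h1 : sr (f X) ^ 2 = (al X * sr X) ^ 2 := by rw [sr_sq, al_sq h]
  rcases sq_eq_sq_iff_eq_or_eq_neg.mp h1 with e | e
  · exact e
  · have c1 := cone_inner (sr_cone h.disc) (sr_cone h.le)
    have c2 : (sr (f X)).re * (sr X).re + (sr (f X)).im * (sr X).im
        = -((al X).re * normSq (sr X)) := by
      rw [e, normSq_apply]; simp; ring
    have hz : al X * sr X = 0 := by
      by_cases hs : sr X = 0
      · rw [hs, mul_zero]
      · have p1 : 0 < normSq (sr X) := normSq_pos.mpr hs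
        have p2 : 0 < 1 + 8 / 27 / normSq (rt X ^ 3) := by
          have := normSq_nonneg (rt X ^ 3); positivity
        have p3 := rt_cube_re h
        rw [c2, al_re X] at c1
        have p4 : (rt X ^ 3).re = 0 := by
          by_contra hc
          have := mul_pos (mul_pos (lt_of_le_of_ne p3 (Ne.symm hc)) p2) p1
          linarith
        rw [al_eq_zero h p4, zero_mul]
    rw [e, hz, neg_zero]

theorem norm_sr_f {X : ℂ} (h : In0 X) : ‖sr (f X)‖ ^ 2 ≤ 3 * ‖sr X‖ ^ 2 := by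
  rw [sr_f h, norm_mul, mul_pow]
  apply mul_le_mul_of_nonneg_right _ (sq_nonneg _)
  have h1 : ‖al X‖ * ‖rt X‖ ^ 3 ≤ ‖X‖ ^ 3 + 8 / 27 := by
    rw [← norm_pow, ← norm_mul, al_mul h]
    refine (norm_add_le _ _).trans ?_
    rw [norm_pow]; simp
  have h2 := pow_le_pow_left₀ (by positivity) h1 2
  have h3 : (‖rt X‖ ^ 3) ^ 2 = ‖X‖ ^ 3 := by rw [← norm_rt_sq X]; ring
  rw [mul_pow, h3] at h2
  have h4 := pow_le_pow_left₀ (norm_nonneg X) h.le 3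
  have h5 := pow_le_pow_left₀ (by norm_num) h.ge 3
  set q := ‖X‖ ^ 3
  have h6 : (q + 8 / 27) ^ 2 ≤ 3 * q := by
    nlinarith [mul_nonneg (sub_nonneg.mpr h4) (sub_nonneg.mpr h5)]
  have hq : 0 < q := by linarith
  exact le_of_mul_le_mul_right (h2.trans h6) hq

end Pool.Agent.Lib.MP_6f5a85_an
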