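import Pool.Agent.Lib.MP_6f5a85_an.Defs

namespace Pool.Agent.Lib.MP_6f5a85_an

open Complex Real

/-- points of the closed sector of half-angle `π/3` that are mapped into the disc -/
structure In0 (X : ℂ) : Prop where
  ne : X ≠ 0
  disc : ‖f X‖ ≤ 4 / 3
  sec : ‖X‖ ≤ 2 * X.re

theorem norm_cube_sub {X : ℂ} (h0 : X ≠ 0) (h : ‖f X‖ ≤ 4 / 3) :
    ‖X ^ 3 - 16 / 27‖ ≤ 4 / 3 * ‖X‖ := by
  have hp : 0 < ‖X‖ := norm_pos_iff.mpr h0
  unfold f at h
  rw [norm_div, div_le_iff₀ hp] at h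
  exact h

theorem norm_L : ‖(16 / 27 : ℂ)‖ = 16 / 27 := by
  simp

theorem le_of_sq {a b : ℝ} (hb : 0 ≤ b) (h : a ^ 2 ≤ b ^ 2) : a ≤ b :=
  (abs_le_of_sq_le_sq' h hb).2

theorem norm_le_of_disc {X : ℂ} (h0 : X ≠ 0) (h : ‖f X‖ ≤ 4 / 3) : ‖X‖ ≤ 4 / 3 := by
  have h1 := norm_cube_sub h0 h
  have h2 : ‖X ^ 3‖ - ‖(16 / 27 : ℂ)‖ ≤ ‖X ^ 3 - 16 / 27‖ := norm_sub_norm_le _ _
  rw [norm_pow, norm_L] at h2
  by_contra hc
  push Not at hc
  have hp : 0 < (‖X‖ - 4 / 3) * (‖X‖ + 2 / 3) ^ 2 := by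
    have : 0 < ‖X‖ - 4 / 3 := by linarith
    positivity
  nlinarith

theorem le_norm_of_disc {X : ℂ} (h0 : X ≠ 0) (h : ‖f X‖ ≤ 4 / 3) : 1 / 3 ≤ ‖X‖ := by
  have h1 := norm_cube_sub h0 h
  have h2 : ‖(16 / 27 : ℂ)‖ - ‖X ^ 3‖ ≤ ‖16 / 27 - X ^ 3‖ := norm_sub_norm_le _ _
  rw [norm_pow, norm_L, norm_sub_rev] at h2
  by_contra hc
  push Not at hc
  have hp := norm_nonneg X
  have : ‖X‖ ^ 3 ≤ (1 / 3) ^ 3 := pow_le_pow_left₀ hp hc.le 3
  nlinarith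

theorem sq_norm_add_real (z : ℂ) (a : ℝ) : ‖z + a‖ ^ 2 = ‖z‖ ^ 2 + 2 * a * z.re + a ^ 2 := by
  rw [Complex.sq_norm, Complex.sq_norm, normSq_apply, normSq_apply]
  simp; ring

theorem polar_re (r θ : ℝ) : ((r : ℂ) * cexp (θ * I)).re = r * Real.cos θ := by
  rw [re_ofReal_mul, exp_ofReal_mul_I_re]

theorem polar_norm (r θ : ℝ) (hr : 0 ≤ r) : ‖(r : ℂ) * cexp (θ * I)‖ = r := by
  rw [norm_mul, norm_exp_ofReal_mul_I]; simp [abs_of_nonneg hr]

theorem polar_dist (r s θ φ : ℝ) :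
    ‖(r : ℂ) * cexp (θ * I) - (s : ℂ) * cexp (φ * I)‖ ^ 2
      = (r - s) ^ 2 + 2 * r * s * (1 - Real.cos (θ - φ)) := by
  rw [Complex.sq_norm, normSq_apply, Real.cos_sub]
  simp only [sub_re, sub_im, re_ofReal_mul, im_ofReal_mul, exp_ofReal_mul_I_re,
    exp_ofReal_mul_I_im]
  have h1 := Real.sin_sq_add_cos_sq θ
  have h2 := Real.sin_sq_add_cos_sq φ
  linear_combination r ^ 2 * h1 + s ^ 2 * h2

theorem exists_polar {X : ℂ} (h0 : X ≠ 0) (h : ‖X‖ ≤ 2 * X.re) :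
    ∃ θ : ℝ, |θ| ≤ π / 3 ∧ X = (‖X‖ : ℂ) * cexp (θ * I) := by
  refine ⟨arg X, ?_, (norm_mul_exp_arg_mul_I X).symm⟩
  have hp : 0 < ‖X‖ := norm_pos_iff.mpr h0
  have hc : 1 / 2 ≤ Real.cos (arg X) := by
    rw [cos_arg h0, le_div_iff₀ hp]; linarith
  by_contra hlt
  push Not at hlt
  have h1 : Real.cos |arg X| < Real.cos (π / 3) :=
    Real.cos_lt_cos_of_nonneg_of_le_pi (by positivity) (abs_arg_le_pi X) hlt
  rw [Real.cos_abs, Real.cos_pi_div_three] at h1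
  linarith

theorem one_sub_cos_three (a : ℝ) : 1 - Real.cos (3 * a) ≤ 9 * (1 - Real.cos a) := by
  rw [Real.cos_three_mul]
  have h1 := Real.cos_le_one a
  have h2 := Real.neg_one_le_cos a
  nlinarith [mul_nonneg (sub_nonneg.mpr h1) (mul_nonneg (sub_nonneg.mpr h1) (by linarith : 0 ≤ Real.cos a + 2))]

theorem cos_ge_of_abs_le {t a : ℝ} (ha : 0 ≤ a) (h : |t| ≤ π - a) :
    1 - Real.cos a ≤ 1 + Real.cos t := by
  have h1 : Real.cos (π - a) ≤ Real.cos |t| :=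
    Real.cos_le_cos_of_nonneg_of_le_pi (abs_nonneg t) (by linarith) h
  rw [Real.cos_pi_sub, Real.cos_abs] at h1
  linarith

theorem trig_T1 {α t : ℝ} (ha : |α| ≤ π / 3) (ht : |t| ≤ |α| + 2 * π / 3) :
    1 + Real.cos (3 * α) ≤ 9 * (1 + Real.cos t) := by
  have h1 := cos_ge_of_abs_le (t := t) (a := π / 3 - |α|) (by linarith) (by linarith)
  have h2 := one_sub_cos_three (π / 3 - |α|)
  have h3 : Real.cos (3 * (π / 3 - |α|)) = - Real.cos (3 * α) := by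
    rw [show 3 * (π / 3 - |α|) = π - |3 * α| by rw [abs_mul]; norm_num; ring, Real.cos_pi_sub,
      Real.cos_abs]
  linarith

theorem cube_polar (r θ : ℝ) :
    ((r : ℂ) * cexp (θ * I)) ^ 3 = ((r ^ 3 : ℝ) : ℂ) * cexp (((3 * θ : ℝ) : ℂ) * I) := by
  rw [mul_pow, ← Complex.exp_nat_mul]; push_cast; ring_nf

/-- the radial deviation is controlled by the angular one -/
theorem radial {X : ℂ} {θ : ℝ} (h0 : X ≠ 0) (h : ‖f X‖ ≤ 4 / 3)
    (hX : X = (‖X‖ : ℂ) * cexp (θ * I)) :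
    (‖X‖ - 2 / 3) ^ 2 ≤ 4 * (1 + Real.cos (3 * θ)) := by
  have h1 := norm_cube_sub h0 h
  have hu := norm_le_of_disc h0 h
  have hre : (X ^ 3).re = ‖X‖ ^ 3 * Real.cos (3 * θ) := by
    conv_lhs => rw [hX, cube_polar, polar_re]
  have h2 := sq_norm_add_real (X ^ 3) (-(16 / 27))
  have e : X ^ 3 + ((-(16 / 27) : ℝ) : ℂ) = X ^ 3 - 16 / 27 := by push_cast; ring
  rw [e, hre, norm_pow] at h2
  have h3 : ‖X ^ 3 - 16 / 27‖ ^ 2 ≤ (4 / 3 * ‖X‖) ^ 2 := pow_le_pow_left₀ (norm_nonneg _) h1 2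
  set r := ‖X‖ with hr
  have hr0 : 0 ≤ r := norm_nonneg X
  set c := 1 + Real.cos (3 * θ) with hc
  have hc0 : 0 ≤ c := by have := Real.neg_one_le_cos (3 * θ); linarith
  have h4 : (r - 2 / 3) ^ 2 * ((r + 4 / 3) * (r ^ 3 + 4 / 3 * r + 16 / 27))
      ≤ 32 / 27 * r ^ 3 * c := by
    have : Real.cos (3 * θ) = c - 1 := by linarith
    rw [this] at h2
    nlinarith
  have h5 : 4 / 3 * (16 / 27) ≤ (r + 4 / 3) * (r ^ 3 + 4 / 3 * r + 16 / 27) := by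
    have : 0 ≤ r ^ 3 := by positivity
    nlinarith
  have h6 : r ^ 3 ≤ (4 / 3) ^ 3 := pow_le_pow_left₀ hr0 hu 3
  have h7 := mul_le_mul_of_nonneg_left h5 (sq_nonneg (r - 2 / 3))
  have h8 := mul_le_mul_of_nonneg_right h6 hc0
  nlinarith

theorem crit_le {X : ℂ} {θ : ℝ} (h0 : X ≠ 0) (h : ‖f X‖ ≤ 4 / 3)
    (hX : X = (‖X‖ : ℂ) * cexp (θ * I)) :
    ‖X ^ 3 + 8 / 27‖ ^ 2 ≤ 42 * (1 + Real.cos (3 * θ)) := by
  have h1 := radial h0 h hX
  have hu := norm_le_of_disc h0 h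
  have hre : (X ^ 3).re = ‖X‖ ^ 3 * Real.cos (3 * θ) := by
    conv_lhs => rw [hX, cube_polar, polar_re]
  have h2 := sq_norm_add_real (X ^ 3) (8 / 27)
  have e : X ^ 3 + ((8 / 27 : ℝ) : ℂ) = X ^ 3 + 8 / 27 := by push_cast; ring
  rw [e, hre, norm_pow] at h2
  set r := ‖X‖ with hr
  have hr0 : 0 ≤ r := norm_nonneg X
  set c := 1 + Real.cos (3 * θ) with hc
  have hc0 : 0 ≤ c := by have := Real.neg_one_le_cos (3 * θ); linarith
  have e2 : Real.cos (3 * θ) = c - 1 := by linarith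
  have h6 : r ^ 3 ≤ (4 / 3) ^ 3 := pow_le_pow_left₀ hr0 hu 3
  have h8 := mul_le_mul_of_nonneg_right h6 hc0
  have h9 : (r ^ 2 + 2 / 3 * r + 4 / 9) ^ 2 ≤ 10 := by
    have a1 : r ^ 2 + 2 / 3 * r + 4 / 9 ≤ 28 / 9 := by nlinarith
    have a2 : (r ^ 2 + 2 / 3 * r + 4 / 9) ^ 2 ≤ (28 / 9) ^ 2 :=
      pow_le_pow_left₀ (by positivity) a1 2
    linarith
  have h10 := mul_le_mul h1 h9 (by positivity) (by positivity)
  rw [h2, e2]
  nlinarith

/-- the divided difference of `f` -/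
noncomputable def dd (X Y : ℂ) : ℂ := X + Y + 16 / 27 / (X * Y)

theorem f_sub {X Y : ℂ} (hX : X ≠ 0) (hY : Y ≠ 0) : f X - f Y = (X - Y) * dd X Y := by
  unfold f dd; field_simp; ring

theorem dd_comm (X Y : ℂ) : dd X Y = dd Y X := by unfold dd; ring

/-- lower bound for the divided difference on the sector -/
theorem key {X Y : ℂ} (hX : In0 X) (hY : In0 Y) :
    ‖X ^ 3 + 8 / 27‖ ≤ 200 * ‖dd X Y‖ ∧ ‖X - Y‖ ≤ 200 * ‖dd X Y‖ := by
  obtain ⟨α, hα, eX⟩ := exists_polar hX.ne hX.sec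
  obtain ⟨β, hβ, eY⟩ := exists_polar hY.ne hY.sec
  have lX := le_norm_of_disc hX.ne hX.disc
  have lY := le_norm_of_disc hY.ne hY.disc
  have uX := norm_le_of_disc hX.ne hX.disc
  have uY := norm_le_of_disc hY.ne hY.disc
  have hZ : 1 / 3 ≤ ‖X + Y‖ := by
    have := re_le_norm (X + Y)
    have h1 := hX.sec; have h2 := hY.sec
    rw [add_re] at this; linarith
  have hZ0 : X + Y ≠ 0 := by
    intro h; rw [h, norm_zero] at hZ; linarith
  have hZs : ‖X + Y‖ ≤ 2 * (X + Y).re := by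
    have := norm_add_le X Y
    have h1 := hX.sec; have h2 := hY.sec
    rw [add_re]; linarith
  obtain ⟨γ, hγ, eZ⟩ := exists_polar hZ0 hZs
  set ρ := ‖X‖ * ‖Y‖ * ‖X + Y‖ with hρ
  have hρ1 : 1 / 27 ≤ ρ := by
    have a1 : 1 / 3 * (1 / 3) ≤ ‖X‖ * ‖Y‖ := mul_le_mul lX lY (by norm_num) (norm_nonneg _)
    have a2 := mul_le_mul a1 hZ (by norm_num) (by positivity)
    linarith
  have eW : X * Y * (X + Y) = (ρ : ℂ) * cexp (((α + β + γ : ℝ) : ℂ) * I) := by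
    calc X * Y * (X + Y) = ((‖X‖ : ℂ) * cexp (α * I)) * ((‖Y‖ : ℂ) * cexp (β * I)) *
          ((‖X + Y‖ : ℂ) * cexp (γ * I)) := by rw [← eX, ← eY, ← eZ]
      _ = _ := by
        rw [hρ]; push_cast
        rw [add_mul, add_mul, Complex.exp_add, Complex.exp_add]
        ring
  set τ := 1 + Real.cos (α + β + γ) with hτ
  have hτ0 : 0 ≤ τ := by have := Real.neg_one_le_cos (α + β + γ); linarith
  have hW : τ / 23 ≤ ‖X * Y * (X + Y) + 16 / 27‖ ^ 2 := by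
    have h2 := sq_norm_add_real (X * Y * (X + Y)) (16 / 27)
    have e : X * Y * (X + Y) + ((16 / 27 : ℝ) : ℂ) = X * Y * (X + Y) + 16 / 27 := by
      push_cast; ring
    have e1 : (X * Y * (X + Y)).re = ρ * (τ - 1) := by rw [eW, polar_re, hτ]; ring
    have e2 : ‖X * Y * (X + Y)‖ = ρ := by rw [norm_mul, norm_mul]
    rw [e, e1, e2] at h2
    rw [h2]
    nlinarith [sq_nonneg (ρ - 16 / 27), mul_le_mul_of_nonneg_right hρ1 hτ0]
  have hD : τ ≤ 73 * ‖dd X Y‖ ^ 2 := by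
    have e : X * Y * (X + Y) + 16 / 27 = X * Y * dd X Y := by
      have := hX.ne; have := hY.ne
      unfold dd; field_simp
    rw [e, norm_mul, norm_mul, mul_pow] at hW
    have a1 : ‖X‖ * ‖Y‖ ≤ 4 / 3 * (4 / 3) := mul_le_mul uX uY (norm_nonneg _) (by norm_num)
    have a2 : (‖X‖ * ‖Y‖) ^ 2 ≤ (4 / 3 * (4 / 3)) ^ 2 := pow_le_pow_left₀ (by positivity) a1 2
    have a3 := mul_le_mul_of_nonneg_right a2 (sq_nonneg ‖dd X Y‖)
    nlinarith [sq_nonneg ‖dd X Y‖]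
  have hab := abs_le.mp hα
  have hbb := abs_le.mp hβ
  have hgb := abs_le.mp hγ
  have t1 : 1 + Real.cos (3 * α) ≤ 9 * τ := by
    apply trig_T1 hα
    rw [abs_le]; constructor <;> linarith [le_abs_self α, neg_abs_le α]
  have t2 : 1 + Real.cos (3 * β) ≤ 9 * τ := by
    apply trig_T1 hβ
    rw [abs_le]; constructor <;> linarith [le_abs_self β, neg_abs_le β]
  have t3 : 1 - Real.cos (α - β) ≤ τ := by
    rw [← Real.cos_abs]
    apply cos_ge_of_abs_le (abs_nonneg _)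
    rcases le_total α β with h | h
    · rw [abs_of_nonpos (by linarith : α - β ≤ 0), abs_le]; constructor <;> linarith
    · rw [abs_of_nonneg (by linarith : 0 ≤ α - β), abs_le]; constructor <;> linarith
  have hd := norm_nonneg (dd X Y)
  constructor
  · have := crit_le hX.ne hX.disc eX
    apply le_of_sq (by positivity)
    nlinarith
  · have r1 := radial hX.ne hX.disc eX
    have r2 := radial hY.ne hY.disc eY
    have e := polar_dist ‖X‖ ‖Y‖ α β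
    rw [← eX, ← eY] at e
    have a1 : ‖X‖ * ‖Y‖ ≤ 4 / 3 * (4 / 3) := mul_le_mul uX uY (norm_nonneg _) (by norm_num)
    have a0 : 0 ≤ 1 - Real.cos (α - β) := by have := Real.cos_le_one (α - β); linarith
    have a2 := mul_le_mul a1 t3 a0 (by norm_num)
    apply le_of_sq (by positivity)
    nlinarith [sq_nonneg (‖X‖ + ‖Y‖ - 4 / 3)]

/-- the angle condition at a critical point -/
theorem cross {X Y : ℂ} (hX : In0 X) (hY : In0 Y) {σ : ℝ} (hσ : σ = 1 ∨ σ = -1) :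
    ‖X - ((2 / 3 : ℝ) : ℂ) * cexp (((σ * (π / 3) : ℝ) : ℂ) * I)‖
      ≤ 14 * ‖X - cexp (((σ * (2 * π / 3) : ℝ) : ℂ) * I) * Y‖ := by
  obtain ⟨α, hα, eX⟩ := exists_polar hX.ne hX.sec
  obtain ⟨β, hβ, eY⟩ := exists_polar hY.ne hY.sec
  have lX := le_norm_of_disc hX.ne hX.disc
  have lY := le_norm_of_disc hY.ne hY.disc
  have uX := norm_le_of_disc hX.ne hX.disc
  have hab := abs_le.mp hα
  have hbb := abs_le.mp hβ
  have e1 := polar_dist ‖X‖ (2 / 3) α (σ * (π / 3))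
  rw [← eX] at e1
  have e2 := polar_dist ‖X‖ ‖Y‖ α (β + σ * (2 * π / 3))
  have e3 : (‖Y‖ : ℂ) * cexp (((β + σ * (2 * π / 3) : ℝ) : ℂ) * I)
      = cexp (((σ * (2 * π / 3) : ℝ) : ℂ) * I) * Y := by
    conv_rhs => rw [eY]
    rw [ofReal_add, add_mul, Complex.exp_add]; ring
  rw [← eX, e3] at e2
  have r1 := radial hX.ne hX.disc eX
  obtain ⟨a, b, ha0, ha1, hb0, hb1, c1, c2, c3⟩ : ∃ a b : ℝ, 0 ≤ a ∧ a ≤ 2 * π / 3 ∧ 0 ≤ b ∧
      b ≤ 2 * π / 3 ∧ Real.cos (α - σ * (π / 3)) = Real.cos a ∧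
      Real.cos (α - (β + σ * (2 * π / 3))) = Real.cos (a + b) ∧
      Real.cos (3 * α) = - Real.cos (3 * a) := by
    rcases hσ with rfl | rfl
    · refine ⟨π / 3 - α, β + π / 3, by linarith, by linarith, by linarith, by linarith, ?_, ?_, ?_⟩
      · rw [← Real.cos_neg]; congr 1; ring
      · rw [← Real.cos_neg]; congr 1; ring
      · rw [← Real.cos_pi_sub]; congr 1; ring
    · refine ⟨π / 3 + α, π / 3 - β, by linarith, by linarith, by linarith, by linarith, ?_, ?_, ?_⟩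
      · congr 1; ring
      · congr 1; ring
      · rw [← Real.cos_pi_sub, ← Real.cos_neg]; congr 1; ring
  have hpi := Real.pi_pos
  have m : Real.cos (a + b) ≤ Real.cos a := by
    rcases le_total (a + b) π with h | h
    · exact Real.cos_le_cos_of_nonneg_of_le_pi ha0 h (by linarith)
    · have : Real.cos (2 * π - (a + b)) ≤ Real.cos a :=
        Real.cos_le_cos_of_nonneg_of_le_pi ha0 (by linarith) (by linarith)
      rwa [Real.cos_two_pi_sub] at this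
  have t := one_sub_cos_three a
  have a0 : 0 ≤ 1 - Real.cos a := by have := Real.cos_le_one a; linarith
  have a1 : 1 / 3 * (1 / 3) ≤ ‖X‖ * ‖Y‖ := mul_le_mul lX lY (by norm_num) (norm_nonneg _)
  have a2 := mul_le_mul a1 (by linarith : 1 - Real.cos a ≤ 1 - Real.cos (a + b)) a0 (by positivity)
  have a3 := mul_le_mul_of_nonneg_right uX a0
  rw [c1] at e1; rw [c2] at e2; rw [c3] at r1
  apply le_of_sq (by positivity)
  rw [mul_pow, e1, e2]
  nlinarith [sq_nonneg (‖X‖ - ‖Y‖)]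

end Pool.Agent.Lib.MP_6f5a85_an
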