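import Pool.Agent.Lib.MP_6f5a85_an.Root

namespace Pool.Agent.Lib.MP_6f5a85_an

open Complex

/-- the reciprocal of the derivative of `f` in the metric `|z^3 - 64/27|^(-1/2) |dz|` -/
noncomputable def lam (X : ℂ) : ℝ := √‖X‖ / 2

theorem norm_rt (X : ℂ) : ‖rt X‖ = 2 * lam X := by
  unfold lam
  rw [← norm_rt_sq X, Real.sqrt_sq (norm_nonneg _)]; ring

theorem In0.rt_cone' {X : ℂ} (h : In0 X) : |(rt X).im| ≤ (rt X).re := by
  apply rt_cone; have := h.sec; have := norm_nonneg X; linarith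

theorem rt_lip {X Y : ℂ} (hX : In0 X) (hY : In0 Y) : ‖rt X - rt Y‖ ≤ 2 * ‖X - Y‖ := by
  have h1 : ‖rt X - rt Y‖ * ‖rt X + rt Y‖ = ‖X - Y‖ := by
    rw [← norm_mul]; congr 1; linear_combination rt_sq X - rt_sq Y
  have h2 := hX.rt_ge.trans (cone_left hX.rt_cone' hY.rt_cone')
  nlinarith [mul_le_mul_of_nonneg_left h2 (norm_nonneg (rt X - rt Y))]

theorem cube_ge {X : ℂ} (h : In0 X) : 1 / 8 ≤ ‖rt X‖ ^ 3 := by
  have := pow_le_pow_left₀ (by norm_num) h.rt_ge 3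
  linarith

theorem al_le {X Y : ℂ} (hX : In0 X) (hY : In0 Y) : ‖al X‖ ≤ 1600 * ‖dd X Y‖ := by
  have h1 : ‖al X‖ * ‖rt X‖ ^ 3 = ‖X ^ 3 + 8 / 27‖ := by rw [← norm_pow, ← norm_mul, al_mul hX]
  have h2 := (key hX hY).1
  nlinarith [mul_le_mul_of_nonneg_left (cube_ge hX) (norm_nonneg (al X))]

theorem al_lip {X Y : ℂ} (hX : In0 X) (hY : In0 Y) : ‖al X - al Y‖ ≤ 480 * ‖X - Y‖ := by
  have n1 := hX.rt_ne
  have n2 := hY.rt_ne
  have e : al X - al Y = (rt X ^ 3 - rt Y ^ 3) * (1 - 8 / 27 / (rt X ^ 3 * rt Y ^ 3)) := by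
    unfold al; field_simp; ring
  have h1 := cube_lip hX.rt_le hY.rt_le
  have h2 := rt_lip hX hY
  have h3 : ‖(1 : ℂ) - 8 / 27 / (rt X ^ 3 * rt Y ^ 3)‖ ≤ 20 := by
    refine (norm_sub_le _ _).trans ?_
    rw [norm_one, norm_div, norm_mul, norm_pow, norm_pow]
    have a1 := mul_le_mul (cube_ge hX) (cube_ge hY) (by norm_num) (by positivity)
    have a2 : ‖(8 / 27 : ℂ)‖ = 8 / 27 := by simp
    have a3 : 8 / 27 / (‖rt X‖ ^ 3 * ‖rt Y‖ ^ 3) ≤ 19 := by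
      rw [div_le_iff₀ (by linarith)]; linarith
    rw [a2]; linarith
  rw [e, norm_mul]
  have h4 : ‖rt X ^ 3 - rt Y ^ 3‖ ≤ 24 * ‖X - Y‖ := by linarith
  have := mul_le_mul h4 h3 (norm_nonneg _) (by positivity)
  linarith

theorem e1_le {X Y : ℂ} (hX : In0 X) (hY : In0 Y) :
    ‖rt X * dd X Y - (al X + al Y)‖ ≤ 16000 * (‖X - Y‖ * ‖dd X Y‖) := by
  have n1 := hX.rt_ne
  have n2 := hY.rt_ne
  have e : rt X * dd X Y - (al X + al Y) = al Y * (rt X - rt Y) / rt Y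
      - rt X * (8 / 27) * (X - Y) ^ 2 / (X * Y) ^ 2 := by
    have eX := rt_sq X
    have eY := rt_sq Y
    unfold dd al
    generalize rt X = p at *
    generalize rt Y = q at *
    subst eX eY
    field_simp
    ring
  have hd := norm_nonneg (X - Y)
  have hF := norm_nonneg (dd X Y)
  have h1 : ‖al Y * (rt X - rt Y) / rt Y‖ ≤ 6400 * (‖X - Y‖ * ‖dd X Y‖) := by
    rw [norm_div, norm_mul, div_le_iff₀ (by linarith [hY.rt_ge])]
    have a1 := al_le hY hX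
    rw [dd_comm Y X] at a1
    have a2 := mul_le_mul a1 (rt_lip hX hY) (norm_nonneg _) (by positivity)
    have a3 := mul_le_mul_of_nonneg_left hY.rt_ge (mul_nonneg hd hF)
    nlinarith
  have h2 : ‖rt X * (8 / 27) * (X - Y) ^ 2 / (X * Y) ^ 2‖ ≤ 9600 * (‖X - Y‖ * ‖dd X Y‖) := by
    have a0 := mul_le_mul hX.ge hY.ge (by norm_num) (norm_nonneg _)
    have a1 := pow_le_pow_left₀ (by norm_num) a0 2
    have a2 : ‖(8 / 27 : ℂ)‖ = 8 / 27 := by simp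
    rw [norm_div, norm_mul, norm_mul, norm_pow, norm_pow, norm_mul, a2,
      div_le_iff₀ (by linarith)]
    have a3 := mul_le_mul_of_nonneg_left (key hX hY).2 hd
    have a4 := mul_le_mul_of_nonneg_right hX.rt_le (sq_nonneg ‖X - Y‖)
    have a5 := mul_le_mul_of_nonneg_left a1 (mul_nonneg hd hF)
    nlinarith
  rw [e]
  refine (norm_sub_le _ _).trans ?_
  linarith

theorem sr_sub_le {X Y : ℂ} (hX : In0 X) (hY : In0 Y) :
    ‖sr X - sr Y‖ ≤ 1200 * (‖dd X Y‖ * NN X Y) := by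
  have hF := norm_nonneg (dd X Y)
  have hN := NN_nonneg X Y
  have h0 := sr_sub_le_NN hX.le hY.le
  obtain ⟨k1, k2⟩ := key hX hY
  rcases le_total ‖64 / 27 - X ^ 3‖ 1 with h | h
  · have a1 := norm_add_le (64 / 27 - X ^ 3) (X ^ 3 + 8 / 27)
    have a2 : ‖64 / 27 - X ^ 3 + (X ^ 3 + 8 / 27)‖ = 8 / 3 := by
      rw [show 64 / 27 - X ^ 3 + (X ^ 3 + 8 / 27) = (8 / 3 : ℂ) by ring]; simp
    have a3 : 1 ≤ 200 * ‖dd X Y‖ := by linarith
    nlinarith [mul_le_mul_of_nonneg_right a3 hN]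
  · have a1 : 1 ≤ ‖sr X‖ := by
      apply le_of_sq (norm_nonneg _); rw [norm_sr_sq]; linarith
    have a2 := a1.trans (sr_le_NN hX.le hY.le)
    have a3 := sr_sub_mul_le hX.le hY.le
    have a4 := mul_le_mul_of_nonneg_left a2 (norm_nonneg (sr X - sr Y))
    have a5 := mul_le_mul_of_nonneg_left a2 hF
    nlinarith

/-- the two-point distortion estimate -/
theorem two_point {X Y : ℂ} (hX : In0 X) (hY : In0 Y) :
    |NN (f X) (f Y) - lam X * (‖dd X Y‖ * NN X Y)|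
      ≤ 300000 * (‖X - Y‖ * (‖dd X Y‖ * NN X Y)) := by
  have e0 : lam X * (‖dd X Y‖ * NN X Y) = ‖rt X / 2 * dd X Y * (sr X + sr Y)‖ := by
    rw [norm_mul, norm_mul, norm_div, norm_rt]; unfold NN; simp; ring
  have e1 : sr (f X) + sr (f Y) - rt X / 2 * dd X Y * (sr X + sr Y)
      = (al X - al Y) * (sr X - sr Y) / 2
        - (rt X * dd X Y - (al X + al Y)) * (sr X + sr Y) / 2 := by
    rw [sr_f hX, sr_f hY]; ring
  rw [e0]
  refine (abs_norm_sub_norm_le _ _).trans ?_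
  rw [e1]
  refine (norm_sub_le _ _).trans ?_
  have n2 : ‖(2 : ℂ)‖ = 2 := by simp
  rw [norm_div, norm_div, norm_mul, norm_mul, n2]
  have a1 := mul_le_mul (al_lip hX hY) (sr_sub_le hX hY) (norm_nonneg _) (by positivity)
  have a2 := mul_le_mul_of_nonneg_right (e1_le hX hY) (NN_nonneg X Y)
  have a3 : 0 ≤ ‖X - Y‖ * (‖dd X Y‖ * NN X Y) := by have := NN_nonneg X Y; positivity
  change _ + _ * NN X Y / 2 ≤ _
  nlinarith

theorem lam_sq (X : ℂ) : lam X ^ 2 = ‖X‖ / 4 := by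
  unfold lam; rw [div_pow, Real.sq_sqrt (norm_nonneg _)]; norm_num

theorem lam_nonneg (X : ℂ) : 0 ≤ lam X := by unfold lam; positivity

theorem lam_ge {X : ℂ} (h : 1 / 3 ≤ ‖X‖) : 1 / 4 ≤ lam X := by
  apply le_of_sq (lam_nonneg X); rw [lam_sq]; linarith

theorem lam_ge' {X : ℂ} (h : 4 / 9 ≤ ‖X‖) : 1 / 3 ≤ lam X := by
  apply le_of_sq (lam_nonneg X); rw [lam_sq]; linarith

/-- the number `3^(-1/2)` -/
noncomputable def th : ℝ := (√3)⁻¹

theorem th_pos : 0 < th := by unfold th; positivity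
theorem th_sq : th ^ 2 = 1 / 3 := by
  unfold th; rw [inv_pow, Real.sq_sqrt (by norm_num)]; norm_num
theorem th_le : th ≤ 3 / 5 := by apply le_of_sq (by norm_num); rw [th_sq]; norm_num

theorem lam_le {X : ℂ} (h : ‖X‖ ≤ 4 / 3) : lam X ≤ th := by
  apply le_of_sq th_pos.le; rw [lam_sq, th_sq]; linarith

theorem lam_eq {X : ℂ} (h : ‖X‖ = 4 / 3) : lam X = th := by
  apply le_antisymm (lam_le h.le)
  apply le_of_sq (lam_nonneg X); rw [lam_sq, th_sq, h]; norm_num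

theorem lam_dist {X Y : ℂ} (h : 1 / 3 ≤ ‖Y‖) : lam X ≤ Real.exp (3 * ‖X - Y‖) * lam Y := by
  have hd := norm_nonneg (X - Y)
  have h1 : 1 + 3 * ‖X - Y‖ ≤ Real.exp (3 * ‖X - Y‖) := by
    linarith [Real.add_one_le_exp (3 * ‖X - Y‖)]
  apply le_of_sq (mul_nonneg (Real.exp_pos _).le (lam_nonneg Y))
  rw [mul_pow, lam_sq, lam_sq]
  have h2 : ‖X‖ ≤ ‖Y‖ + ‖X - Y‖ := by linarith [norm_sub_norm_le X Y]
  have h3 : 1 + 3 * ‖X - Y‖ ≤ Real.exp (3 * ‖X - Y‖) ^ 2 := by nlinarith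
  have h4 := mul_le_mul_of_nonneg_right h3 (norm_nonneg Y)
  nlinarith [mul_le_mul_of_nonneg_left h hd]

theorem norm_f_sub {X Y : ℂ} (hX : In0 X) (hY : In0 Y) :
    ‖f X - f Y‖ = ‖X - Y‖ * ‖dd X Y‖ := by rw [f_sub hX.ne hY.ne, norm_mul]

theorem step_A {X Y : ℂ} (hX : In0 X) (hY : In0 Y) :
    ‖X - Y‖ * NN (f X) (f Y)
      ≤ Real.exp (1200000 * ‖X - Y‖) * lam X * (‖f X - f Y‖ * NN X Y) := by
  have h1 := (abs_le.mp (two_point hX hY)).2
  have h2 := lam_ge hX.ge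
  have hd := norm_nonneg (X - Y)
  have h3 : 0 ≤ ‖dd X Y‖ * NN X Y := mul_nonneg (norm_nonneg _) (NN_nonneg _ _)
  have h4 := Real.add_one_le_exp (1200000 * ‖X - Y‖)
  set P := ‖dd X Y‖ * NN X Y with hP
  have h5 : NN (f X) (f Y) ≤ Real.exp (1200000 * ‖X - Y‖) * lam X * P := by
    have a1 := mul_le_mul_of_nonneg_right h4 (mul_nonneg (lam_nonneg X) h3)
    have a2 := mul_le_mul_of_nonneg_right h2 (mul_nonneg hd h3)
    nlinarith
  rw [norm_f_sub hX hY]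
  have := mul_le_mul_of_nonneg_left h5 hd
  calc _ ≤ _ := this
    _ = _ := by rw [hP]; ring

theorem step_B {X Y : ℂ} (hX : In0 X) (hY : In0 Y) (hs : ‖X - Y‖ ≤ 1 / 2400000) :
    lam X * (‖f X - f Y‖ * NN X Y)
      ≤ Real.exp (2400000 * ‖X - Y‖) * (‖X - Y‖ * NN (f X) (f Y)) := by
  have h1 := (abs_le.mp (two_point hX hY)).1
  have h2 := lam_ge hX.ge
  have hd := norm_nonneg (X - Y)
  have h3 : 0 ≤ ‖dd X Y‖ * NN X Y := mul_nonneg (norm_nonneg _) (NN_nonneg _ _)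
  have h4 := Real.add_one_le_exp (2400000 * ‖X - Y‖)
  have hN := NN_nonneg (f X) (f Y)
  set P := ‖dd X Y‖ * NN X Y with hP
  set d := ‖X - Y‖ with hdd
  have h5 : lam X * P * (1 - 1200000 * d) ≤ NN (f X) (f Y) := by
    have a2 := mul_le_mul_of_nonneg_right h2 (mul_nonneg hd h3)
    nlinarith
  have h6 : 1 ≤ (1 - 1200000 * d) * (2400000 * d + 1) := by nlinarith
  have h7 : lam X * P ≤ Real.exp (2400000 * d) * NN (f X) (f Y) := by
    have a0 := mul_nonneg (lam_nonneg X) h3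
    have a1 := mul_le_mul_of_nonneg_left h6 a0
    have a2 := mul_le_mul_of_nonneg_right h5 (by linarith : 0 ≤ 2400000 * d + 1)
    have a3 := mul_le_mul_of_nonneg_left h4 hN
    nlinarith
  rw [norm_f_sub hX hY]
  have := mul_le_mul_of_nonneg_left h7 hd
  calc _ = d * (lam X * P) := by rw [hP]; ring
    _ ≤ _ := this
    _ = _ := by ring

theorem dd_le {X Y : ℂ} (hX : In0 X) (hY : In0 Y) : ‖dd X Y‖ ≤ 8 := by
  unfold dd
  refine norm_add₃_le.trans ?_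
  have a0 := mul_le_mul hX.ge hY.ge (by norm_num) (norm_nonneg _)
  have : ‖16 / 27 / (X * Y)‖ ≤ 16 / 3 := by
    rw [norm_div, norm_L, norm_mul, div_le_iff₀ (by linarith)]; linarith
  linarith [hX.le, hY.le]

theorem step_lip {X Y : ℂ} (hX : In0 X) (hY : In0 Y) : ‖f X - f Y‖ ≤ 8 * ‖X - Y‖ := by
  rw [norm_f_sub hX hY]
  nlinarith [mul_le_mul_of_nonneg_left (dd_le hX hY) (norm_nonneg (X - Y))]

theorem step_hol {X Y : ℂ} (hX : In0 X) (hY : In0 Y) : ‖X - Y‖ ^ 2 ≤ 200 * ‖f X - f Y‖ := by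
  rw [norm_f_sub hX hY]
  nlinarith [mul_le_mul_of_nonneg_left (key hX hY).2 (norm_nonneg (X - Y))]

theorem f_v : f (4 / 3) = 4 / 3 := by unfold f; norm_num

theorem norm_v : ‖(4 / 3 : ℂ)‖ = 4 / 3 := by simp

theorem in0_v : In0 (4 / 3) :=
  ⟨by norm_num, by rw [f_v, norm_v], by rw [norm_v]; norm_num⟩

theorem dd_v {X : ℂ} (hX : In0 X) : |‖dd X (4 / 3)‖ - 3| ≤ 2 * ‖X - 4 / 3‖ := by
  have n0 := hX.ne
  have e : dd X (4 / 3) - 3 = (X - 4 / 3) * (1 - 1 / (3 * X)) := by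
    unfold dd; field_simp; ring
  have n3 : ‖(3 : ℂ)‖ = 3 := by simp
  have h1 := abs_norm_sub_norm_le (dd X (4 / 3)) 3
  rw [n3, e, norm_mul] at h1
  have h2 : ‖1 - 1 / (3 * X)‖ ≤ 2 := by
    refine (norm_sub_le _ _).trans ?_
    have : ‖1 / (3 * X)‖ ≤ 1 := by
      rw [norm_div, norm_mul, n3, norm_one, div_le_iff₀ (by linarith [hX.ge])]
      linarith [hX.ge]
    rw [norm_one]; linarith
  nlinarith [mul_le_mul_of_nonneg_left h2 (norm_nonneg (X - 4 / 3))]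

theorem step_D1 {X : ℂ} (hX : In0 X) :
    ‖f X - 4 / 3‖ ≤ Real.exp (150 * ‖X - 4 / 3‖) * (3 * ‖X - 4 / 3‖) := by
  have e := norm_f_sub hX in0_v
  rw [f_v] at e
  have h1 := (abs_le.mp (dd_v hX)).2
  have h2 := Real.add_one_le_exp (150 * ‖X - 4 / 3‖)
  have hd := norm_nonneg (X - 4 / 3)
  have h3 : ‖dd X (4 / 3)‖ ≤ Real.exp (150 * ‖X - 4 / 3‖) * 3 := by nlinarith
  rw [e]
  nlinarith [mul_le_mul_of_nonneg_left h3 hd]

theorem step_D2 {X : ℂ} (hX : In0 X) :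
    3 * ‖X - 4 / 3‖ ≤ Real.exp (150 * ‖X - 4 / 3‖) * ‖f X - 4 / 3‖ := by
  have e := norm_f_sub hX in0_v
  rw [f_v] at e
  have h1 := (abs_le.mp (dd_v hX)).1
  have h2 := Real.add_one_le_exp (150 * ‖X - 4 / 3‖)
  have hd := norm_nonneg (X - 4 / 3)
  have k := (key in0_v hX).1
  rw [dd_comm, show ((4 / 3 : ℂ) ^ 3 + 8 / 27) = 8 / 3 by norm_num,
    show ‖(8 / 3 : ℂ)‖ = 8 / 3 by simp] at k
  have hF := norm_nonneg (dd X (4 / 3))
  have h3 : 3 ≤ Real.exp (150 * ‖X - 4 / 3‖) * ‖dd X (4 / 3)‖ := by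
    have a1 := mul_le_mul_of_nonneg_right h2 hF
    have a2 := mul_le_mul_of_nonneg_left k hd
    nlinarith
  rw [e]
  nlinarith [mul_le_mul_of_nonneg_left h3 hd]

theorem step_E {X c : ℂ} (hX : In0 X) (hc : In0 c) (h3 : c ^ 3 = -(8 / 27)) :
    ‖f X - f c‖ ≤ 5 * ‖X - c‖ ^ 2 := by
  have n0 := hX.ne
  have n1 := hc.ne
  have e : dd X c = (X - c) * (1 - 16 / 27 / (c ^ 2 * X)) := by
    unfold dd; field_simp; linear_combination (54 * X) * h3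
  have hn : ‖c‖ = 2 / 3 := by
    have : ‖c‖ ^ 3 = (2 / 3) ^ 3 := by rw [← norm_pow, h3]; simp; norm_num
    exact (pow_left_inj₀ (norm_nonneg _) (by norm_num) (by norm_num)).mp this
  have h2 : ‖1 - 16 / 27 / (c ^ 2 * X)‖ ≤ 5 := by
    refine (norm_sub_le _ _).trans ?_
    have : ‖16 / 27 / (c ^ 2 * X)‖ ≤ 4 := by
      rw [norm_div, norm_mul, norm_pow, hn, norm_L, div_le_iff₀ (by linarith [hX.ge])]
      linarith [hX.ge]
    rw [norm_one]; linarith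
  rw [norm_f_sub hX hc, e, norm_mul]
  nlinarith [mul_le_mul_of_nonneg_left h2 (sq_nonneg ‖X - c‖)]

theorem sr_ge_dist {X : ℂ} (hX : In0 X) : 8 / 9 * ‖X - 4 / 3‖ ≤ ‖sr X‖ ^ 2 := by
  rw [norm_sr_sq, norm_sub_rev (64 / 27 : ℂ),
    show X ^ 3 - 64 / 27 = (X ^ 2 + 4 / 3 * X + 16 / 9) * (X - 4 / 3) by ring, norm_mul]
  apply mul_le_mul_of_nonneg_right _ (norm_nonneg _)
  refine le_trans ?_ (re_le_norm _)
  have e : (X ^ 2 + 4 / 3 * X + 16 / 9).re = X.re ^ 2 - X.im ^ 2 + 4 / 3 * X.re + 16 / 9 := by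
    simp [pow_two]
  have h1 : ‖X‖ ^ 2 = X.re ^ 2 + X.im ^ 2 := by rw [Complex.sq_norm, normSq_apply]; ring
  have h2 := pow_le_pow_left₀ (norm_nonneg X) hX.sec 2
  have h3 := pow_le_pow_left₀ (norm_nonneg X) hX.le 2
  have h4 := hX.sec
  have h5 := norm_nonneg X
  rw [e]
  nlinarith

/-- points that stay two steps in the disc have modulus at least `4/9` -/
theorem norm_ge_two {X : ℂ} (h0 : X ≠ 0) (h1 : f X ≠ 0) (h2 : ‖f (f X)‖ ≤ 4 / 3) :
    4 / 9 ≤ ‖X‖ := by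
  by_contra hc
  push Not at hc
  have a := norm_cube_sub h1 h2
  have e : f X * X = X ^ 3 - 16 / 27 := by unfold f; field_simp
  have hr := norm_nonneg X
  set w := X ^ 3 with hw
  have e1 : (f X ^ 3 - 16 / 27) * w = (w - 16 / 27) * (256 / 729)
      + (w ^ 3 - 16 / 9 * w ^ 2 + 80 / 729 * w) := by
    have : f X ^ 3 * w = (w - 16 / 27) ^ 3 := by rw [hw, ← mul_pow, e]
    linear_combination this
  have nw : ‖w‖ = ‖X‖ ^ 3 := by rw [hw, norm_pow]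
  have w1 : ‖w‖ ≤ 9 / 100 := by
    have := pow_le_pow_left₀ hr hc.le 3
    rw [nw]; linarith
  have w0 := norm_nonneg w
  have m1 : 1 / 2 ≤ ‖w - 16 / 27‖ := by
    have := norm_sub_norm_le (16 / 27 : ℂ) w
    rw [norm_L, norm_sub_rev] at this; linarith
  have r1 : ‖w ^ 3 - 16 / 9 * w ^ 2 + 80 / 729 * w‖ ≤ 3 / 100 := by
    refine (norm_add_le _ _).trans ?_
    have := norm_sub_le (w ^ 3) (16 / 9 * w ^ 2)
    rw [norm_mul, norm_pow w 3, norm_pow w 2, show ‖(16 / 9 : ℂ)‖ = 16 / 9 by simp] at this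
    rw [norm_mul, show ‖(80 / 729 : ℂ)‖ = 80 / 729 by simp]
    have p2 := pow_le_pow_left₀ w0 w1 2
    have p3 := pow_le_pow_left₀ w0 w1 3
    linarith
  have l1 : ‖w - 16 / 27‖ * (256 / 729) - 3 / 100 ≤ ‖f X ^ 3 - 16 / 27‖ * ‖w‖ := by
    rw [← norm_mul, e1]
    have := norm_sub_norm_le ((w - 16 / 27) * (256 / 729))
      (-(w ^ 3 - 16 / 9 * w ^ 2 + 80 / 729 * w))
    rw [norm_neg, sub_neg_eq_add, norm_mul, show ‖(256 / 729 : ℂ)‖ = 256 / 729 by simp] at this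
    linarith
  have l2 : ‖f X‖ * ‖X‖ = ‖w - 16 / 27‖ := by rw [← norm_mul, e]
  have l3 : ‖f X ^ 3 - 16 / 27‖ * ‖w‖ ≤ 4 / 3 * ‖w - 16 / 27‖ * ‖X‖ ^ 2 := by
    have := mul_le_mul_of_nonneg_right a w0
    rw [← l2, nw] at *
    nlinarith
  have p2 := pow_le_pow_left₀ hr hc.le 2
  nlinarith [mul_le_mul_of_nonneg_left p2 (norm_nonneg (w - 16 / 27))]

end Pool.Agent.Lib.MP_6f5a85_an
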