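import Pool.Agent.Lib.MP_6f5a85_an.Julia

/-! The coding homeomorphism and its gauge. -/

namespace Pool.Agent.Lib.MP_6f5a85_an

open Complex Set

/-- `z` and `s` have a common code. -/
def Rl (z s : ℂ) : Prop := ∃ w X Y, Wd w ∧ Cd w X ∧ Md w Y ∧ z = w 0 * X 0 ∧ s = w 0 * Y 0

variable {S : Set ℂ} {z s z' s' : ℂ}

theorem rl_left (hS : IsG S) (h : z ∈ julia) : ∃ s ∈ S, Rl z s := by
  obtain ⟨w, X, hw, hX, e⟩ := julia_code h
  obtain ⟨Y, hY⟩ := exists_md hw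
  exact ⟨_, hS.mem hw hY (hw 0), w, X, Y, hw, hX, hY, e, rfl⟩

theorem rl_right (hS : IsG S) (h : s ∈ S) : ∃ z ∈ julia, Rl z s := by
  obtain ⟨w, Y, hw, hY, e⟩ := hS.code h
  obtain ⟨X, hX⟩ := exists_cd hw
  exact ⟨_, code_julia hw hX, w, X, Y, hw, hX, hY, rfl, e⟩

theorem Sz_bounds {w X : ℕ → ℂ} (hw : Wd w) (hX : Cd w X) (n : ℕ) :
    (1 / 3) ^ n ≤ C1 * Sz w X n ∧ Sz w X n ≤ th ^ n := by
  have a := Sz_down hw hX 0 n
  have b := Sz_up hX 0 n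
  rw [Sz_zero, mul_one, zero_add] at a b
  exact ⟨a, b⟩

theorem rl_hol (h : Rl z s) (h' : Rl z' s') : (z = z' ∧ s = s') ∨ ∃ n : ℕ,
    (1 / 3) ^ n ≤ C1 * CA * ‖z - z'‖ ∧ ‖z - z'‖ ≤ CA * th ^ n ∧ Cmp CA ‖s - s'‖ ((1 / 2) ^ n) := by
  obtain ⟨w, X, Y, hw, hX, hY, rfl, rfl⟩ := h
  obtain ⟨w', X', Y', hw', hX', hY', rfl, rfl⟩ := h'
  refine (cmp_main hw hX hY hw' hX' hY').imp_right fun ⟨n, h1, h2⟩ => ⟨n, ?_, ?_, h2⟩
  · linarith [(Sz_bounds hw hX n).1,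
      mul_le_mul_of_nonneg_left h1.2 (show 0 ≤ C1 by linarith [C1_ge])]
  · exact h1.1.trans (mul_le_mul_of_nonneg_left (Sz_bounds hw hX n).2 (by linarith [CA_ge]))

theorem pow_small {α β A B ε : ℝ} (hα : 0 < α) (hα1 : α < 1) (hβ : 0 < β) (hβ1 : β < 1)
    (hA : 0 < A) (hB : 0 < B) (hε : 0 < ε) :
    ∃ δ > 0, ∀ (n : ℕ) (d e : ℝ), α ^ n ≤ A * d → e ≤ B * β ^ n → d < δ → e < ε := by
  obtain ⟨N, hN⟩ := exists_pow_lt_of_lt_one (div_pos hε hB) hβ1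
  refine ⟨α ^ N / A, by positivity, fun n d e h1 h2 h3 => ?_⟩
  rw [lt_div_iff₀ hA] at h3
  rw [lt_div_iff₀ hB] at hN
  have h4 : N ≤ n := by
    by_contra hn
    linarith [pow_le_pow_of_le_one hα.le hα1.le (not_le.1 hn).le]
  linarith [mul_le_mul_of_nonneg_left (pow_le_pow_of_le_one hβ.le hβ1.le h4) hB.le]

theorem rl_cont1 {ε : ℝ} (hε : 0 < ε) :
    ∃ δ > 0, ∀ z s z' s', Rl z s → Rl z' s' → ‖z - z'‖ < δ → ‖s - s'‖ < ε := by
  obtain ⟨δ, hδ, h⟩ := pow_small (α := 1 / 3) (β := 1 / 2) (A := C1 * CA) (B := CA) (by norm_num)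
    (by norm_num) (by norm_num) (by norm_num) (by nlinarith [C1_ge, CA_ge]) (by linarith [CA_ge]) hε
  refine ⟨δ, hδ, fun z s z' s' h1 h2 h3 => ?_⟩
  rcases rl_hol h1 h2 with e | ⟨n, a, -, b⟩
  · simpa [e.2] using hε
  · exact h n _ _ a b.1 h3

theorem rl_cont2 {ε : ℝ} (hε : 0 < ε) :
    ∃ δ > 0, ∀ z s z' s', Rl z s → Rl z' s' → ‖s - s'‖ < δ → ‖z - z'‖ < ε := by
  obtain ⟨δ, hδ, h⟩ := pow_small (α := 1 / 2) (β := th) (A := CA) (B := CA) (by norm_num)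
    (by norm_num) th_pos th_lt_one (by linarith [CA_ge]) (by linarith [CA_ge]) hε
  refine ⟨δ, hδ, fun z s z' s' h1 h2 h3 => ?_⟩
  rcases rl_hol h1 h2 with e | ⟨n, -, a, b⟩
  · simpa [e.1] using hε
  · exact h n _ _ b.2 a h3

theorem rl_eq1 (h : Rl z s) (h' : Rl z s') : s = s' :=
  sub_eq_zero.1 (norm_le_zero_iff.1 (le_of_forall_gt fun ε hε =>
    let ⟨_, hδ, k⟩ := rl_cont1 hε
    k _ _ _ _ h h' (by simpa using hδ)))

theorem rl_eq2 (h : Rl z s) (h' : Rl z' s) : z = z' :=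
  sub_eq_zero.1 (norm_le_zero_iff.1 (le_of_forall_gt fun ε hε =>
    let ⟨_, hδ, k⟩ := rl_cont2 hε
    k _ _ _ _ h h' (by simpa using hδ)))

theorem exists_homeo (hS : IsG S) : ∃ h : julia ≃ₜ S, ∀ x : julia, Rl x (h x) := by
  choose g hg hg' using fun x : julia => rl_left hS x.2
  choose k hk hk' using fun y : S => rl_right hS y.2
  refine ⟨⟨⟨fun x => ⟨g x, hg x⟩, fun y => ⟨k y, hk y⟩,
    fun x => Subtype.ext (rl_eq2 (hk' ⟨g x, hg x⟩) (hg' x)),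
    fun y => Subtype.ext (rl_eq1 (hg' ⟨k y, hk y⟩) (hk' y))⟩, ?_, ?_⟩, hg'⟩
  · refine UniformContinuous.continuous (Metric.uniformContinuous_iff.2 fun ε hε => ?_)
    obtain ⟨δ, hδ, h⟩ := rl_cont1 hε
    refine ⟨δ, hδ, fun {a b} e => ?_⟩
    rw [Subtype.dist_eq, dist_eq_norm] at e ⊢
    exact h _ _ _ _ (hg' a) (hg' b) e
  · refine UniformContinuous.continuous (Metric.uniformContinuous_iff.2 fun ε hε => ?_)
    obtain ⟨δ, hδ, h⟩ := rl_cont2 hε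
    refine ⟨δ, hδ, fun {a b} e => ?_⟩
    rw [Subtype.dist_eq, dist_eq_norm] at e ⊢
    exact h _ _ _ _ (hk' a) (hk' b) e

/-- The exponent. -/
noncomputable def ex : ℝ := Real.log 2 / Real.log 3

theorem ex_pos : 0 < ex := div_pos (Real.log_pos (by norm_num)) (Real.log_pos (by norm_num))

theorem third_ex (j : ℕ) : ((1 / 3 : ℝ) ^ j) ^ ex = (1 / 2) ^ j := by
  have h : (3 : ℝ) ^ ex = 2 := Real.rpow_logb (by norm_num) (by norm_num) (by norm_num)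
  rw [← Real.rpow_pow_comm (by norm_num), Real.div_rpow (by norm_num) (by norm_num), h,
    Real.one_rpow]

theorem two_ex {t : ℝ} (h : 0 ≤ t) : t ^ (2 * ex) = (t ^ 2) ^ ex := by
  rw [Real.rpow_mul h, Real.rpow_two]

theorem ex_le {a b c d : ℝ} (ha : 0 ≤ a) (hb : 0 ≤ b) (hc : 0 ≤ c) (hd : 0 ≤ d)
    (h : a * b ≤ c * d) : a ^ ex * b ^ ex ≤ c ^ ex * d ^ ex := by
  rw [← Real.mul_rpow ha hb, ← Real.mul_rpow hc hd]
  exact Real.rpow_le_rpow (mul_nonneg ha hb) h ex_pos.le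

theorem rl_gauge : ∃ C > 0, ∀ x a b s p q : ℂ, Rl x s → Rl a p → Rl b q → x ≠ b →
    ‖s - p‖ / ‖s - q‖ ≤ C * max ((‖x - a‖ / ‖x - b‖) ^ ex) ((‖x - a‖ / ‖x - b‖) ^ (2 * ex)) := by
  have hA := CA_ge
  have hC := C1_ge
  have k1 : 0 < (C1 * CA ^ 2) ^ ex := by positivity
  have k2 : 0 < ((CA ^ 2) ^ 2) ^ ex := by positivity
  refine ⟨CA ^ 2 * ((C1 * CA ^ 2) ^ ex + ((CA ^ 2) ^ 2) ^ ex), by positivity, ?_⟩
  rintro _ _ _ _ _ _ ⟨w, X, Y, hw, hX, hY, rfl, rfl⟩ ⟨w1, X1, Y1, hw1, hX1, hY1, rfl, rfl⟩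
    ⟨w2, X2, Y2, hw2, hX2, hY2, rfl, rfl⟩ hne
  obtain ⟨m, a2, b2⟩ := (cmp_main hw hX hY hw2 hX2 hY2).resolve_left fun e => hne e.1
  have d0 := norm_pos_iff.2 (sub_ne_zero.2 hne)
  have t0 : 0 ≤ ‖w 0 * X 0 - w1 0 * X1 0‖ / ‖w 0 * X 0 - w2 0 * X2 0‖ := by positivity
  have ht := div_mul_cancel₀ ‖w 0 * X 0 - w1 0 * X1 0‖ d0.ne'
  rw [two_ex t0]
  rcases cmp_main hw hX hY hw1 hX1 hY1 with e | ⟨n, a1, b1⟩
  · rw [e.2, sub_self, norm_zero, zero_div]; positivity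
  generalize ‖w 0 * X 0 - w1 0 * X1 0‖ / ‖w 0 * X 0 - w2 0 * X2 0‖ = t at t0 ht
  generalize ‖w 0 * X 0 - w1 0 * X1 0‖ = d1 at *
  generalize ‖w 0 * X 0 - w2 0 * X2 0‖ = d2 at *
  have e2 : 0 < ‖w 0 * Y 0 - w2 0 * Y2 0‖ :=
    (pos_iff_pos_of_mul_pos ((pow_pos (by norm_num) m).trans_le b2.2 :)).1 (by linarith)
  have e1 := norm_nonneg (w 0 * Y 0 - w1 0 * Y1 0)
  generalize ‖w 0 * Y 0 - w1 0 * Y1 0‖ = f1 at *
  generalize ‖w 0 * Y 0 - w2 0 * Y2 0‖ = f2 at *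
  have g0 : f1 / f2 * (1 / 2) ^ m ≤ CA ^ 2 * (1 / 2) ^ n := by
    have := mul_le_mul_of_nonneg_left b2.2 (div_nonneg e1 e2.le)
    rw [mul_comm CA, ← mul_assoc, div_mul_cancel₀ _ e2.ne'] at this
    nlinarith [mul_le_mul_of_nonneg_right b1.1 (by linarith : 0 ≤ CA)]
  have g1 : Sz w X n ≤ CA ^ 2 * t * Sz w X m := by
    have := mul_le_mul_of_nonneg_left a2.1 (mul_nonneg t0 (by linarith : 0 ≤ CA))
    nlinarith [a1.2]
  have pos : ∀ n, 0 < Sz w X n := fun n =>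
    (pos_iff_pos_of_mul_pos ((pow_pos (by norm_num) n).trans_le (Sz_bounds hw hX n).1 :)).1
      (by linarith)
  have m0 : 0 ≤ max (t ^ ex) ((t ^ 2) ^ ex) := by positivity
  rcases le_total m n with h | h
  · obtain ⟨j, rfl⟩ := Nat.exists_eq_add_of_le h
    have u1 : 1 * (1 / 3) ^ j ≤ C1 * CA ^ 2 * t := by
      refine le_of_mul_le_mul_right ?_ (pos m)
      linarith [Sz_down hw hX m j, mul_le_mul_of_nonneg_left g1 (by linarith : 0 ≤ C1)]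
    have u2 := ex_le zero_le_one (by positivity) (by positivity) t0 u1
    rw [third_ex, Real.one_rpow, one_mul] at u2
    have u3 : f1 / f2 ≤ CA ^ 2 * (1 / 2) ^ j := by
      refine le_of_mul_le_mul_right ?_ (pow_pos (by norm_num : (0 : ℝ) < 1 / 2) m)
      rw [pow_add] at g0; linarith
    refine u3.trans ?_
    rw [mul_assoc]
    refine mul_le_mul_of_nonneg_left (u2.trans ?_) (by positivity)
    exact mul_le_mul (by linarith) (le_max_left _ _) (by positivity) (by linarith)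
  · obtain ⟨j, rfl⟩ := Nat.exists_eq_add_of_le h
    have u0 : 1 ≤ CA ^ 2 * t * th ^ j := by
      refine le_of_mul_le_mul_right ?_ (pos n)
      linarith [mul_le_mul_of_nonneg_left (Sz_up hX n j) (by positivity : 0 ≤ CA ^ 2 * t)]
    have u1 : 1 * 1 ≤ (CA ^ 2) ^ 2 * t ^ 2 * (1 / 3) ^ j := by
      rw [← th_pow_sq, ← mul_pow, ← mul_pow, one_mul]; exact one_le_pow₀ u0
    have u2 := ex_le zero_le_one zero_le_one (by positivity) (by positivity) u1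
    rw [third_ex, Real.one_rpow, one_mul, Real.mul_rpow (by positivity) (by positivity)] at u2
    have u3 : f1 / f2 * (1 / 2) ^ j ≤ CA ^ 2 := by
      refine le_of_mul_le_mul_right ?_ (pow_pos (by norm_num : (0 : ℝ) < 1 / 2) n)
      rw [pow_add] at g0; linarith
    have u4 := mul_le_mul_of_nonneg_left u2 (div_nonneg e1 e2.le)
    have u5 := mul_le_mul_of_nonneg_left u3
      (by positivity : 0 ≤ ((CA ^ 2) ^ 2) ^ ex * (t ^ 2) ^ ex)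
    have u6 : ((CA ^ 2) ^ 2) ^ ex * (t ^ 2) ^ ex ≤ ((C1 * CA ^ 2) ^ ex + ((CA ^ 2) ^ 2) ^ ex)
        * max (t ^ ex) ((t ^ 2) ^ ex) :=
      mul_le_mul (by linarith) (le_max_right _ _) (by positivity) (by linarith)
    linarith [mul_le_mul_of_nonneg_left u6 (by positivity : 0 ≤ CA ^ 2)]

end Pool.Agent.Lib.MP_6f5a85_an
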